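import Pool.Agent.Lib_helper56.TA.Defs

/-!
# Basic lemmas on the left-end dynamics
-/

namespace Pool.Agent.TA

/-- lowest node of a turn, or node of an ascent -/
def Op.x : Op → ℕ
  | .turn x _ _ => x
  | .asc x => x

/-- middle node of a turn -/
def Op.y : Op → ℕ
  | .turn _ y _ => y
  | .asc _ => 0

/-- upper node of a turn -/
def Op.z : Op → ℕ
  | .turn _ _ z => z
  | .asc _ => 0

namespace Dyn

variable {n : ℕ} (D : Dyn n)

/-- left ends, frozen after the last operation -/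
def L (t v : ℕ) : ℕ := D.l (min t D.M) v
/-- lowest node -/
def X (t : ℕ) : ℕ := (D.op t).x
/-- middle node -/
def Y (t : ℕ) : ℕ := (D.op t).y
/-- upper node -/
def Z (t : ℕ) : ℕ := (D.op t).z
/-- a turn happens at time `t` -/
def tu (t : ℕ) : Prop := t < D.M ∧ (D.op t).isTurn = true
/-- an ascent of `x` happens at time `t` -/
def as (t x : ℕ) : Prop := t < D.M ∧ D.op t = .asc x

variable {D}

lemma le_self' (t v : ℕ) : D.L t v ≤ v := D.le_self _ _

lemma lam' {t u v : ℕ} (h : u < v) (h' : D.L t v ≤ u) : D.L t v ≤ D.L t u := D.lam _ _ _ h h'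

lemma turn_spec {t : ℕ} (h : D.tu t) :
    D.X t < D.Y t ∧ D.Y t < D.Z t ∧ D.Z t < n ∧
    D.L t (D.Y t) = D.L t (D.X t) ∧ D.L t (D.Z t) = D.L t (D.X t) ∧
    (∀ u, D.X t < u → u < D.Y t → D.L t u ≠ D.L t (D.X t)) ∧
    (∀ u, D.Y t < u → u < D.Z t → D.L t u ≠ D.L t (D.X t)) ∧
    D.L (t + 1) (D.Y t) = D.X t + 1 ∧ D.L (t + 1) (D.Z t) = D.Y t + 1 ∧
    (∀ u, u ≠ D.Y t → u ≠ D.Z t → D.L (t + 1) u = D.L t u) := by
  obtain ⟨hM, ho⟩ := h
  have hs := D.step t hM
  have e1 : min t D.M = t := by omega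
  have e2 : min (t + 1) D.M = t + 1 := by omega
  unfold L X Y Z
  rw [e1, e2]
  cases hop : D.op t with
  | turn x y z =>
    rw [hop] at hs
    simp only [Op.Step] at hs
    simpa [Op.x, Op.y, Op.z] using hs
  | asc x => rw [hop] at ho; simp [Op.isTurn] at ho

lemma asc_spec {t x : ℕ} (h : D.as t x) :
    x < n ∧ (∀ v, x < v → D.L t v = D.L t x → D.L (t + 1) v = x + 1) ∧
    (∀ v, (v ≤ x ∨ D.L t v ≠ D.L t x) → D.L (t + 1) v = D.L t v) := by
  obtain ⟨hM, ho⟩ := h
  have hs := D.step t hM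
  have e1 : min t D.M = t := by omega
  have e2 : min (t + 1) D.M = t + 1 := by omega
  unfold L
  rw [e1, e2]
  rw [ho] at hs
  simpa only [Op.Step] using hs

lemma tu_X_asc {t x : ℕ} (h : D.as t x) : D.X t = x := by
  unfold X; rw [h.2]; rfl

lemma tu_or_as {t : ℕ} (h : t < D.M) : D.tu t ∨ D.as t (D.X t) := by
  unfold tu as X
  cases hop : D.op t with
  | turn x y z => left; exact ⟨h, rfl⟩
  | asc x => right; exact ⟨h, rfl⟩

lemma not_tu_as {t x : ℕ} (h : D.tu t) (h' : D.as t x) : False := by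
  have := h.2
  rw [h'.2] at this
  simp [Op.isTurn] at this

lemma L_const {t : ℕ} (h : D.M ≤ t) (v : ℕ) : D.L (t + 1) v = D.L t v := by
  unfold L
  have e1 : min t D.M = D.M := by omega
  have e2 : min (t + 1) D.M = D.M := by omega
  rw [e1, e2]

lemma step_mono (t v : ℕ) : D.L t v ≤ D.L (t + 1) v := by
  by_cases hM : t < D.M
  · rcases tu_or_as hM with h | h
    · obtain ⟨h1, h2, h3, h4, h5, h6, h7, h8, h9, h10⟩ := turn_spec h
      have := D.le_self' t (D.X t)
      by_cases e1 : v = D.Y t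
      · subst e1; omega
      · by_cases e2 : v = D.Z t
        · subst e2; omega
        · rw [h10 v e1 e2]
    · obtain ⟨h1, h2, h3⟩ := asc_spec h
      have := D.le_self' t (D.X t)
      by_cases e : D.X t < v ∧ D.L t v = D.L t (D.X t)
      · rw [h2 v e.1 e.2]; omega
      · rw [h3 v (by omega)]
  · rw [L_const (by omega)]

lemma mono {t s : ℕ} (h : t ≤ s) (v : ℕ) : D.L t v ≤ D.L s v := by
  induction s, h using Nat.le_induction with
  | base => exact le_rfl
  | succ k _ ih => exact ih.trans (step_mono k v)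

/-- a change of the left end of `v` -/
lemma change {t v : ℕ} (h : D.L (t + 1) v ≠ D.L t v) :
    ∃ w, D.L (t + 1) v = w + 1 ∧ w < v ∧ D.L t w = D.L t v ∧
      (D.as t w ∨ (D.tu t ∧ D.X t = w ∧ D.Y t = v) ∨ (D.tu t ∧ D.Y t = w ∧ D.Z t = v)) := by
  have hM : t < D.M := by
    by_contra hc
    exact h (L_const (by omega) v)
  rcases tu_or_as hM with ht | ht
  · obtain ⟨h1, h2, h3, h4, h5, h6, h7, h8, h9, h10⟩ := turn_spec ht
    by_cases e1 : v = D.Y t
    · subst e1
      exact ⟨D.X t, h8, h1, h4.symm, Or.inr (Or.inl ⟨ht, rfl, rfl⟩)⟩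
    · by_cases e2 : v = D.Z t
      · subst e2
        exact ⟨D.Y t, h9, h2, by rw [h4, h5], Or.inr (Or.inr ⟨ht, rfl, rfl⟩)⟩
      · exact absurd (h10 v e1 e2) h
  · obtain ⟨h1, h2, h3⟩ := asc_spec ht
    by_cases e : D.X t < v ∧ D.L t v = D.L t (D.X t)
    · exact ⟨D.X t, h2 v e.1 e.2, e.1, e.2.symm, Or.inl ht⟩
    · exact absurd (h3 v (by omega)) h

/-- nodes strictly inside a turn, before the turn -/
lemma U0a {t u : ℕ} (h : D.tu t) (h1 : D.X t < u) (h2 : u < D.Y t) : D.X t < D.L t u := by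
  obtain ⟨a1, a2, a3, a4, a5, a6, a7, a8, a9, a10⟩ := turn_spec h
  by_contra hc
  have hc : D.L t u ≤ D.X t := by omega
  have b1 := lam' h1 hc
  have b2 : D.L t (D.Y t) ≤ D.L t u := lam' h2 (by have := D.le_self' t (D.X t); omega)
  exact a6 u h1 h2 (by omega)

lemma U0b {t u : ℕ} (h : D.tu t) (h1 : D.Y t < u) (h2 : u < D.Z t) : D.Y t < D.L t u := by
  obtain ⟨a1, a2, a3, a4, a5, a6, a7, a8, a9, a10⟩ := turn_spec h
  by_contra hc
  have hc : D.L t u ≤ D.Y t := by omega
  have b1 := lam' h1 hc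
  have b2 : D.L t (D.Z t) ≤ D.L t u := lam' h2 (by have := D.le_self' t (D.X t); omega)
  exact a7 u h1 h2 (by omega)

/-- after a turn, every node in `(X, Z]` has left end `> X` -/
lemma after1 {t u s : ℕ} (h : D.tu t) (h1 : D.X t < u) (h2 : u ≤ D.Z t) (hs : t < s) :
    D.X t < D.L s u := by
  obtain ⟨a1, a2, a3, a4, a5, a6, a7, a8, a9, a10⟩ := turn_spec h
  have hm := D.mono (show t + 1 ≤ s by omega) u
  rcases lt_trichotomy u (D.Y t) with h3 | h3 | h3
  · have := U0a h h1 h3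
    have := D.step_mono t u
    omega
  · subst h3; omega
  · rcases lt_or_eq_of_le h2 with h4 | h4
    · have := U0b h h3 h4
      have := D.step_mono t u
      omega
    · subst h4; omega

lemma after2 {t u s : ℕ} (h : D.tu t) (h1 : D.Y t < u) (h2 : u ≤ D.Z t) (hs : t < s) :
    D.Y t < D.L s u := by
  obtain ⟨a1, a2, a3, a4, a5, a6, a7, a8, a9, a10⟩ := turn_spec h
  have hm := D.mono (show t + 1 ≤ s by omega) u
  rcases lt_or_eq_of_le h2 with h4 | h4
  · have := U0b h h1 h4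
    have := D.step_mono t u
    omega
  · subst h4; omega

variable (D) in
/-- `v` jumps exactly over `x` at time `s` -/
def jump (s x v : ℕ) : Prop := D.L s v ≤ x ∧ D.L (s + 1) v = x + 1

lemma jump_spec {s x v : ℕ} (h : D.jump s x v) :
    x < v ∧ D.L s x = D.L s v ∧
      (D.as s x ∨ (D.tu s ∧ D.X s = x ∧ D.Y s = v) ∨ (D.tu s ∧ D.Y s = x ∧ D.Z s = v)) := by
  obtain ⟨h1, h2⟩ := h
  obtain ⟨w, hw1, hw2, hw3, hw4⟩ := change (D := D) (t := s) (v := v) (by omega)
  have : w = x := by omega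
  subst this
  exact ⟨hw2, hw3, hw4⟩

lemma jump_before {s x v t : ℕ} (h : D.jump s x v) (ht : t ≤ s) : D.L t v ≤ x :=
  (D.mono ht v).trans h.1

lemma jump_after {s x v t : ℕ} (h : D.jump s x v) (ht : s < t) : x < D.L t v := by
  have := D.mono (show s + 1 ≤ t by omega) v
  have := h.2
  omega

lemma jump_unique {s s' x v : ℕ} (h : D.jump s x v) (h' : D.jump s' x v) : s = s' := by
  rcases lt_trichotomy s s' with hh | hh | hh
  · have := jump_after h hh
    have := h'.1
    omega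
  · exact hh
  · have := jump_after h' hh
    have := h.1
    omega

lemma jump_mono {s s' x v v' : ℕ} (h : D.jump s x v) (h' : D.jump s' x v') (hv : v ≤ v') :
    s ≤ s' := by
  rcases hv.eq_or_lt with rfl | hv
  · exact (jump_unique h h').le
  by_contra hc
  have h1 := (jump_spec h).1
  have h2 : D.L (s' + 1) v' ≤ D.L (s' + 1) v := lam' hv (by have := h'.2; omega)
  have h3 := jump_before h (show s' + 1 ≤ s by omega)
  have := h'.2
  omega

/-- two different nodes jumping exactly over `x` at the same time: an ascent -/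
lemma jump_same_asc {s x v v' : ℕ} (h : D.jump s x v) (h' : D.jump s x v') (hv : v ≠ v') :
    D.as s x := by
  obtain ⟨a1, a2, a3⟩ := jump_spec h
  obtain ⟨b1, b2, b3⟩ := jump_spec h'
  rcases a3 with a3 | a3 | a3
  · exact a3
  · rcases b3 with b3 | b3 | b3
    · exact b3
    · exact absurd (a3.2.2.symm.trans b3.2.2) hv
    · have := (turn_spec a3.1).1; omega
  · rcases b3 with b3 | b3 | b3
    · exact b3
    · have := (turn_spec a3.1).1; omega
    · exact absurd (a3.2.2.symm.trans b3.2.2) hv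

lemma as_jump {s x v : ℕ} (h : D.as s x) (hv : x < v) (he : D.L s v = D.L s x) : D.jump s x v := by
  refine ⟨?_, (asc_spec h).2.1 v hv he⟩
  have := D.le_self' s x
  omega

lemma first_cross {x v t0 t1 : ℕ} (h0 : D.L t0 v ≤ x) (h1 : x < D.L t1 v) (ht : t0 ≤ t1) :
    ∃ s, t0 ≤ s ∧ s < t1 ∧ D.L s v ≤ x ∧ x < D.L (s + 1) v := by
  induction t1, ht using Nat.le_induction with
  | base => omega
  | succ k hk ih =>
    by_cases hx : x < D.L k v
    · obtain ⟨s, a, b, c, d⟩ := ih hx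
      exact ⟨s, a, by omega, c, d⟩
    · exact ⟨k, hk, by omega, by omega, h1⟩

/-- The landing lemma. -/
lemma land {x c v t0 t1 : ℕ} (hc : ∀ u, x < u → u ≤ c → x < D.L t0 u) (h0 : D.L t0 v ≤ x)
    (h1 : x < D.L t1 v) (h2 : D.L t1 v ≤ c) (ht : t0 ≤ t1) :
    ∃ s, t0 ≤ s ∧ s < t1 ∧ D.jump s x v := by
  obtain ⟨s, a, b, c1, d⟩ := first_cross h0 h1 ht
  refine ⟨s, a, b, c1, ?_⟩
  obtain ⟨w, hw1, hw2, hw3, hw4⟩ := change (D := D) (t := s) (v := v) (by omega)
  have hm := D.mono (show s + 1 ≤ t1 by omega) v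
  by_contra hne
  have hw : x < w := by omega
  have hx := hc w hw (by omega)
  have hx2 := D.mono a w
  omega

/-- General lemma on two turns `i < j`. -/
lemma two_turns {i j : ℕ} (hi : D.tu i) (hj : D.tu j) (hij : i < j) (h1 : D.X i < D.Y j)
    (h2 : D.Y j ≤ D.Z i) (h3 : D.X j < D.Y i) (h4 : D.Y i < D.Z j) :
    D.X i < D.L j (D.X j) ∧ D.Z i < D.Z j ∧ D.L i (D.Z j) ≤ D.L i (D.X i) ∧
      ∃ s, i < s ∧ s < j ∧ D.jump s (D.X i) (D.Z j) := by
  obtain ⟨a1, a2, a3, a4, a5, a6, a7, a8, a9, a10⟩ := turn_spec hi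
  obtain ⟨b1, b2, b3, b4, b5, b6, b7, b8, b9, b10⟩ := turn_spec hj
  have c1 : D.X i < D.L j (D.X j) := by
    have := after1 hi h1 h2 hij
    omega
  have c0 := D.le_self' j (D.X j)
  have c2 : D.Z i < D.Z j := by
    by_contra hc
    have := after2 hi h4 (by omega) hij
    omega
  have c4 := D.mono hij.le (D.Z j)
  have c3 : D.L i (D.Z j) ≤ D.L i (D.Z i) := lam' c2 (by omega)
  have c5 := D.le_self' i (D.X i)
  refine ⟨c1, c2, by omega, ?_⟩
  obtain ⟨s, d1, d2, d3⟩ := land (D := D) (x := D.X i) (c := D.Z i) (v := D.Z j) (t0 := i + 1) (t1 := j)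
    (fun u hu hu' => after1 hi hu hu' (by omega))
    (by rw [a10 _ (by omega) (by omega)]; omega) (by omega) (by omega) (by omega)
  exact ⟨s, by omega, d2, d3⟩

/-- The separation lemma (one step). -/
lemma sep_step {s v w : ℕ} (hv : v < w) (h : D.L s v = D.L s w)
    (h' : D.L (s + 1) v ≠ D.L (s + 1) w) (hw : D.L (s + 1) w ≤ v) :
    D.tu s ∧ D.L s (D.X s) = D.L s w ∧ (D.Y s = v ∨ D.Z s = v) := by
  have hM : s < D.M := by
    by_contra hc
    rw [L_const (by omega), L_const (by omega)] at h'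
    exact h' h
  rcases tu_or_as hM with ht | ht
  · obtain ⟨a1, a2, a3, a4, a5, a6, a7, a8, a9, a10⟩ := turn_spec ht
    by_cases e1 : v = D.Y s
    · subst e1; exact ⟨ht, by omega, Or.inl rfl⟩
    by_cases e2 : v = D.Z s
    · subst e2; exact ⟨ht, by omega, Or.inr rfl⟩
    exfalso
    rw [a10 v e1 e2] at h'
    by_cases e3 : w = D.Y s
    · subst e3
      exact a6 v (by omega) hv (by omega)
    by_cases e4 : w = D.Z s
    · subst e4
      exact a7 v (by omega) hv (by omega)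
    rw [a10 w e3 e4] at h'
    exact h' h
  · exfalso
    obtain ⟨a1, a2, a3⟩ := asc_spec ht
    by_cases e : D.L s w = D.L s (D.X s)
    · by_cases e1 : D.X s < v
      · rw [a2 v e1 (by omega), a2 w (by omega) e] at h'
        exact h' rfl
      · by_cases e2 : D.X s < w
        · rw [a2 w e2 e] at hw
          omega
        · rw [a3 v (Or.inl (by omega)), a3 w (Or.inl (by omega))] at h'
          exact h' h
    · rw [a3 v (Or.inr (by omega)), a3 w (Or.inr e)] at h'
      exact h' h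

/-- The separation lemma. -/
lemma separation {a b v w : ℕ} (hab : a ≤ b) (hv : v < w) (h : D.L a v = D.L a w)
    (h' : D.L b v ≠ D.L b w) (hw : D.L b w ≤ v) :
    ∃ s, a ≤ s ∧ s < b ∧ D.tu s ∧ (D.Y s = v ∨ D.Z s = v) ∧
      D.L a w ≤ D.L s (D.X s) ∧ D.L s (D.X s) ≤ D.L b w := by
  induction b, hab using Nat.le_induction with
  | base => exact absurd h h'
  | succ k hk ih =>
    have hm := D.step_mono k w
    by_cases he : D.L k v = D.L k w
    · obtain ⟨c1, c2, c3⟩ := sep_step hv he h' hw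
      have := D.mono hk w
      exact ⟨k, hk, by omega, c1, c3, by omega, by omega⟩
    · obtain ⟨s, c1, c2, c3, c4, c5, c6⟩ := ih he (by omega)
      exact ⟨s, c1, by omega, c3, c4, c5, by omega⟩

end Dyn

end Pool.Agent.TA
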