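import Pool.Agent.Lib_helper56.TA.Basic

/-!
# Dyadic blocks and the two types of turns
-/

namespace Pool.Agent.TA

/-- A dyadic block: an interval `[lo, hi)` with midpoint `mid`. -/
@[ext] structure Blk : Type where
  lev : ℕ
  idx : ℕ

namespace Blk

/-- left end -/
def lo (B : Blk) : ℕ := (2 * B.idx) * 2 ^ B.lev
/-- midpoint -/
def mid (B : Blk) : ℕ := (2 * B.idx + 1) * 2 ^ B.lev
/-- right end -/
def hi (B : Blk) : ℕ := (2 * B.idx + 2) * 2 ^ B.lev

lemma mid_eq (B : Blk) : B.mid = B.lo + 2 ^ B.lev := by unfold mid lo; ring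
lemma hi_eq (B : Blk) : B.hi = B.mid + 2 ^ B.lev := by unfold mid hi; ring
lemma lo_lt (B : Blk) : B.lo < B.mid := by
  have := mid_eq B; have : 0 < 2 ^ B.lev := by positivity
  omega
lemma mid_lt (B : Blk) : B.mid < B.hi := by
  have := hi_eq B; have : 0 < 2 ^ B.lev := by positivity
  omega

/-- `B` lies in the left half of `B'` -/
def inL (B B' : Blk) : Prop := B'.lo ≤ B.lo ∧ B.hi ≤ B'.mid ∧ B.lev < B'.lev
/-- `B` lies in the right half of `B'` -/
def inR (B B' : Blk) : Prop := B'.mid ≤ B.lo ∧ B.hi ≤ B'.hi ∧ B.lev < B'.lev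

lemma nest_lt {B B' : Blk} (h : B.lev < B'.lev) :
    B.hi ≤ B'.lo ∨ B'.hi ≤ B.lo ∨ inL B B' ∨ inR B B' := by
  obtain ⟨e, he⟩ := Nat.exists_eq_add_of_lt h
  have hp : 2 ^ B'.lev = (2 * 2 ^ e) * 2 ^ B.lev := by rw [he]; ring
  have h1 : B'.lo = (4 * (B'.idx * 2 ^ e)) * 2 ^ B.lev := by unfold lo; rw [hp]; ring
  have h2 : B'.mid = (4 * (B'.idx * 2 ^ e) + 2 * 2 ^ e) * 2 ^ B.lev := by unfold mid; rw [hp]; ring
  have h3 : B'.hi = (4 * (B'.idx * 2 ^ e) + 4 * 2 ^ e) * 2 ^ B.lev := by unfold hi; rw [hp]; ring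
  unfold inL inR
  rw [h1, h2, h3]
  unfold lo hi
  generalize B'.idx * 2 ^ e = a
  generalize 2 ^ e = b
  by_cases c1 : 2 * B.idx + 2 ≤ 4 * a
  · left; exact Nat.mul_le_mul_right _ c1
  by_cases c2 : 2 * B.idx + 2 ≤ 4 * a + 2 * b
  · right; right; left
    exact ⟨Nat.mul_le_mul_right _ (by omega), Nat.mul_le_mul_right _ c2, h⟩
  by_cases c3 : 2 * B.idx + 2 ≤ 4 * a + 4 * b
  · right; right; right
    exact ⟨Nat.mul_le_mul_right _ (by omega), Nat.mul_le_mul_right _ c3, h⟩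
  · right; left; exact Nat.mul_le_mul_right _ (by omega)

lemma nest_eq {B B' : Blk} (h : B.lev = B'.lev) : B = B' ∨ B.hi ≤ B'.lo ∨ B'.hi ≤ B.lo := by
  rcases lt_trichotomy B.idx B'.idx with h1 | h1 | h1
  · right; left
    unfold hi lo; rw [h]
    exact Nat.mul_le_mul_right _ (by omega)
  · left; exact Blk.ext h h1
  · right; right
    unfold hi lo; rw [h]
    exact Nat.mul_le_mul_right _ (by omega)

/-- any two blocks are equal, disjoint, or one lies in a half of the other -/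
lemma nest (B B' : Blk) :
    B = B' ∨ B.hi ≤ B'.lo ∨ B'.hi ≤ B.lo ∨ inL B B' ∨ inR B B' ∨ inL B' B ∨ inR B' B := by
  rcases lt_trichotomy B.lev B'.lev with h | h | h
  · rcases nest_lt h with h | h | h | h
    · tauto
    · tauto
    · tauto
    · tauto
  · rcases nest_eq h with h | h | h
    · tauto
    · tauto
    · tauto
  · rcases nest_lt h with h | h | h | h
    · tauto
    · tauto
    · tauto
    · tauto

lemma exists_sep {x y : ℕ} (h : x < y) : ∃ B : Blk, B.lo ≤ x ∧ x < B.mid ∧ B.mid ≤ y ∧ y < B.hi := by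
  induction y using Nat.strong_induction_on generalizing x with
  | _ y ih =>
    by_cases h2 : x / 2 < y / 2
    · obtain ⟨B, b1, b2, b3, b4⟩ := ih (y / 2) (by omega) h2
      refine ⟨⟨B.lev + 1, B.idx⟩, ?_⟩
      have e1 : (⟨B.lev + 1, B.idx⟩ : Blk).lo = 2 * B.lo := by simp only [lo]; ring
      have e2 : (⟨B.lev + 1, B.idx⟩ : Blk).mid = 2 * B.mid := by simp only [mid]; ring
      have e3 : (⟨B.lev + 1, B.idx⟩ : Blk).hi = 2 * B.hi := by simp only [hi]; ring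
      rw [e1, e2, e3]
      omega
    · refine ⟨⟨0, x / 2⟩, ?_⟩
      simp only [lo, mid, hi, pow_zero]
      omega

/-- number of blocks -/
lemma idx_bound {B : Blk} {m : ℕ} (h : B.mid ≤ m) : (B.idx + 1) * 2 ^ B.lev ≤ m := by
  refine le_trans ?_ h
  unfold mid
  exact Nat.mul_le_mul_right _ (by omega)

lemma lev_bound {B : Blk} {m : ℕ} (h : B.mid ≤ m) : B.lev < m := by
  have h1 := idx_bound h
  have h2 : B.lev < 2 ^ B.lev := Nat.lt_two_pow_self
  have h3 : 1 * 2 ^ B.lev ≤ (B.idx + 1) * 2 ^ B.lev := Nat.mul_le_mul_right _ (by omega)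
  omega

end Blk

namespace Dyn

variable {n : ℕ} (D : Dyn n)

/-- turns of type `U` at the block `B` -/
def U (B : Blk) (t : ℕ) : Prop :=
  D.tu t ∧ B.lo ≤ D.X t ∧ D.X t < B.mid ∧ B.mid ≤ D.Y t ∧ D.Y t < B.hi ∧ B.hi ≤ D.Z t
/-- turns of type `V` at the block `B` -/
def V (B : Blk) (t : ℕ) : Prop :=
  D.tu t ∧ D.X t < B.lo ∧ B.lo ≤ D.Y t ∧ D.Y t < B.mid ∧ B.mid ≤ D.Z t ∧ D.Z t < B.hi

variable {D}

lemma U_or_V {t : ℕ} (h : D.tu t) : (∃ B, D.U B t) ∨ (∃ B, D.V B t) := by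
  obtain ⟨a1, a2, -⟩ := turn_spec h
  obtain ⟨B, b1, b2, b3, b4⟩ := Blk.exists_sep a1
  obtain ⟨E, e1, e2, e3, e4⟩ := Blk.exists_sep a2
  have := B.lo_lt; have := B.mid_lt; have := E.lo_lt; have := E.mid_lt
  rcases Blk.nest B E with c | c | c | c | c | c | c
  · subst c; omega
  · omega
  · omega
  · obtain ⟨c1, c2, c3⟩ := c
    left; exact ⟨B, h, b1, b2, b3, b4, by omega⟩
  · obtain ⟨c1, c2, c3⟩ := c; omega
  · obtain ⟨c1, c2, c3⟩ := c; omega
  · obtain ⟨c1, c2, c3⟩ := c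
    right; exact ⟨E, h, by omega, e1, e2, e3, e4⟩

lemma U_unique {B B' : Blk} {t : ℕ} (h : D.U B t) (h' : D.U B' t) : B = B' := by
  obtain ⟨_, a1, a2, a3, a4, a5⟩ := h
  obtain ⟨_, b1, b2, b3, b4, b5⟩ := h'
  have := B.lo_lt; have := B.mid_lt; have := B'.lo_lt; have := B'.mid_lt
  rcases Blk.nest B B' with c | c | c | c | c | c | c
  · exact c
  all_goals first
    | omega
    | (obtain ⟨c1, c2, c3⟩ := c; omega)

lemma V_unique {B B' : Blk} {t : ℕ} (h : D.V B t) (h' : D.V B' t) : B = B' := by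
  obtain ⟨_, a1, a2, a3, a4, a5⟩ := h
  obtain ⟨_, b1, b2, b3, b4, b5⟩ := h'
  have := B.lo_lt; have := B.mid_lt; have := B'.lo_lt; have := B'.mid_lt
  rcases Blk.nest B B' with c | c | c | c | c | c | c
  · exact c
  all_goals first
    | omega
    | (obtain ⟨c1, c2, c3⟩ := c; omega)

lemma U1 {B : Blk} {i j : ℕ} (hi : D.U B i) (hj : D.U B j) (hij : i < j) :
    D.X i < D.L j (D.X j) ∧ D.Z i < D.Z j ∧ D.L i (D.Z j) ≤ D.L i (D.X i) ∧
      ∃ s, i < s ∧ s < j ∧ D.jump s (D.X i) (D.Z j) := by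
  obtain ⟨a0, a1, a2, a3, a4, a5⟩ := hi
  obtain ⟨b0, b1, b2, b3, b4, b5⟩ := hj
  exact two_turns a0 b0 hij (by omega) (by omega) (by omega) (by omega)

lemma V1 {B : Blk} {i j : ℕ} (hi : D.V B i) (hj : D.V B j) (hij : i < j) :
    D.X i < D.L j (D.X j) ∧ D.Z i < D.Z j ∧ D.L i (D.Z j) ≤ D.L i (D.X i) ∧
      ∃ s, i < s ∧ s < j ∧ D.jump s (D.X i) (D.Z j) := by
  obtain ⟨a0, a1, a2, a3, a4, a5⟩ := hi
  obtain ⟨b0, b1, b2, b3, b4, b5⟩ := hj
  exact two_turns a0 b0 hij (by omega) (by omega) (by omega) (by omega)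

lemma U_X_lt {B : Blk} {i j : ℕ} (hi : D.U B i) (hj : D.U B j) (hij : i < j) : D.X i < D.X j := by
  have := (U1 hi hj hij).1
  have := D.le_self' j (D.X j)
  omega

lemma V_X_lt {B : Blk} {i j : ℕ} (hi : D.V B i) (hj : D.V B j) (hij : i < j) : D.X i < D.X j := by
  have := (V1 hi hj hij).1
  have := D.le_self' j (D.X j)
  omega

/-- `X` determines the row of a block of given level (type `U`) -/
lemma U_inj {B B' : Blk} {t t' : ℕ} (h : D.U B t) (h' : D.U B' t') (hl : B.lev = B'.lev)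
    (hX : D.X t = D.X t') : t = t' ∧ B = B' := by
  have hB : B = B' := by
    obtain ⟨_, a1, a2, a3, a4, a5⟩ := h
    obtain ⟨_, b1, b2, b3, b4, b5⟩ := h'
    have := B.lo_lt; have := B.mid_lt; have := B'.lo_lt; have := B'.mid_lt
    rcases Blk.nest_eq hl with c | c | c
    · exact c
    · omega
    · omega
  subst hB
  refine ⟨?_, rfl⟩
  rcases lt_trichotomy t t' with c | c | c
  · have := U_X_lt h h' c; omega
  · exact c
  · have := U_X_lt h' h c; omega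

/-- `Z` determines the row of a block of given level (type `V`) -/
lemma V_inj {B B' : Blk} {t t' : ℕ} (h : D.V B t) (h' : D.V B' t') (hl : B.lev = B'.lev)
    (hZ : D.Z t = D.Z t') : t = t' ∧ B = B' := by
  have hB : B = B' := by
    obtain ⟨_, a1, a2, a3, a4, a5⟩ := h
    obtain ⟨_, b1, b2, b3, b4, b5⟩ := h'
    have := B.lo_lt; have := B.mid_lt; have := B'.lo_lt; have := B'.mid_lt
    rcases Blk.nest_eq hl with c | c | c
    · exact c
    · omega
    · omega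
  subst hB
  refine ⟨?_, rfl⟩
  rcases lt_trichotomy t t' with c | c | c
  · have := (V1 h h' c).2.1; omega
  · exact c
  · have := (V1 h' h c).2.1; omega

/-- (C2) -/
lemma C2 {B B' : Blk} {τ θ : ℕ} (hin : B.inL B') (h : D.U B τ) (h' : D.U B' θ)
    (hX : D.X θ < B.mid) (ht : θ < τ) : D.X θ < D.L τ (D.X τ) := by
  obtain ⟨a0, a1, a2, a3, a4, a5⟩ := h
  obtain ⟨b0, b1, b2, b3, b4, b5⟩ := h'
  obtain ⟨c1, c2, c3⟩ := hin
  have := after1 b0 (u := D.Y τ) (by omega) (by omega) ht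
  rw [(turn_spec a0).2.2.2.1] at this
  exact this

/-- (C) -/
lemma C1 {B B' : Blk} {τ θ : ℕ} (hin : B.inL B') (h : D.U B τ) (h' : D.U B' θ)
    (hX : D.X θ < B.mid) (hZ : B'.hi ≤ D.Z τ) : D.X θ < D.L τ (D.X τ) ∧ θ < τ := by
  have hlt : θ < τ := by
    obtain ⟨a0, a1, a2, a3, a4, a5⟩ := h
    obtain ⟨b0, b1, b2, b3, b4, b5⟩ := h'
    obtain ⟨c1, c2, c3⟩ := hin
    by_contra hc
    rcases Nat.lt_or_ge τ θ with hh | hh
    · have h1 := after2 a0 (u := D.Y θ) (by omega) (by omega) hh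
      rw [(turn_spec b0).2.2.2.1] at h1
      have := D.le_self' θ (D.X θ)
      omega
    · have : θ = τ := by omega
      subst this
      omega
  exact ⟨C2 hin h h' hX hlt, hlt⟩

lemma V_close {F G : Blk} {σ τ : ℕ} (hin : F.inR G) (hG : D.V G σ) (hZ : F.mid ≤ D.Z σ)
    (hF : D.V F τ) (hX : D.X τ < G.lo) : τ < σ := by
  obtain ⟨a0, a1, a2, a3, a4, a5⟩ := hG
  obtain ⟨b0, b1, b2, b3, b4, b5⟩ := hF
  obtain ⟨c1, c2, c3⟩ := hin
  by_contra hc
  rcases Nat.lt_or_ge σ τ with hh | hh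
  · have h1 := after2 a0 (u := D.Y τ) (by omega) (by omega) hh
    rw [(turn_spec b0).2.2.2.1] at h1
    have := D.le_self' τ (D.X τ)
    omega
  · have : σ = τ := by omega
    subst this
    omega

lemma V_order {F G : Blk} {σ τ : ℕ} (hin : F.inR G) (hF : D.V F τ) (hX : D.X τ < G.lo)
    (hG : D.V G σ) (ht : τ < σ) : D.X τ < D.L σ (D.X σ) := by
  obtain ⟨a0, a1, a2, a3, a4, a5⟩ := hG
  obtain ⟨b0, b1, b2, b3, b4, b5⟩ := hF
  obtain ⟨c1, c2, c3⟩ := hin
  have h1 := after1 b0 (u := D.Y σ) (by omega) (by omega) ht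
  rw [(turn_spec a0).2.2.2.1] at h1
  exact h1

end Dyn

end Pool.Agent.TA
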