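import Pool.Agent.Lib_helper56.TA.Blocks

/-!
# Counting lemmas
-/

open scoped Classical

namespace Pool.Agent.TA

/-- greedy thinning -/
lemma greedy (κ : ℕ) (Bad : ℕ → ℕ → Prop) (R : Finset ℕ)
    (h : ∀ a ∈ R, (R.filter (fun b => a < b ∧ Bad a b)).card ≤ κ) :
    ∃ S ⊆ R, (∀ a ∈ S, ∀ b ∈ S, a < b → ¬ Bad a b) ∧ R.card ≤ (κ + 1) * S.card := by
  induction' hc : R.card using Nat.strong_induction_on with m ih generalizing R
  rcases R.eq_empty_or_nonempty with rfl | hne
  · exact ⟨∅, by simp, by simp, by simp [← hc]⟩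
  set a := R.min' hne with ha
  have haR : a ∈ R := R.min'_mem hne
  have hmin : ∀ b ∈ R, a ≤ b := fun b hb => R.min'_le b hb
  set R' := R.filter (fun b => a < b ∧ ¬ Bad a b) with hR'
  have hsub : R' ⊆ R := Finset.filter_subset _ _
  have hcard' : R'.card < m := by
    rw [← hc]
    apply Finset.card_lt_card
    refine ⟨hsub, fun hh => ?_⟩
    have := hh haR
    simp [hR'] at this
  obtain ⟨S, hS1, hS2, hS3⟩ := ih R'.card hcard' R' (by
    intro b hb
    refine le_trans (Finset.card_le_card ?_) (h b (hsub hb))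
    intro c hc
    simp only [Finset.mem_filter] at hc ⊢
    exact ⟨hsub hc.1, hc.2⟩) rfl
  refine ⟨insert a S, ?_, ?_, ?_⟩
  · intro b hb
    rcases Finset.mem_insert.1 hb with rfl | hb
    · exact haR
    · exact hsub (hS1 hb)
  · intro b hb c hcc hbc
    rcases Finset.mem_insert.1 hb with rfl | hb
    · rcases Finset.mem_insert.1 hcc with hcc | hcc
      · omega
      · have := hS1 hcc
        simp only [hR', Finset.mem_filter] at this
        exact this.2.2
    · rcases Finset.mem_insert.1 hcc with rfl | hcc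
      · have := hmin b (hsub (hS1 hb)); omega
      · exact hS2 b hb c hcc hbc
  · have haS : a ∉ S := fun hh => by
      have := hS1 hh
      simp [hR'] at this
    rw [Finset.card_insert_of_notMem haS]
    have h1 : R ⊆ {a} ∪ (R.filter (fun b => a < b ∧ Bad a b) ∪ R') := by
      intro b hb
      have := hmin b hb
      simp only [hR', Finset.mem_union, Finset.mem_filter, Finset.mem_singleton]
      by_cases e : b = a
      · left; exact e
      · have e' : a < b := by omega
        right
        by_cases e2 : Bad a b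
        · left; exact ⟨hb, e', e2⟩
        · right; exact ⟨hb, e', e2⟩
    have h2 := Finset.card_le_card h1
    have h3 := Finset.card_union_le {a} (R.filter (fun b => a < b ∧ Bad a b) ∪ R')
    have h4 := Finset.card_union_le (R.filter (fun b => a < b ∧ Bad a b)) R'
    have h5 := h a haR
    have h6 : (κ + 1) * (S.card + 1) = (κ + 1) * S.card + (κ + 1) := by ring
    rw [Finset.card_singleton] at h3
    omega

/-- charging lemma -/
lemma charge {α β γ : Type} (R : Finset α) (W : α → Finset β) (T : Finset γ) (k : ℕ)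
    (hk : ∀ a ∈ R, k ≤ (W a).card) (P : α → β → γ → Prop)
    (hf : ∀ a ∈ R, ∀ b ∈ W a, ∃ c ∈ T, P a b c)
    (hinj : ∀ a ∈ R, ∀ b ∈ W a, ∀ a' ∈ R, ∀ b' ∈ W a', ∀ c, P a b c → P a' b' c →
      a = a' ∧ b = b') :
    R.card * k ≤ T.card := by
  have h1 : R.card * k ≤ (R.sigma (fun a => W a)).card := by
    rw [Finset.card_sigma, ← smul_eq_mul]
    exact Finset.card_nsmul_le_sum _ _ _ hk
  refine h1.trans ?_
  rcases (R.sigma (fun a => W a)).eq_empty_or_nonempty with he | ⟨p0, hp0⟩
  · rw [he]; simp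
  haveI : Nonempty γ := by
    rw [Finset.mem_sigma] at hp0
    obtain ⟨c, -, -⟩ := hf _ hp0.1 _ hp0.2
    exact ⟨c⟩
  choose! f hf1 hf2 using hf
  apply Finset.card_le_card_of_injOn (fun p => f p.1 p.2)
  · rintro ⟨a, b⟩ hp
    rw [Finset.mem_coe, Finset.mem_sigma] at hp
    exact hf1 a hp.1 b hp.2
  · rintro ⟨a, b⟩ hp ⟨a', b'⟩ hp' he
    rw [Finset.mem_coe, Finset.mem_sigma] at hp hp'
    simp only at he hp hp'
    have h2 := hf2 a hp.1 b hp.2
    have h3 := hf2 a' hp'.1 b' hp'.2
    rw [← he] at h3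
    obtain ⟨e1, e2⟩ := hinj a hp.1 b hp.2 a' hp'.1 b' hp'.2 _ h2 h3
    subst e1; subst e2; rfl

/-- three elements of a finset of naturals -/
lemma exists_three {S : Finset ℕ} (h : 2 < S.card) : ∃ a ∈ S, ∃ b ∈ S, ∃ c ∈ S, a < b ∧ b < c := by
  have hne : S.Nonempty := Finset.card_pos.1 (by omega)
  set a := S.min' hne
  set c := S.max' hne
  have ha : a ∈ S := S.min'_mem hne
  have hc : c ∈ S := S.max'_mem hne
  have : ∃ b ∈ S, b ∉ ({a, c} : Finset ℕ) := by
    by_contra hcon
    push Not at hcon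
    have h1 : S ⊆ {a, c} := fun b hb => hcon b hb
    have h2 := Finset.card_le_card h1
    have h3 := Finset.card_le_two (a := a) (b := c)
    omega
  obtain ⟨b, hb, hb'⟩ := this
  simp only [Finset.mem_insert, Finset.mem_singleton, not_or] at hb'
  have h1 : a ≤ b := S.min'_le b hb
  have h2 : b ≤ c := S.le_max' b hb
  exact ⟨a, ha, b, hb, c, hc, by omega, by omega⟩

lemma card_le_two_mul {γ : Type} (S : Finset ℕ) (f : ℕ → γ) (T : Finset γ)
    (hf : ∀ a ∈ S, f a ∈ T)
    (h3 : ∀ a ∈ S, ∀ b ∈ S, ∀ c ∈ S, a < b → b < c → f a = f b → f b = f c → False) :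
    S.card ≤ 2 * T.card := by
  apply Finset.card_le_mul_card_image_of_maps_to hf
  intro y _
  by_contra hc
  obtain ⟨a, ha, b, hb, c, hcc, h1, h2⟩ := exists_three (S := S.filter (fun a => f a = y)) (by omega)
  rw [Finset.mem_filter] at ha hb hcc
  exact h3 a ha.1 b hb.1 c hcc.1 h1 h2 (ha.2.trans hb.2.symm) (hb.2.trans hcc.2.symm)

namespace Dyn

variable {n : ℕ} (D : Dyn n)

/-- times of turns -/
noncomputable def turns : Finset ℕ := (Finset.range D.M).filter (fun t => (D.op t).isTurn = true)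
/-- times of ascents -/
noncomputable def ascs : Finset ℕ := (Finset.range D.M).filter (fun t => (D.op t).isTurn = false)
/-- pairs (turn, moved node) -/
noncomputable def TV : Finset (ℕ × ℕ) :=
  D.turns.image (fun s => (s, D.Y s)) ∪ D.turns.image (fun s => (s, D.Z s))
/-- pairs (turn, jumped node) -/
noncomputable def JT : Finset (ℕ × ℕ) :=
  D.turns.image (fun s => (s, D.X s)) ∪ D.turns.image (fun s => (s, D.Y s))
/-- pairs (operation, jumped node) -/
noncomputable def JP : Finset (ℕ × ℕ) := D.JT ∪ D.ascs.image (fun s => (s, D.X s))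

variable {D}

lemma turns_card : D.turns.card = D.numTurns := by
  unfold turns numTurns; congr
lemma ascs_card : D.ascs.card = D.numAscs := by
  unfold ascs numAscs; congr

lemma mem_turns {t : ℕ} : t ∈ D.turns ↔ D.tu t := by
  unfold turns tu; simp

lemma mem_ascs {t : ℕ} : t ∈ D.ascs ↔ D.as t (D.X t) := by
  unfold ascs as X
  cases hop : D.op t with
  | turn x y z => simp [hop, Op.isTurn]
  | asc x => simp [hop, Op.isTurn, Op.x]

lemma as_mem_ascs {t x : ℕ} (h : D.as t x) : t ∈ D.ascs := by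
  rw [mem_ascs, tu_X_asc h]; exact h

lemma TV_card : D.TV.card ≤ 2 * D.numTurns := by
  unfold TV
  refine (Finset.card_union_le _ _).trans ?_
  have h1 := Finset.card_image_le (s := D.turns) (f := fun s => (s, D.Y s))
  have h2 := Finset.card_image_le (s := D.turns) (f := fun s => (s, D.Z s))
  rw [← turns_card]; omega

lemma JT_card : D.JT.card ≤ 2 * D.numTurns := by
  unfold JT
  refine (Finset.card_union_le _ _).trans ?_
  have h1 := Finset.card_image_le (s := D.turns) (f := fun s => (s, D.X s))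
  have h2 := Finset.card_image_le (s := D.turns) (f := fun s => (s, D.Y s))
  rw [← turns_card]; omega

lemma JP_card : D.JP.card ≤ D.numAscs + 2 * D.numTurns := by
  unfold JP
  refine (Finset.card_union_le _ _).trans ?_
  have h1 := Finset.card_image_le (s := D.ascs) (f := fun s => (s, D.X s))
  have h2 := D.JT_card
  rw [← ascs_card]; omega

lemma mem_TV {s v : ℕ} (h : D.tu s) (hv : D.Y s = v ∨ D.Z s = v) : (s, v) ∈ D.TV := by
  unfold TV
  rw [Finset.mem_union, Finset.mem_image, Finset.mem_image]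
  rcases hv with rfl | rfl
  · left; exact ⟨s, mem_turns.2 h, rfl⟩
  · right; exact ⟨s, mem_turns.2 h, rfl⟩

lemma mem_JT {s x : ℕ} (h : D.tu s) (hv : D.X s = x ∨ D.Y s = x) : (s, x) ∈ D.JT := by
  unfold JT
  rw [Finset.mem_union, Finset.mem_image, Finset.mem_image]
  rcases hv with rfl | rfl
  · left; exact ⟨s, mem_turns.2 h, rfl⟩
  · right; exact ⟨s, mem_turns.2 h, rfl⟩

lemma mem_JP {s x v : ℕ} (h : D.jump s x v) : (s, x) ∈ D.JP := by
  unfold JP
  rw [Finset.mem_union, Finset.mem_image]
  rcases (jump_spec h).2.2 with h1 | h1 | h1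
  · right; exact ⟨s, as_mem_ascs h1, by rw [tu_X_asc h1]⟩
  · left; exact mem_JT h1.1 (Or.inl h1.2.1)
  · left; exact mem_JT h1.1 (Or.inr h1.2.1)

variable (D) in
/-- `1 +` the time of the last ascent of `x` before time `t`, or `0` -/
noncomputable def lastAsc (x t : ℕ) : ℕ :=
  ((Finset.range t).filter (fun s => D.as s x)).sup (fun s => s + 1)

lemma lastAsc_spec (x t : ℕ) : D.lastAsc x t = 0 ∨ ∃ s < t, D.as s x ∧ D.lastAsc x t = s + 1 := by
  unfold lastAsc
  rcases ((Finset.range t).filter (fun s => D.as s x)).eq_empty_or_nonempty with h | h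
  · left; rw [h]; simp
  · right
    obtain ⟨s, hs, he⟩ := Finset.exists_mem_eq_sup _ h (fun s => s + 1)
    rw [Finset.mem_filter, Finset.mem_range] at hs
    exact ⟨s, hs.1, hs.2, he⟩

lemma le_lastAsc {x t s : ℕ} (h : s < t) (h' : D.as s x) : s + 1 ≤ D.lastAsc x t := by
  unfold lastAsc
  exact Finset.le_sup (f := fun s => s + 1) (Finset.mem_filter.2 ⟨Finset.mem_range.2 h, h'⟩)

/-- one turn per run -/
lemma run_count (S : Finset ℕ) (hS : ∀ t ∈ S, D.tu t)
    (h : ∀ t ∈ S, ∀ t' ∈ S, t < t' → D.X t = D.X t' → ∃ s, t < s ∧ s < t' ∧ D.as s (D.X t)) :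
    S.card ≤ n + D.numAscs := by
  have hT : (((Finset.range n).image (fun x => (x, 0))) ∪ D.ascs.image (fun s => (D.X s, s + 1))).card
      ≤ n + D.numAscs := by
    refine (Finset.card_union_le _ _).trans ?_
    have h1 := Finset.card_image_le (s := Finset.range n) (f := fun x => (x, 0))
    have h2 := Finset.card_image_le (s := D.ascs) (f := fun s => (D.X s, s + 1))
    rw [Finset.card_range] at h1
    rw [← ascs_card]; omega
  refine le_trans ?_ hT
  apply Finset.card_le_card_of_injOn (fun t => (D.X t, D.lastAsc (D.X t) t))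
  · intro t ht
    have ht := hS t ht
    have hsp := turn_spec ht
    rw [Finset.mem_coe, Finset.mem_union, Finset.mem_image, Finset.mem_image]
    rcases lastAsc_spec (D := D) (D.X t) t with h1 | ⟨s, h1, h2, h3⟩
    · left; exact ⟨D.X t, Finset.mem_range.2 (by omega), by simp [h1]⟩
    · right; exact ⟨s, as_mem_ascs h2, by simp [h3, tu_X_asc h2]⟩
  · intro t ht t' ht' he
    simp only [Prod.mk.injEq] at he
    obtain ⟨e1, e2⟩ := he
    rcases lt_trichotomy t t' with c | c | c
    · obtain ⟨s, s1, s2, s3⟩ := h t ht t' ht' c e1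
      have h1 := le_lastAsc (D := D) (x := D.X t') (t := t') s2 (by rw [← e1]; exact s3)
      rcases lastAsc_spec (D := D) (D.X t) t with h2 | ⟨s', h2, h3, h4⟩
      · omega
      · omega
    · exact c
    · obtain ⟨s, s1, s2, s3⟩ := h t' ht' t ht c e1.symm
      have h1 := le_lastAsc (D := D) (x := D.X t) (t := t) s2 (by rw [e1]; exact s3)
      rcases lastAsc_spec (D := D) (D.X t') t' with h2 | ⟨s', h2, h3, h4⟩
      · omega
      · omega

end Dyn

end Pool.Agent.TA
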