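import Mathlib

/-!
# Right 2-turns and right ascents in binary trees

Definitions used in the hand-in for MP_f79844_lc.
-/

namespace Pool.Agent.TA

/-- Binary trees (the shape of a binary search tree; the in-order ranks of the nodes are the keys). -/
inductive Tree : Type
  | nil : Tree
  | node (l r : Tree) : Tree

/-- The number of nodes. -/
def Tree.size : Tree → ℕ
  | .nil => 0
  | .node l r => l.size + 1 + r.size

/-- `RotAt x T T'`: the tree `T'` is obtained from `T` by one right rotation that lifts the node of
in-order rank `x` (ranks start at `0`) over its parent; that node is the left child of its parent. -/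
inductive RotAt : ℕ → Tree → Tree → Prop
  | root (A B C : Tree) :
      RotAt A.size (.node (.node A B) C) (.node A (.node B C))
  | left {x : ℕ} {L L' : Tree} (R : Tree) (h : RotAt x L L') :
      RotAt x (.node L R) (.node L' R)
  | right {x : ℕ} {R R' : Tree} (L : Tree) (h : RotAt x R R') :
      RotAt (L.size + 1 + x) (.node L R) (.node L R')

/-- `TwoTurn T T'`: `T'` is obtained from `T` by a right 2-turn: at some subtree whose root `z` has
left child `y` and whose node `y` has left child `x`, rotate `y` over `z` and then `x` over `y`. -/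
inductive TwoTurn : Tree → Tree → Prop
  | root (A B C D : Tree) :
      TwoTurn (.node (.node (.node A B) C) D) (.node A (.node B (.node C D)))
  | left {L L' : Tree} (R : Tree) (h : TwoTurn L L') :
      TwoTurn (.node L R) (.node L' R)
  | right {R R' : Tree} (L : Tree) (h : TwoTurn R R') :
      TwoTurn (.node L R) (.node L R')

/-- `Ascent T T'`: for some node `x`, the tree `T'` is obtained from `T` by right-rotating `x` over
its parent again and again for as long as `x` is a left child. -/
def Ascent (T T' : Tree) : Prop :=
  ∃ x, x < T.size ∧ Relation.ReflTransGen (RotAt x) T T' ∧ ∀ T'', ¬ RotAt x T' T''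

/-- `Run T N r T'`: some sequence of operations, each a right 2-turn or a right ascent, with exactly
`N` right 2-turns and exactly `r` right ascents, leads from `T` to `T'`. -/
inductive Run (T : Tree) : ℕ → ℕ → Tree → Prop
  | refl : Run T 0 0 T
  | turn {N r : ℕ} {T₁ T₂ : Tree} (h : Run T N r T₁) (h' : TwoTurn T₁ T₂) : Run T (N + 1) r T₂
  | ascent {N r : ℕ} {T₁ T₂ : Tree} (h : Run T N r T₁) (h' : Ascent T₁ T₂) : Run T N (r + 1) T₂

/-- Operations on left ends. -/
inductive Op : Type
  | turn (x y z : ℕ) : Op
  | asc (x : ℕ) : Op

/-- One step of the left-end dynamics on the nodes `0, …, n-1`. -/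
def Op.Step (n : ℕ) (l l' : ℕ → ℕ) : Op → Prop
  | .turn x y z => x < y ∧ y < z ∧ z < n ∧ l y = l x ∧ l z = l x ∧
      (∀ u, x < u → u < y → l u ≠ l x) ∧ (∀ u, y < u → u < z → l u ≠ l x) ∧
      l' y = x + 1 ∧ l' z = y + 1 ∧ (∀ u, u ≠ y → u ≠ z → l' u = l u)
  | .asc x => x < n ∧ (∀ v, x < v → l v = l x → l' v = x + 1) ∧
      (∀ v, (v ≤ x ∨ l v ≠ l x) → l' v = l v)

/-- The left-end dynamics: `l t v` is the left end of the interval of the left subtree of the node
`v` at time `t` (so `l t v = v` if the left subtree is empty, and `l t v = v` for `v ≥ n`). -/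
structure Dyn (n : ℕ) : Type where
  /-- number of operations -/
  M : ℕ
  /-- left ends -/
  l : ℕ → ℕ → ℕ
  /-- the operation performed between time `t` and time `t+1` -/
  op : ℕ → Op
  le_self : ∀ t v, l t v ≤ v
  lam : ∀ t u v, u < v → l t v ≤ u → l t v ≤ l t u
  step : ∀ t, t < M → (op t).Step n (l t) (l (t + 1))

/-- is the operation a turn? -/
def Op.isTurn : Op → Bool
  | .turn _ _ _ => true
  | .asc _ => false

/-- number of turns of a dynamics -/
def Dyn.numTurns {n : ℕ} (D : Dyn n) : ℕ := ((Finset.range D.M).filter (fun t => (D.op t).isTurn = true)).card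

/-- number of ascents of a dynamics -/
def Dyn.numAscs {n : ℕ} (D : Dyn n) : ℕ := ((Finset.range D.M).filter (fun t => (D.op t).isTurn = false)).card

end Pool.Agent.TA
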