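import Pool.Agent.Lib_helper56.TA.Numeric

/-!
# The main bound for the left-end dynamics
-/

open scoped Classical

namespace Pool.Agent.TA

namespace Dyn

variable {n : ℕ} {D : Dyn n}

theorem V_total (l0 : ℕ) (c g : ℕ → ℕ) :
    (D.turns.filter (fun t => ∃ B, D.V B t)).card ≤ l0 * n +
      ∑ l ∈ Finset.Ico l0 n, (D.turns.filter
        (fun t => ∃ B : Blk, B.lev = l ∧ D.V B t ∧ ¬ ∃ α, D.GoodV c g B t α)).card +
      (D.turns.filter (fun t => ∃ B : Blk, l0 ≤ B.lev ∧ ∃ α, D.GoodV c g B t α)).card := by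
  set SL := D.turns.filter (fun t => ∃ B, B.lev < l0 ∧ D.V B t) with hSL
  have hSLc : SL.card ≤ l0 * n := by
    have hex : ∀ t ∈ SL, ∃ B : Blk, B.lev < l0 ∧ D.V B t := by
      intro t ht
      rw [hSL, Finset.mem_filter] at ht
      exact ht.2
    have : Nonempty Blk := ⟨⟨0, 0⟩⟩
    choose! bl hbl1 hbl2 using hex
    have h1 : SL.card ≤ ((Finset.range l0) ×ˢ (Finset.range n)).card := by
      apply Finset.card_le_card_of_injOn (fun t => ((bl t).lev, D.Z t))
      · intro t ht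
        rw [Finset.mem_coe] at ht
        have h2 := turn_spec (hbl2 t ht).1
        rw [Finset.mem_coe, Finset.mem_product]
        exact ⟨Finset.mem_range.2 (hbl1 t ht), Finset.mem_range.2 (show D.Z t < n by omega)⟩
      · intro t ht t' ht' he
        rw [Finset.mem_coe] at ht ht'
        simp only [Prod.mk.injEq] at he
        exact (V_inj (hbl2 t ht) (hbl2 t' ht') he.1 he.2).1
    rwa [Finset.card_product, Finset.card_range, Finset.card_range] at h1
  have hsub : D.turns.filter (fun t => ∃ B, D.V B t) ⊆ (SL ∪ (Finset.Ico l0 n).biUnion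
      (fun l => D.turns.filter
        (fun t => ∃ B : Blk, B.lev = l ∧ D.V B t ∧ ¬ ∃ α, D.GoodV c g B t α))) ∪
      D.turns.filter (fun t => ∃ B : Blk, l0 ≤ B.lev ∧ ∃ α, D.GoodV c g B t α) := by
    intro t ht
    obtain ⟨ht1, B, hB⟩ := Finset.mem_filter.1 ht
    rw [Finset.mem_union, Finset.mem_union]
    by_cases c1 : B.lev < l0
    · left; left; exact Finset.mem_filter.2 ⟨ht1, B, c1, hB⟩
    by_cases c2 : ∃ α, D.GoodV c g B t α
    · right; exact Finset.mem_filter.2 ⟨ht1, B, by omega, c2⟩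
    · left; right
      rw [Finset.mem_biUnion]
      exact ⟨B.lev, Finset.mem_Ico.2 ⟨by omega, (V_idx hB).2⟩,
        Finset.mem_filter.2 ⟨ht1, B, rfl, hB, c2⟩⟩
  refine (Finset.card_le_card hsub).trans ((Finset.card_union_le _ _).trans
    (Nat.add_le_add_right ((Finset.card_union_le _ _).trans (Nat.add_le_add hSLc ?_)) _))
  exact Finset.card_biUnion_le

lemma turns_split : D.numTurns ≤ (D.turns.filter (fun t => ∃ B, D.U B t)).card +
    (D.turns.filter (fun t => ∃ B, D.V B t)).card := by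
  rw [← turns_card]
  refine (Finset.card_le_card ?_).trans (Finset.card_union_le _ _)
  intro t ht
  rw [Finset.mem_union, Finset.mem_filter, Finset.mem_filter]
  rcases U_or_V (mem_turns.1 ht) with h | h
  · left; exact ⟨ht, h⟩
  · right; exact ⟨ht, h⟩

lemma turns_le_Q : (D.numTurns : ℝ) ≤ D.Q := by
  unfold Q
  have : (0 : ℝ) ≤ n := by positivity
  have : (0 : ℝ) ≤ D.numAscs := by positivity
  linarith

lemma ascs_le_Q : (D.numAscs : ℝ) ≤ D.Q := by
  unfold Q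
  have : (0 : ℝ) ≤ n := by positivity
  have : (0 : ℝ) ≤ D.numTurns := by positivity
  linarith

lemma n_le_Q : (n : ℝ) ≤ D.Q := by
  unfold Q
  have : (0 : ℝ) ≤ D.numAscs := by positivity
  have : (0 : ℝ) ≤ D.numTurns := by positivity
  linarith

theorem U_final : ((D.turns.filter (fun t => ∃ B, D.U B t)).card : ℝ) ≤
    96 * n + (n + D.numAscs) + 166 * D.Q * (12 * (1 / 2) ^ 16) := by
  obtain ⟨r, h1, h2⟩ := U_base (D := D) 96 PP
  have h3 : ((D.turns.filter (fun t => ∃ B, D.U B t)).card : ℝ) ≤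
      96 * n + (n + D.numAscs) + ∑ l ∈ Finset.Ico 96 n, ((r l : ℝ) + ((D.aU l (PP l)).card : ℝ)) := by
    have h4 : ((D.turns.filter (fun t => ∃ B, D.U B t)).card : ℝ) ≤
      ((96 * n + (n + D.numAscs) + ∑ l ∈ Finset.Ico 96 n, (r l + (D.aU l (PP l)).card) : ℕ) : ℝ) :=
      Nat.cast_le.2 h2
    rw [Nat.cast_add, Nat.cast_sum] at h4
    have h5 : ∑ l ∈ Finset.Ico 96 n, ((r l + (D.aU l (PP l)).card : ℕ) : ℝ) =
        ∑ l ∈ Finset.Ico 96 n, ((r l : ℝ) + ((D.aU l (PP l)).card : ℝ)) := by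
      apply Finset.sum_congr rfl
      intro l _
      exact Nat.cast_add _ _
    rw [h5] at h4
    have h6 : ((96 * n + (n + D.numAscs) : ℕ) : ℝ) = 96 * n + (n + D.numAscs) := by norm_cast
    rw [h6] at h4
    exact h4
  have h4 : ∑ l ∈ Finset.Ico 96 n, ((r l : ℝ) + ((D.aU l (PP l)).card : ℝ)) ≤
      ∑ l ∈ Finset.Ico (6 * 16) n, 166 * D.Q * (1 / 2 : ℝ) ^ (l / 6) := by
    apply Finset.sum_le_sum
    intro l hl
    rw [Finset.mem_Ico] at hl
    have e1 := aU_bound (D := D) l (by omega)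
    have e2 : (r l : ℝ) * PP l ≤ 2 * D.Q := by
      have : (r l : ℝ) * PP l ≤ 2 * D.numTurns := by exact_mod_cast h1 l
      have := turns_le_Q (D := D)
      linarith
    have e3 := of_mul_PP e2
    linarith
  rw [← Finset.mul_sum] at h4
  have h5 := geo_sum 16 n
  have h6 : 166 * D.Q * ∑ l ∈ Finset.Ico (6 * 16) n, (1 / 2 : ℝ) ^ (l / 6) ≤
      166 * D.Q * (12 * (1 / 2) ^ 16) :=
    mul_le_mul_of_nonneg_left h5 (by have := Q_nonneg (D := D); positivity)
  linarith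

lemma NG_bound (l : ℕ) : ((D.turns.filter
    (fun t => ∃ B : Blk, B.lev = l ∧ D.V B t ∧ ¬ ∃ α, D.GoodV cc gg B t α)).card : ℝ) ≤
    10 * D.Q * (1 / 2 : ℝ) ^ (l / 6) := by
  have hP := PP_pos l
  have hP' : (1 : ℝ) ≤ PP l := by exact_mod_cast hP
  have hP4 : 1 ≤ PP l ^ 4 := Nat.one_le_pow _ _ hP
  have e1 : PP l ≤ PP l ^ 5 := Nat.le_self_pow (by norm_num) _
  have e2 : PP l ^ 4 ≤ PP l ^ 5 := Nat.pow_le_pow_right hP (by norm_num)
  obtain ⟨r1, r2, h1, h2, h3⟩ := V_notgood (D := D) l cc gg (PP l) (PP l) (7 * PP l ^ 5) hP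
    (by unfold gg; omega)
    (by
      unfold cc gg
      have : PP l * (4 * PP l ^ 4) = 4 * PP l ^ 5 := by ring
      omega)
  have h4 : ((D.turns.filter (fun t => ∃ B : Blk, B.lev = l ∧ D.V B t ∧
      ¬ ∃ α, D.GoodV cc gg B t α)).card : ℝ) ≤
      (((n / 2 ^ l) * (7 * PP l ^ 5) + r1 + r2 : ℕ) : ℝ) := Nat.cast_le.2 h3
  have h5 : (((n / 2 ^ l) * (7 * PP l ^ 5) + r1 + r2 : ℕ) : ℝ) * PP l ≤ 10 * D.Q := by
    have k1 : ((n / 2 ^ l : ℕ) : ℝ) * (PP l : ℝ) ^ 6 ≤ D.Q := (div_bound n l).trans n_le_Q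
    have k2 : (r1 : ℝ) * PP l ≤ 2 * D.numTurns := by exact_mod_cast h1
    have k3 : (r2 : ℝ) * PP l ≤ D.numAscs := by exact_mod_cast h2
    have k4 := turns_le_Q (D := D)
    have k5 := ascs_le_Q (D := D)
    have e : (((n / 2 ^ l) * (7 * PP l ^ 5) + r1 + r2 : ℕ) : ℝ) * PP l =
      7 * (((n / 2 ^ l : ℕ) : ℝ) * (PP l : ℝ) ^ 6) + r1 * PP l + r2 * PP l := by
      rw [Nat.cast_add, Nat.cast_add, Nat.cast_mul]
      push_cast
      ring
    rw [e]
    linarith
  exact h4.trans (of_mul_PP h5)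

lemma near_bound (l : ℕ) : ((((PP l + 2) ^ 2 + 1) * ((n / 2 ^ l) * (6 * l)) : ℕ) : ℝ) ≤
    360 * D.Q * (1 / 2 : ℝ) ^ (l / 6) := by
  apply of_mul_PP
  have hP := PP_pos l
  have h1 := lin_PP l
  have h2 : (PP l + 2) ^ 2 + 1 ≤ 10 * PP l ^ 2 := by nlinarith
  have h3 : ((PP l + 2) ^ 2 + 1) * ((n / 2 ^ l) * (6 * l)) * PP l ≤ 360 * n := by
    calc ((PP l + 2) ^ 2 + 1) * ((n / 2 ^ l) * (6 * l)) * PP l
        ≤ (10 * PP l ^ 2) * ((n / 2 ^ l) * (36 * PP l)) * PP l := by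
          apply Nat.mul_le_mul_right
          exact Nat.mul_le_mul h2 (Nat.mul_le_mul_left _ (by omega))
      _ = 360 * ((n / 2 ^ l) * PP l ^ 4) := by ring
      _ ≤ 360 * ((n / 2 ^ l) * PP l ^ 6) := by
          apply Nat.mul_le_mul_left
          apply Nat.mul_le_mul_left
          exact Nat.pow_le_pow_right hP (by norm_num)
      _ ≤ 360 * n := by
          apply Nat.mul_le_mul_left
          exact (Nat.mul_le_mul_left _ (PP_six l)).trans (Nat.div_mul_le_self n (2 ^ l))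
  have h4 : ((((PP l + 2) ^ 2 + 1) * ((n / 2 ^ l) * (6 * l)) : ℕ) : ℝ) * PP l ≤ 360 * n := by
    rw [← Nat.cast_mul]
    have : ((360 * n : ℕ) : ℝ) = 360 * n := by norm_cast
    rw [← this]
    exact Nat.cast_le.2 h3
  have := n_le_Q (D := D)
  linarith

theorem V_final : ((D.turns.filter (fun t => ∃ B, D.V B t)).card : ℝ) ≤
    96 * n + (n + D.numAscs) + 2 * D.numAscs + 1892 * D.Q * (12 * (1 / 2) ^ 16) := by
  have h0 := V_total (D := D) 96 cc gg
  obtain ⟨r, h1, h2⟩ := V_good (D := D) 96 PP cc gg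
    (fun l _ => by
      unfold gg
      have : 1 ≤ PP l ^ 4 := Nat.one_le_pow _ _ (PP_pos l)
      omega)
    (fun l l' hl hl' => by
      have := cc_gg (show 1 ≤ l by omega) hl'
      omega)
  have hQ := Q_nonneg (D := D)
  have h3 : ((D.turns.filter (fun t => ∃ B, D.V B t)).card : ℝ) ≤
      ((96 * n + ∑ l ∈ Finset.Ico 96 n, (D.turns.filter
        (fun t => ∃ B : Blk, B.lev = l ∧ D.V B t ∧ ¬ ∃ α, D.GoodV cc gg B t α)).card +
        ((n + D.numAscs) + 2 * D.numAscs +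
      ∑ l ∈ Finset.Ico 96 n, (r l + ((PP l + 2) ^ 2 + 1) * ((n / 2 ^ l) * (6 * l)) +
        (D.aV cc gg l (PP l) 0).card)) : ℕ) : ℝ) :=
    Nat.cast_le.2 (h0.trans (Nat.add_le_add_left h2 _))
  rw [Nat.cast_add, Nat.cast_add, Nat.cast_add, Nat.cast_sum, Nat.cast_sum] at h3
  have h4 : ∑ l ∈ Finset.Ico 96 n, ((D.turns.filter
        (fun t => ∃ B : Blk, B.lev = l ∧ D.V B t ∧ ¬ ∃ α, D.GoodV cc gg B t α)).card : ℝ) ≤
      10 * D.Q * (12 * (1 / 2) ^ 16) := by
    calc _ ≤ ∑ l ∈ Finset.Ico (6 * 16) n, 10 * D.Q * (1 / 2 : ℝ) ^ (l / 6) := by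
          apply Finset.sum_le_sum
          intro l _
          exact NG_bound l
      _ = 10 * D.Q * ∑ l ∈ Finset.Ico (6 * 16) n, (1 / 2 : ℝ) ^ (l / 6) := by rw [Finset.mul_sum]
      _ ≤ _ := mul_le_mul_of_nonneg_left (geo_sum 16 n) (by positivity)
  have h5 : ∑ l ∈ Finset.Ico 96 n, ((r l + ((PP l + 2) ^ 2 + 1) * ((n / 2 ^ l) * (6 * l)) +
        (D.aV cc gg l (PP l) 0).card : ℕ) : ℝ) ≤ 1882 * D.Q * (12 * (1 / 2) ^ 16) := by
    calc _ ≤ ∑ l ∈ Finset.Ico (6 * 16) n, 1882 * D.Q * (1 / 2 : ℝ) ^ (l / 6) := by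
          apply Finset.sum_le_sum
          intro l hl
          rw [Finset.mem_Ico] at hl
          rw [Nat.cast_add, Nat.cast_add]
          have e1 := aV_bound (D := D) l (by omega)
          have e2 : ((D.aV cc gg l (PP l) 0).card : ℝ) ≤ ((D.aV cc gg l (PP l) (PP l)).card : ℝ) :=
            Nat.cast_le.2 (aV_mono cc gg l le_rfl (Nat.zero_le _))
          have e3 : (r l : ℝ) * PP l ≤ 2 * D.Q := by
            have : (r l : ℝ) * PP l ≤ 2 * D.numTurns := by exact_mod_cast h1 l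
            have := turns_le_Q (D := D)
            linarith
          have e4 := of_mul_PP e3
          have e5 := near_bound (D := D) l
          linarith
      _ = 1882 * D.Q * ∑ l ∈ Finset.Ico (6 * 16) n, (1 / 2 : ℝ) ^ (l / 6) := by rw [Finset.mul_sum]
      _ ≤ _ := mul_le_mul_of_nonneg_left (geo_sum 16 n) (by positivity)
  have h6 : ((96 * n : ℕ) : ℝ) = 96 * n := by norm_cast
  have h7 : (((n + D.numAscs) + 2 * D.numAscs : ℕ) : ℝ) = (n + D.numAscs) + 2 * D.numAscs := by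
    norm_cast
  rw [h6, h7] at h3
  linarith

/-- The main bound. -/
theorem main (D : Dyn n) : D.numTurns ≤ 400 * (n + D.numAscs) := by
  have h1 := U_final (D := D)
  have h2 := V_final (D := D)
  have h3 : (D.numTurns : ℝ) ≤ ((D.turns.filter (fun t => ∃ B, D.U B t)).card : ℝ) +
    ((D.turns.filter (fun t => ∃ B, D.V B t)).card : ℝ) := by
    rw [← Nat.cast_add]
    exact Nat.cast_le.2 turns_split
  have h4 : D.Q = (n : ℝ) + D.numAscs + D.numTurns := rfl
  rw [h4] at h1 h2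
  have h5 : (0 : ℝ) ≤ n := by positivity
  have h6 : (0 : ℝ) ≤ D.numAscs := by positivity
  have h7 : (D.numTurns : ℝ) ≤ 400 * (n + D.numAscs) := by
    norm_num at h1 h2
    linarith
  exact_mod_cast h7

end Dyn

end Pool.Agent.TA
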