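import Pool.Agent.Lib_helper56.TA.VGood

/-!
# Numerical part
-/

open scoped Classical

namespace Pool.Agent.TA

lemma geo_sum_aux (k j : ℕ) : ∑ l ∈ Finset.Ico (6 * k) (6 * (k + j)), (1 / 2 : ℝ) ^ (l / 6) =
    12 * ((1 / 2 : ℝ) ^ k - (1 / 2 : ℝ) ^ (k + j)) := by
  induction j with
  | zero => simp
  | succ j ih =>
    have e : 6 * (k + (j + 1)) = 6 * (k + j) + 1 + 1 + 1 + 1 + 1 + 1 := by ring
    rw [e]
    rw [Finset.sum_Ico_succ_top (by omega), Finset.sum_Ico_succ_top (by omega),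
      Finset.sum_Ico_succ_top (by omega), Finset.sum_Ico_succ_top (by omega),
      Finset.sum_Ico_succ_top (by omega), Finset.sum_Ico_succ_top (by omega), ih]
    have h0 : 6 * (k + j) / 6 = k + j := by omega
    have h1 : (6 * (k + j) + 1) / 6 = k + j := by omega
    have h2 : (6 * (k + j) + 1 + 1) / 6 = k + j := by omega
    have h3 : (6 * (k + j) + 1 + 1 + 1) / 6 = k + j := by omega
    have h4 : (6 * (k + j) + 1 + 1 + 1 + 1) / 6 = k + j := by omega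
    have h5 : (6 * (k + j) + 1 + 1 + 1 + 1 + 1) / 6 = k + j := by omega
    rw [h0, h1, h2, h3, h4, h5]
    have e2 : (1 / 2 : ℝ) ^ (k + (j + 1)) = (1 / 2 : ℝ) ^ (k + j) * (1 / 2) := by
      rw [← add_assoc, pow_succ]
    rw [e2]
    ring

lemma geo_sum (k N : ℕ) : ∑ l ∈ Finset.Ico (6 * k) N, (1 / 2 : ℝ) ^ (l / 6) ≤
    12 * (1 / 2 : ℝ) ^ k := by
  calc ∑ l ∈ Finset.Ico (6 * k) N, (1 / 2 : ℝ) ^ (l / 6)
      ≤ ∑ l ∈ Finset.Ico (6 * k) (6 * (k + N)), (1 / 2 : ℝ) ^ (l / 6) := by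
        apply Finset.sum_le_sum_of_subset_of_nonneg
        · apply Finset.Ico_subset_Ico le_rfl; omega
        · intro i _ _; positivity
    _ = 12 * ((1 / 2 : ℝ) ^ k - (1 / 2 : ℝ) ^ (k + N)) := geo_sum_aux k N
    _ ≤ _ := by
        have : (0 : ℝ) ≤ (1 / 2 : ℝ) ^ (k + N) := by positivity
        linarith

lemma recur (n : ℕ) (A : ℕ → ℝ) (C Q : ℝ) (hQ : 0 ≤ Q) (hC : 0 ≤ C)
    (hstep : ∀ l, 30 ≤ l → A l ≤ C / 2 * Q * (1 / 2) ^ (l / 6) +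
      20 * ((2 : ℝ) ^ (l / 6)) ^ 3 * ∑ l' ∈ Finset.Ico (6 * l) n, A l') :
    ∀ l, 30 ≤ l → A l ≤ C * Q * (1 / 2) ^ (l / 6) := by
  intro l
  induction' hd : n - l using Nat.strong_induction_on with d ih generalizing l
  intro hl
  have h1 := hstep l hl
  have h2 : ∑ l' ∈ Finset.Ico (6 * l) n, A l' ≤ C * Q * (12 * (1 / 2 : ℝ) ^ l) := by
    calc ∑ l' ∈ Finset.Ico (6 * l) n, A l'
        ≤ ∑ l' ∈ Finset.Ico (6 * l) n, C * Q * (1 / 2 : ℝ) ^ (l' / 6) := by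
          apply Finset.sum_le_sum
          intro l' hl'
          rw [Finset.mem_Ico] at hl'
          exact ih (n - l') (by omega) l' rfl (by omega)
      _ = C * Q * ∑ l' ∈ Finset.Ico (6 * l) n, (1 / 2 : ℝ) ^ (l' / 6) := by
          rw [Finset.mul_sum]
      _ ≤ _ := mul_le_mul_of_nonneg_left (geo_sum l n) (by positivity)
  set q := l / 6 with hq
  have hq5 : 5 ≤ q := by omega
  set x : ℝ := (1 / 2 : ℝ) ^ q with hx
  have hx0 : 0 < x := by positivity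
  have hpx : (2 : ℝ) ^ q * x = 1 := by
    rw [hx, ← mul_pow]; norm_num
  have hx6 : (1 / 2 : ℝ) ^ l ≤ x ^ 6 := by
    rw [hx, ← pow_mul]
    apply pow_le_pow_of_le_one (by norm_num) (by norm_num)
    omega
  have hx5 : x ≤ 1 / 32 := by
    calc x ≤ (1 / 2 : ℝ) ^ 5 := pow_le_pow_of_le_one (by norm_num) (by norm_num) hq5
      _ = 1 / 32 := by norm_num
  have h3 : 20 * ((2 : ℝ) ^ q) ^ 3 * ∑ l' ∈ Finset.Ico (6 * l) n, A l' ≤
      20 * ((2 : ℝ) ^ q) ^ 3 * (C * Q * (12 * x ^ 6)) := by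
    apply mul_le_mul_of_nonneg_left _ (by positivity)
    refine h2.trans ?_
    apply mul_le_mul_of_nonneg_left _ (by positivity)
    linarith
  have h4 : 20 * ((2 : ℝ) ^ q) ^ 3 * (C * Q * (12 * x ^ 6)) = 240 * (C * Q) * x ^ 3 := by
    have : ((2 : ℝ) ^ q) ^ 3 * x ^ 6 = x ^ 3 := by
      have e : ((2 : ℝ) ^ q) ^ 3 * x ^ 6 = ((2 : ℝ) ^ q * x) ^ 3 * x ^ 3 := by ring
      rw [e, hpx]; ring
    calc 20 * ((2 : ℝ) ^ q) ^ 3 * (C * Q * (12 * x ^ 6))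
        = 240 * (C * Q) * (((2 : ℝ) ^ q) ^ 3 * x ^ 6) := by ring
      _ = _ := by rw [this]
  have h5 : 240 * (C * Q) * x ^ 3 ≤ C / 2 * Q * x := by
    have hx2 : x ^ 2 ≤ (1 / 32) ^ 2 := pow_le_pow_left₀ hx0.le hx5 2
    have e : 240 * (C * Q) * x ^ 3 = (C * Q) * x * (240 * x ^ 2) := by ring
    rw [e]
    have : (C * Q) * x * (240 * x ^ 2) ≤ (C * Q) * x * (1 / 2) := by
      apply mul_le_mul_of_nonneg_left _ (by positivity)
      norm_num at hx2 ⊢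
      linarith
    linarith
  linarith

lemma numU (p u L n r N r1 r2 S A : ℝ) (hp : 1 ≤ p) (hu : 0 ≤ u) (hup : u * p ^ 6 ≤ n)
    (hL : L ≤ 36 * p) (h1 : 0 ≤ r1) (h2 : 0 ≤ r2) (hr1 : r1 * p ^ 2 ≤ r + 2 * N)
    (hr2 : r2 * p ^ 6 ≤ 2 * N) (hn : 0 ≤ n) (hr : 0 ≤ r) (hN : 0 ≤ N) (hS : 0 ≤ S)
    (hA : A ≤ (p + 1) * (u * (L + p ^ 2) + r1 + r2 + S)) :
    A * p ≤ 82 * (n + r + N) + 2 * p ^ 2 * S := by
  have hpp : p ≤ p ^ 2 := by nlinarith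
  have hL' : L + p ^ 2 ≤ 37 * p ^ 2 := by linarith
  have hLu : u * (L + p ^ 2) ≤ u * (37 * p ^ 2) := mul_le_mul_of_nonneg_left hL' hu
  have hsum : 0 ≤ u * (37 * p ^ 2) + r1 + r2 + S := by positivity
  have hA1 : A ≤ (p + 1) * (u * (37 * p ^ 2) + r1 + r2 + S) :=
    hA.trans (mul_le_mul_of_nonneg_left (by linarith) (by linarith))
  have hA2 : A * p ≤ (p + 1) * (u * (37 * p ^ 2) + r1 + r2 + S) * p :=
    mul_le_mul_of_nonneg_right hA1 (by linarith)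
  have hA3 : (p + 1) * (u * (37 * p ^ 2) + r1 + r2 + S) * p ≤
      2 * p ^ 2 * (u * (37 * p ^ 2) + r1 + r2 + S) := by
    have : (p + 1) * p ≤ 2 * p ^ 2 := by nlinarith
    calc (p + 1) * (u * (37 * p ^ 2) + r1 + r2 + S) * p
        = ((p + 1) * p) * (u * (37 * p ^ 2) + r1 + r2 + S) := by ring
      _ ≤ _ := mul_le_mul_of_nonneg_right this hsum
  have k1 : u * p ^ 4 ≤ n := by
    refine le_trans (mul_le_mul_of_nonneg_left ?_ hu) hup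
    exact pow_le_pow_right₀ hp (by norm_num)
  have k2 : r2 * p ^ 2 ≤ 2 * N := by
    refine le_trans (mul_le_mul_of_nonneg_left ?_ h2) hr2
    exact pow_le_pow_right₀ hp (by norm_num)
  nlinarith

lemma numV (p u L n r N r1 S A : ℝ) (hp : 1 ≤ p) (hu : 0 ≤ u) (hup : u * p ^ 6 ≤ n)
    (hL : L ≤ 36 * p) (h1 : 0 ≤ r1) (hr1 : r1 * p ^ 4 ≤ 2 * N)
    (hn : 0 ≤ n) (hr : 0 ≤ r) (hN : 0 ≤ N) (hS : 0 ≤ S)
    (hA : A ≤ ((p + 1) * ((p + 2) ^ 2 + 1)) * (u * L + r1 + S)) :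
    A * p ≤ 760 * (n + r + N) + 20 * p ^ 4 * S := by
  have hpp : 1 ≤ p ^ 2 := one_le_pow₀ hp
  have hLu : u * L ≤ u * (36 * p) := mul_le_mul_of_nonneg_left hL hu
  have hsum : 0 ≤ u * (36 * p) + r1 + S := by positivity
  have hfac : (p + 1) * ((p + 2) ^ 2 + 1) ≤ 20 * p ^ 3 := by
    have e1 : p + 1 ≤ 2 * p := by linarith
    have e2 : (p + 2) ^ 2 + 1 ≤ 10 * p ^ 2 := by nlinarith
    calc (p + 1) * ((p + 2) ^ 2 + 1) ≤ (2 * p) * (10 * p ^ 2) :=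
          mul_le_mul e1 e2 (by positivity) (by positivity)
      _ = _ := by ring
  have hA1 : A ≤ (20 * p ^ 3) * (u * (36 * p) + r1 + S) := by
    refine hA.trans ?_
    calc ((p + 1) * ((p + 2) ^ 2 + 1)) * (u * L + r1 + S)
        ≤ ((p + 1) * ((p + 2) ^ 2 + 1)) * (u * (36 * p) + r1 + S) :=
          mul_le_mul_of_nonneg_left (by linarith) (by positivity)
      _ ≤ _ := mul_le_mul_of_nonneg_right hfac hsum
  have hA2 : A * p ≤ (20 * p ^ 3) * (u * (36 * p) + r1 + S) * p :=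
    mul_le_mul_of_nonneg_right hA1 (by linarith)
  have k1 : u * p ^ 5 ≤ n := by
    refine le_trans (mul_le_mul_of_nonneg_left ?_ hu) hup
    exact pow_le_pow_right₀ hp (by norm_num)
  have e : (20 * p ^ 3) * (u * (36 * p) + r1 + S) * p =
      720 * (u * p ^ 5) + 20 * (r1 * p ^ 4) + 20 * p ^ 4 * S := by ring
  rw [e] at hA2
  linarith

namespace Dyn

variable {n : ℕ} {D : Dyn n}

lemma aU_mono (l : ℕ) {κ κ' : ℕ} (h : κ ≤ κ') : (D.aU l κ).card ≤ (D.aU l κ').card := by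
  apply Finset.card_le_card
  intro t ht
  rw [aU, Finset.mem_filter] at ht ⊢
  obtain ⟨h1, B, h2, B', θ, a1, a2, a3, a4, a5, a6⟩ := ht
  exact ⟨h1, B, h2, B', θ, a1, a2, a3, a4, a5, a6.trans h⟩

lemma aV_mono (c g : ℕ → ℕ) (l : ℕ) {κ κ' K K' : ℕ} (h : κ ≤ κ') (h' : K ≤ K') :
    (D.aV c g l κ K).card ≤ (D.aV c g l κ' K').card := by
  apply Finset.card_le_card
  intro t ht
  rw [aV, Finset.mem_filter] at ht ⊢
  obtain ⟨h1, C, h2, H, σ, π, α, η, p, ⟨a1, a2, a3, a4, a5, a6⟩, b⟩ := ht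
  exact ⟨h1, C, h2, H, σ, π, α, η, p, ⟨a1, a2, a3.trans h, a4, a5.trans h',
    fun H' k1 k2 => (a6 H' k1 k2).trans h'⟩, b⟩

/-- the scale -/
def PP (l : ℕ) : ℕ := 2 ^ (l / 6)
/-- -/
def cc (l : ℕ) : ℕ := 2 * PP l ^ 4
/-- -/
def gg (l : ℕ) : ℕ := 4 * PP l ^ 4

lemma PP_pos (l : ℕ) : 1 ≤ PP l := Nat.one_le_two_pow

lemma PP_six (l : ℕ) : PP l ^ 6 ≤ 2 ^ l := by
  unfold PP
  rw [← pow_mul]
  exact Nat.pow_le_pow_right (by norm_num) (by omega)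

lemma lin_PP (l : ℕ) : 6 * l + 2 ≤ 36 * PP l := by
  have h : l / 6 < 2 ^ (l / 6) := Nat.lt_two_pow_self
  unfold PP
  omega

lemma two_pow_le_PP {l l' : ℕ} (h : 6 * l ≤ l') : 2 ^ l ≤ PP l' := by
  unfold PP
  exact Nat.pow_le_pow_right (by norm_num) (by omega)

lemma div_bound (n l : ℕ) : ((n / 2 ^ l : ℕ) : ℝ) * (PP l : ℝ) ^ 6 ≤ n := by
  have h1 : (n / 2 ^ l) * PP l ^ 6 ≤ n :=
    (Nat.mul_le_mul_left _ (PP_six l)).trans (Nat.div_mul_le_self n (2 ^ l))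
  exact_mod_cast h1

lemma PP_real (l : ℕ) : (PP l : ℝ) = (2 : ℝ) ^ (l / 6) := by
  unfold PP; push_cast; rfl

lemma PP_half (l : ℕ) : (PP l : ℝ) * (1 / 2 : ℝ) ^ (l / 6) = 1 := by
  rw [PP_real, ← mul_pow]; norm_num

variable (D) in
/-- total size -/
def Q : ℝ := (n : ℝ) + D.numAscs + D.numTurns

lemma Q_nonneg : 0 ≤ D.Q := by unfold Q; positivity

/-- `A * P ≤ b` implies `A ≤ b * x` -/
lemma of_mul_PP {l : ℕ} {A b : ℝ} (h : A * PP l ≤ b) : A ≤ b * (1 / 2 : ℝ) ^ (l / 6) := by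
  have h1 := PP_half l
  have h2 : (0 : ℝ) ≤ (1 / 2 : ℝ) ^ (l / 6) := by positivity
  calc A = A * PP l * (1 / 2 : ℝ) ^ (l / 6) := by rw [mul_assoc, h1, mul_one]
    _ ≤ _ := mul_le_mul_of_nonneg_right h h2

theorem aU_bound : ∀ l, 30 ≤ l → ((D.aU l (PP l)).card : ℝ) ≤ 164 * D.Q * (1 / 2) ^ (l / 6) := by
  apply recur n (fun l => ((D.aU l (PP l)).card : ℝ)) 164 D.Q Q_nonneg (by norm_num)
  intro l hl
  obtain ⟨r1, r2, h1, h2, h3⟩ := U_step (D := D) l (PP l) (PP l ^ 2) (2 ^ l)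
  have hP := PP_pos l
  have hP' : (1 : ℝ) ≤ PP l := by exact_mod_cast hP
  have h4 : ∑ l' ∈ Finset.Ico (6 * l) n, (D.aU l' (2 ^ l)).card ≤
      ∑ l' ∈ Finset.Ico (6 * l) n, (D.aU l' (PP l')).card := by
    apply Finset.sum_le_sum
    intro l' hl'
    rw [Finset.mem_Ico] at hl'
    exact aU_mono l' (two_pow_le_PP hl'.1)
  obtain ⟨S, hS⟩ : ∃ S : ℕ, S = ∑ l' ∈ Finset.Ico (6 * l) n, (D.aU l' (PP l')).card := ⟨_, rfl⟩
  rw [← hS] at h4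
  have h5 : (D.aU l (PP l)).card ≤ (PP l + 1) * ((n / 2 ^ l) * (6 * l + 2 + PP l ^ 2) + r1 + r2 + S) :=
    h3.trans (Nat.mul_le_mul_left _ (by omega))
  have h6 : ((D.aU l (PP l)).card : ℝ) ≤ ((PP l : ℝ) + 1) *
      (((n / 2 ^ l : ℕ) : ℝ) * ((6 * l + 2 : ℝ) + (PP l : ℝ) ^ 2) + r1 + r2 + S) := by
    exact_mod_cast h5
  have h1' : (r1 : ℝ) * (PP l : ℝ) ^ 2 ≤ D.numAscs + 2 * D.numTurns := by exact_mod_cast h1
  have h2' : (r2 : ℝ) * (PP l : ℝ) ^ 6 ≤ 2 * D.numTurns := by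
    have : r2 * PP l ^ 6 ≤ 2 * D.numTurns := (Nat.mul_le_mul_left _ (PP_six l)).trans h2
    exact_mod_cast this
  have hL : (6 * l + 2 : ℝ) ≤ 36 * PP l := by exact_mod_cast lin_PP l
  have h7 := numU (PP l) ((n / 2 ^ l : ℕ) : ℝ) (6 * l + 2) n D.numAscs D.numTurns r1 r2 S
    ((D.aU l (PP l)).card : ℝ) hP' (by positivity) (div_bound n l) hL (by positivity)
    (by positivity) h1' h2' (by positivity) (by positivity) (by positivity) (by positivity) h6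
  have h8 := of_mul_PP h7
  have hx := PP_half l
  have hSr : ((S : ℕ) : ℝ) = ∑ l' ∈ Finset.Ico (6 * l) n, ((D.aU l' (PP l')).card : ℝ) := by
    rw [hS]; exact Nat.cast_sum _ _
  rw [← hSr, ← PP_real]
  have h9 : (82 * ((n : ℝ) + D.numAscs + D.numTurns) + 2 * (PP l : ℝ) ^ 2 * S) *
      (1 / 2 : ℝ) ^ (l / 6) = 164 / 2 * D.Q * (1 / 2) ^ (l / 6) + 2 * (PP l : ℝ) * S := by
    have e : 2 * (PP l : ℝ) ^ 2 * S * (1 / 2 : ℝ) ^ (l / 6) =
      2 * (PP l : ℝ) * S * ((PP l : ℝ) * (1 / 2 : ℝ) ^ (l / 6)) := by ring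
    rw [add_mul, e, hx, Q]; ring
  rw [h9] at h8
  have h10 : 2 * (PP l : ℝ) * S ≤ 20 * (PP l : ℝ) ^ 3 * S := by
    apply mul_le_mul_of_nonneg_right _ (Nat.cast_nonneg S)
    have e1 : (PP l : ℝ) ≤ (PP l : ℝ) ^ 3 := le_self_pow₀ hP' (by norm_num)
    linarith
  linarith

lemma cc_gg {lam l : ℕ} (hlam : 1 ≤ lam) (h : 6 * lam ≤ l) :
    cc l + PP lam + 2 ^ lam < gg l := by
  have h1 := two_pow_le_PP h
  have h2 : PP lam ≤ 2 ^ lam := by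
    unfold PP
    exact Nat.pow_le_pow_right (by norm_num) (by omega)
  have h3 : 2 ^ 1 ≤ 2 ^ lam := Nat.pow_le_pow_right (by norm_num) hlam
  have h4 : PP l < PP l ^ 4 := by
    calc PP l = PP l ^ 1 := (pow_one _).symm
      _ < PP l ^ 4 := Nat.pow_lt_pow_right (by omega) (by norm_num)
  unfold cc gg
  omega

theorem aV_bound : ∀ l, 30 ≤ l →
    ((D.aV cc gg l (PP l) (PP l)).card : ℝ) ≤ 1520 * D.Q * (1 / 2) ^ (l / 6) := by
  apply recur n (fun l => ((D.aV cc gg l (PP l) (PP l)).card : ℝ)) 1520 D.Q Q_nonneg (by norm_num)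
  intro l hl
  obtain ⟨r1, h1, h3⟩ := V_step (D := D) cc gg l (PP l) (PP l)
    (fun l' hl' => cc_gg (by omega) hl')
  have hP := PP_pos l
  have hP' : (1 : ℝ) ≤ PP l := by exact_mod_cast hP
  have h4 : ∑ l' ∈ Finset.Ico (6 * l) n, (D.aV cc gg l' (PP l) (PP l + PP l)).card ≤
      ∑ l' ∈ Finset.Ico (6 * l) n, (D.aV cc gg l' (PP l') (PP l')).card := by
    apply Finset.sum_le_sum
    intro l' hl'
    rw [Finset.mem_Ico] at hl'
    have e1 := two_pow_le_PP hl'.1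
    have e2 : PP l + PP l ≤ 2 ^ l := by
      unfold PP
      rw [← two_mul, ← pow_succ']
      exact Nat.pow_le_pow_right (by norm_num) (by omega)
    exact aV_mono cc gg l' (by omega) (by omega)
  obtain ⟨S, hS⟩ : ∃ S : ℕ, S = ∑ l' ∈ Finset.Ico (6 * l) n,
    (D.aV cc gg l' (PP l') (PP l')).card := ⟨_, rfl⟩
  rw [← hS] at h4
  have h5 : (D.aV cc gg l (PP l) (PP l)).card ≤ ((PP l + 1) * ((PP l + 2) ^ 2 + 1)) *
      ((n / 2 ^ l) * (6 * l + 1) + r1 + S) :=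
    h3.trans (Nat.mul_le_mul_left _ (by omega))
  have h6 : ((D.aV cc gg l (PP l) (PP l)).card : ℝ) ≤
      (((PP l : ℝ) + 1) * (((PP l : ℝ) + 2) ^ 2 + 1)) *
      (((n / 2 ^ l : ℕ) : ℝ) * (6 * l + 1 : ℝ) + r1 + S) := by
    exact_mod_cast h5
  have h1' : (r1 : ℝ) * (PP l : ℝ) ^ 4 ≤ 2 * D.numTurns := by
    have e1 : PP l ^ 4 ≤ cc l - PP l := by
      unfold cc
      have : PP l ≤ PP l ^ 4 := Nat.le_self_pow (by norm_num) _
      omega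
    have : r1 * PP l ^ 4 ≤ 2 * D.numTurns := (Nat.mul_le_mul_left _ e1).trans h1
    exact_mod_cast this
  have hL : (6 * l + 1 : ℝ) ≤ 36 * PP l := by
    have : (6 * l + 2 : ℝ) ≤ 36 * PP l := by exact_mod_cast lin_PP l
    linarith
  have h7 := numV (PP l) ((n / 2 ^ l : ℕ) : ℝ) (6 * l + 1) n D.numAscs D.numTurns r1 S
    ((D.aV cc gg l (PP l) (PP l)).card : ℝ) hP' (by positivity) (div_bound n l) hL (by positivity)
    h1' (by positivity) (by positivity) (by positivity) (by positivity) h6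
  have h8 := of_mul_PP h7
  have hx := PP_half l
  have hSr : ((S : ℕ) : ℝ) =
      ∑ l' ∈ Finset.Ico (6 * l) n, ((D.aV cc gg l' (PP l') (PP l')).card : ℝ) := by
    rw [hS]; exact Nat.cast_sum _ _
  rw [← hSr, ← PP_real]
  have h9 : (760 * ((n : ℝ) + D.numAscs + D.numTurns) + 20 * (PP l : ℝ) ^ 4 * S) *
      (1 / 2 : ℝ) ^ (l / 6) = 1520 / 2 * D.Q * (1 / 2) ^ (l / 6) + 20 * (PP l : ℝ) ^ 3 * S := by
    have e : 20 * (PP l : ℝ) ^ 4 * S * (1 / 2 : ℝ) ^ (l / 6) =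
      20 * (PP l : ℝ) ^ 3 * S * ((PP l : ℝ) * (1 / 2 : ℝ) ^ (l / 6)) := by ring
    rw [add_mul, e, hx, Q]; ring
  rw [h9] at h8
  linarith

end Dyn

end Pool.Agent.TA
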