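import Pool.Agent.Lib_helper56.TA.VPart

/-!
# Number of turns of type U
-/

open scoped Classical

namespace Pool.Agent.TA

namespace Dyn

variable {n : ℕ} {D : Dyn n}

set_option maxHeartbeats 4000000 in
theorem U_base (l0 : ℕ) (κ : ℕ → ℕ) : ∃ r : ℕ → ℕ, (∀ l, r l * κ l ≤ 2 * D.numTurns) ∧
    (D.turns.filter (fun t => ∃ B, D.U B t)).card ≤ l0 * n + (n + D.numAscs) +
      ∑ l ∈ Finset.Ico l0 n, (r l + (D.aU l (κ l)).card) := by
  set SL := D.turns.filter (fun t => ∃ B, B.lev < l0 ∧ D.U B t) with hSL
  set SH := D.turns.filter (fun t => ∃ B, l0 ≤ B.lev ∧ D.U B t) with hSH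
  have hsplit : (D.turns.filter (fun t => ∃ B, D.U B t)).card ≤ SL.card + SH.card := by
    refine le_trans (Finset.card_le_card ?_) (Finset.card_union_le _ _)
    intro t ht
    rw [Finset.mem_filter] at ht
    rw [Finset.mem_union, hSL, hSH, Finset.mem_filter, Finset.mem_filter]
    obtain ⟨ht, B, hB⟩ := ht
    by_cases c : B.lev < l0
    · left; exact ⟨ht, B, c, hB⟩
    · right; exact ⟨ht, B, by omega, hB⟩
  have hSLc : SL.card ≤ l0 * n := by
    have hex : ∀ t ∈ SL, ∃ B : Blk, B.lev < l0 ∧ D.U B t := by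
      intro t ht
      rw [hSL, Finset.mem_filter] at ht
      exact ht.2
    have : Nonempty Blk := ⟨⟨0, 0⟩⟩
    choose! bl hbl1 hbl2 using hex
    have h1 : SL.card ≤ ((Finset.range l0) ×ˢ (Finset.range n)).card := by
      apply Finset.card_le_card_of_injOn (fun t => ((bl t).lev, D.X t))
      · intro t ht
        rw [Finset.mem_coe] at ht
        have h2 := turn_spec (hbl2 t ht).1
        rw [Finset.mem_coe, Finset.mem_product]
        exact ⟨Finset.mem_range.2 (hbl1 t ht), Finset.mem_range.2 (show D.X t < n by omega)⟩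
      · intro t ht t' ht' he
        rw [Finset.mem_coe] at ht ht'
        simp only [Prod.mk.injEq] at he
        exact (U_inj (hbl2 t ht) (hbl2 t' ht') he.1 he.2).1
    rwa [Finset.card_product, Finset.card_range, Finset.card_range] at h1
  have hex : ∀ t ∈ SH, ∃ B : Blk, l0 ≤ B.lev ∧ D.U B t := by
    intro t ht
    rw [hSH, Finset.mem_filter] at ht
    exact ht.2
  have : Nonempty Blk := ⟨⟨0, 0⟩⟩
  choose! blk hlev hU using hex
  set nxs : ℕ → Set ℕ := fun t => {θ | θ ∈ SH ∧ t < θ ∧ D.X θ = D.X t ∧
    ∀ s, t < s → s < θ → ¬ D.as s (D.X t)} with hnxs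
  set nx : ℕ → ℕ := fun t => sInf (nxs t) with hnx
  set La := SH.filter (fun t => ¬ (nxs t).Nonempty) with hLa
  set Re := SH.filter (fun t => (nxs t).Nonempty) with hRe
  have hSHc : SH.card = Re.card + La.card := by
    rw [hLa, hRe]
    exact (Finset.card_filter_add_card_filter_not _).symm
  have hLac : La.card ≤ n + D.numAscs := by
    apply run_count
    · intro t ht
      rw [hLa, Finset.mem_filter] at ht
      exact (hU t ht.1).1
    · intro t ht t' ht' htt hX
      rw [hLa, Finset.mem_filter] at ht ht'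
      by_contra hcon
      push Not at hcon
      exact ht.2 ⟨t', ht'.1, htt, hX.symm, fun s h1 h2 => hcon s h1 h2⟩
  have hspec : ∀ t ∈ Re, t ∈ SH ∧ nx t ∈ SH ∧ t < nx t ∧ D.X (nx t) = D.X t ∧
      (∀ s, t < s → s < nx t → ¬ D.as s (D.X t)) ∧
      (∀ s ∈ nxs t, nx t ≤ s) := by
    intro t ht
    rw [hRe, Finset.mem_filter] at ht
    have h1 : nx t ∈ nxs t := Nat.sInf_mem ht.2
    exact ⟨ht.1, h1.1, h1.2.1, h1.2.2.1, h1.2.2.2, fun s hs => Nat.sInf_le hs⟩
  have hin : ∀ t ∈ Re, (blk t).inL (blk (nx t)) := by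
    intro t ht
    obtain ⟨h1, h2, h3, h4, h5, h6⟩ := hspec t ht
    have u1 := hU t h1
    have u2 := hU (nx t) h2
    have g1 := u1.2
    have g2 := u2.2
    have := (blk t).lo_lt; have := (blk t).mid_lt
    have := (blk (nx t)).lo_lt; have := (blk (nx t)).mid_lt
    rcases Blk.nest (blk t) (blk (nx t)) with c | c | c | c | c | c | c
    · rw [← c] at u2
      have := U_X_lt u1 u2 h3
      omega
    · omega
    · omega
    · exact c
    · obtain ⟨d1, d2, d3⟩ := c; omega
    · have := C2 c u2 u1 (by omega) h3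
      have := D.le_self' (nx t) (D.X (nx t))
      omega
    · obtain ⟨d1, d2, d3⟩ := c; omega
  set JJ : ℕ → Finset ℕ := fun t => D.turns.filter
    (fun s => t < s ∧ s ≤ nx t ∧ (D.X s = D.X t ∨ D.Y s = D.X t)) with hJJ
  set He : ℕ → Finset ℕ := fun l => Re.filter (fun t => (blk t).lev = l ∧ κ l < (JJ t).card) with hHe
  refine ⟨fun l => (He l).card, ?_, ?_⟩
  · intro l
    refine le_trans (charge (He l) JJ D.JT (κ l) ?_ (fun t s e => e = (s, D.X t)) ?_ ?_) D.JT_card
    · intro t ht
      rw [hHe, Finset.mem_filter] at ht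
      exact ht.2.2.le
    · intro t ht s hs
      rw [hJJ, Finset.mem_filter] at hs
      exact ⟨_, mem_JT (mem_turns.1 hs.1) hs.2.2.2, rfl⟩
    · intro t ht s hs t' ht' s' hs' e he he'
      rw [he] at he'
      simp only [Prod.mk.injEq] at he'
      obtain ⟨e1, e2⟩ := he'
      subst e1
      refine ⟨?_, rfl⟩
      rw [hHe, Finset.mem_filter] at ht ht'
      rw [hJJ, Finset.mem_filter] at hs hs'
      obtain ⟨a1, a2, a3, a4, a5, a6⟩ := hspec t ht.1
      obtain ⟨b1, b2, b3, b4, b5, b6⟩ := hspec t' ht'.1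
      rcases lt_trichotomy t t' with c | c | c
      · have := a6 t' ⟨b1, c, e2.symm, fun q h1 h2 => a5 q h1 (by omega)⟩
        omega
      · exact c
      · have := b6 t ⟨a1, c, e2, fun q h1 h2 => b5 q h1 (by omega)⟩
        omega
  · have hRec : Re.card ≤ ∑ l ∈ Finset.Ico l0 n, ((He l).card + (D.aU l (κ l)).card) := by
      have hsub : Re ⊆ (Finset.Ico l0 n).biUnion (fun l => He l ∪ D.aU l (κ l)) := by
        intro t ht
        obtain ⟨a1, a2, a3, a4, a5, a6⟩ := hspec t ht
        rw [Finset.mem_biUnion]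
        refine ⟨(blk t).lev, Finset.mem_Ico.2 ⟨hlev t a1, (U_idx (hU t a1)).2⟩, ?_⟩
        rw [Finset.mem_union]
        by_cases c : κ (blk t).lev < (JJ t).card
        · left; rw [hHe, Finset.mem_filter]; exact ⟨ht, rfl, c⟩
        · right
          rw [aU, Finset.mem_filter]
          have hin' := hin t ht
          have u1 := hU t a1
          have u2 := hU (nx t) a2
          refine ⟨mem_turns.2 u1.1, blk t, rfl, blk (nx t), nx t, u1, u2, hin', by omega, ?_, ?_⟩
          · rw [a4]; exact u1.2.2.1
          · refine le_trans ?_ (not_lt.1 c)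
            have hex : ∀ t' ∈ D.turns.filter (fun t' => t < t' ∧ D.U (blk t) t' ∧
                D.Z t' < (blk (nx t)).hi), ∃ s, t < s ∧ s ≤ nx t ∧ D.tu s ∧
                ((D.X s = D.X t ∧ D.Y s = D.Z t') ∨ (D.Y s = D.X t ∧ D.Z s = D.Z t')) := by
              intro t' ht'
              rw [Finset.mem_filter] at ht'
              have := u2.2.2.2.2.2
              exact turn_jump a3 u2.1 a4 a5 (by omega) (U1 u1 ht'.2.2.1 ht'.2.1).2.2.2
            choose! f hf1 hf2 hf3 hf4 using hex
            apply Finset.card_le_card_of_injOn f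
            · intro x hx
              rw [Finset.mem_coe] at hx
              rw [Finset.mem_coe, hJJ, Finset.mem_filter]
              exact ⟨mem_turns.2 (hf3 x hx), hf1 x hx, hf2 x hx, by have := hf4 x hx; tauto⟩
            · intro x hx y hy he
              rw [Finset.mem_coe] at hx hy
              have w1 := hf4 x hx
              have w2 := hf4 y hy
              rw [← he] at w2
              have w3 := node_unique (hf3 x hx) w1 w2
              rw [Finset.mem_filter] at hx hy
              rcases lt_trichotomy x y with e | e | e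
              · have := (U1 hx.2.2.1 hy.2.2.1 e).2.1
                omega
              · exact e
              · have := (U1 hy.2.2.1 hx.2.2.1 e).2.1
                omega
      refine (Finset.card_le_card hsub).trans (Finset.card_biUnion_le.trans ?_)
      apply Finset.sum_le_sum
      intro l _
      exact Finset.card_union_le _ _
    change _ ≤ l0 * n + (n + D.numAscs) +
      ∑ l ∈ Finset.Ico l0 n, ((He l).card + (D.aU l (κ l)).card)
    omega

end Dyn

end Pool.Agent.TA
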