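import Pool.Agent.Lib_helper56.TA.Counting

/-!
# Turns of type U
-/

open scoped Classical

namespace Pool.Agent.TA

namespace Dyn

variable {n : ℕ} (D : Dyn n)

/-- `(B', θ)` is a `κ`-partner of the row `t` of `B`. -/
def AssocU (κ : ℕ) (B : Blk) (t : ℕ) (B' : Blk) (θ : ℕ) : Prop :=
  D.U B t ∧ D.U B' θ ∧ B.inL B' ∧ D.X t ≤ D.X θ ∧ D.X θ < B.mid ∧
    ((D.turns).filter (fun t' => t < t' ∧ D.U B t' ∧ D.Z t' < B'.hi)).card ≤ κ

/-- rows of level `lam` with a `κ`-partner -/
noncomputable def aU (lam κ : ℕ) : Finset ℕ :=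
  D.turns.filter (fun t => ∃ B, B.lev = lam ∧ ∃ B' θ, D.AssocU κ B t B' θ)

variable {D}

lemma AssocU.basic {κ : ℕ} {B B' : Blk} {t θ : ℕ} (h : D.AssocU κ B t B' θ) :
    t < θ ∧ D.Z t < B'.hi := by
  obtain ⟨h1, h2, h3, h4, h5, h6⟩ := h
  have hlt : t < θ := by
    rcases lt_trichotomy t θ with c | c | c
    · exact c
    · subst c
      have := U_unique h1 h2
      subst this
      have := h3.2.2
      omega
    · have := C2 h3 h1 h2 h5 c
      have := D.le_self' t (D.X t)
      omega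
  refine ⟨hlt, ?_⟩
  by_contra hc
  have := (C1 h3 h1 h2 h5 (by omega)).2
  omega

lemma pairU {κ : ℕ} {B Pa Pb : Blk} {a b θa θb : ℕ} (ha : D.AssocU κ B a Pa θa)
    (hb : D.AssocU κ B b Pb θb) (hab : a < b) (hZ : Pa.hi ≤ D.Z b) :
    D.X θa < D.L b (D.X b) ∧ θa < b ∧ Pa.inL Pb ∧ D.Z θa < D.Z b ∧ D.Z b < D.Z θb ∧
      (∃ s, a < s ∧ s < θb ∧ D.jump s (D.X a) (D.Z θb)) := by
  obtain ⟨ha1, ha2⟩ := ha.basic
  obtain ⟨hb1, hb2⟩ := hb.basic
  obtain ⟨a1, a2, a3, a4, a5, a6⟩ := ha
  obtain ⟨b1, b2, b3, b4, b5, b6⟩ := hb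
  obtain ⟨c1, c2⟩ := C1 a3 b1 a2 a5 hZ
  have hin : Pa.inL Pb := by
    have q1 := a3; have q2 := b3
    obtain ⟨q11, q12, q13⟩ := q1
    obtain ⟨q21, q22, q23⟩ := q2
    have := B.lo_lt; have := B.mid_lt; have := Pa.lo_lt; have := Pa.mid_lt
    have := Pb.lo_lt; have := Pb.mid_lt
    rcases Blk.nest Pa Pb with c | c | c | c | c | c | c
    · subst c; omega
    · omega
    · omega
    · exact c
    · obtain ⟨d1, d2, d3⟩ := c; omega
    · obtain ⟨d1, d2, d3⟩ := c; omega
    · obtain ⟨d1, d2, d3⟩ := c; omega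
  obtain ⟨u0, u1, u2, u3, u4, u5⟩ := a1
  obtain ⟨v0, v1, v2, v3, v4, v5⟩ := b1
  obtain ⟨w0, w1, w2, w3, w4, w5⟩ := a2
  obtain ⟨x0, x1, x2, x3, x4, x5⟩ := b2
  obtain ⟨q11, q12, q13⟩ := a3
  obtain ⟨q21, q22, q23⟩ := b3
  obtain ⟨q31, q32, q33⟩ := hin
  have := B.lo_lt; have := B.mid_lt; have := Pa.lo_lt; have := Pa.mid_lt
  have := Pb.lo_lt; have := Pb.mid_lt
  have t1 := two_turns w0 v0 c2 (by omega) (by omega) (by omega) (by omega)
  refine ⟨c1, c2, ⟨q31, q32, q33⟩, t1.2.1, by omega, ?_⟩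
  -- the jump
  have sa := turn_spec u0
  obtain ⟨s1, s2, s3, s4, s5, s6, s7, s8, s9, s10⟩ := sa
  have sx := turn_spec x0
  have e1 : D.L θb (D.Z θb) = D.L θb (D.X θb) := sx.2.2.2.2.1
  have e2 := D.le_self' θb (D.X θb)
  have e3 := D.mono (show a ≤ θb by omega) (D.Z θb)
  have e4 : D.L a (D.Z θb) ≤ D.L a (D.Z a) := lam' (by omega) (by omega)
  have e5 := D.le_self' a (D.X a)
  have e6 : D.X a < D.X b := by
    have := D.le_self' b (D.X b)
    omega
  have e7 := after1 u0 (u := D.X θb) (s := θb) (by omega) (by omega) (by omega)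
  obtain ⟨s, d1, d2, d3⟩ := land (D := D) (x := D.X a) (c := D.Z a) (v := D.Z θb) (t0 := a + 1)
    (t1 := θb) (fun u hu hu' => after1 u0 hu hu' (by omega))
    (by rw [s10 _ (by omega) (by omega)]; omega) (by omega) (by omega) (by omega)
  exact ⟨s, by omega, d2, d3⟩

lemma U_merge {κ : ℕ} {B Pi Pa Pb : Blk} {i a b θi θa θb α t' : ℕ} (hi : D.AssocU κ B i Pi θi)
    (ha : D.AssocU κ B a Pa θa) (hb : D.AssocU κ B b Pb θb) (hia : i < a) (hab : a < b)
    (hZ : Pa.hi ≤ D.Z b)
    (hα : α < θa) (j1 : D.jump α (D.X i) (D.Z θa)) (j2 : D.jump α (D.X i) (D.Z θb))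
    (ht : D.U Pa t') (htt : θa < t') (hv : D.Z t' < Pb.hi) (hne : D.Z t' ≠ D.Y θb) :
    ∃ s, D.tu s ∧ (D.Y s = D.Z t' ∨ D.Z s = D.Z t') ∧ B.lo ≤ D.L s (D.X s) ∧
      D.L s (D.X s) < B.mid := by
  obtain ⟨p1, p2, p3, p4, p5, -⟩ := pairU ha hb hab hZ
  have hθb := hb.basic
  obtain ⟨i1, i2, i3, i4, i5, i6⟩ := hi
  obtain ⟨a1, a2, a3, a4, a5, a6⟩ := ha
  obtain ⟨b1, b2, b3, b4, b5, b6⟩ := hb
  have has : D.as α (D.X i) := jump_same_asc j1 j2 (by omega)
  obtain ⟨g1, g2, g3, -⟩ := U1 a2 ht htt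
  obtain ⟨u0, u1, u2, u3, u4, u5⟩ := i1
  obtain ⟨w0, w1, w2, w3, w4, w5⟩ := a2
  obtain ⟨x0, x1, x2, x3, x4, x5⟩ := b2
  obtain ⟨y0, y1, y2, y3, y4, y5⟩ := ht
  obtain ⟨q11, q12, q13⟩ := a3
  obtain ⟨q21, q22, q23⟩ := b3
  have := B.lo_lt; have := B.mid_lt; have := Pa.lo_lt; have := Pa.mid_lt
  have := Pb.lo_lt; have := Pb.mid_lt
  set v := D.Z t' with hv0
  have e1 := D.le_self' θa (D.X θa)
  have e2 := D.mono hα.le v
  have e3 : D.L α v ≤ D.L α (D.Z θa) := lam' g2 (by omega)
  have e4 := j2.1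
  have e5 : D.L α (D.Z θb) ≤ D.L α v := lam' (by omega) (by omega)
  have e6 := (jump_spec j1).2.1
  have e7 := (jump_spec j2).2.1
  have e8 : D.L α v = D.L α (D.X i) := by omega
  have e9 : D.L (α + 1) v = D.X i + 1 := (asc_spec has).2.1 v (by omega) e8
  have e10 := j2.2
  have sx := turn_spec x0
  have e11 : D.L θb (D.Z θb) = D.L θb (D.X θb) := sx.2.2.2.2.1
  have e12 := D.le_self' θb (D.X θb)
  have e13 : D.X θb < D.L θb v := by
    rcases lt_or_gt_of_ne hne with c | c
    · exact U0a x0 (by omega) c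
    · have := U0b x0 c (by omega)
      omega
  obtain ⟨s, s1, s2, s3, s4, s5, s6⟩ := separation (D := D) (a := α + 1) (b := θb) (v := v)
    (w := D.Z θb) (by omega) (by omega) (by omega) (by omega) (by omega)
  exact ⟨s, s3, s4, by omega, by omega⟩

lemma U_idx {B : Blk} {t : ℕ} (h : D.U B t) : B.idx < n / 2 ^ B.lev ∧ B.lev < n := by
  obtain ⟨a0, a1, a2, a3, a4, a5⟩ := h
  have h1 := turn_spec a0
  have h2 := Blk.idx_bound (B := B) (m := n) (by omega)
  have h3 := Blk.lev_bound (B := B) (m := n) (by omega)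
  refine ⟨?_, h3⟩
  have : B.idx + 1 ≤ n / 2 ^ B.lev := (Nat.le_div_iff_mul_le (by positivity)).2 h2
  omega

/-- blocks of the same level with a common point in the left halves are equal -/
lemma _root_.Pool.Agent.TA.Blk.eq_of_memL {B B' : Blk} {x : ℕ} (hl : B.lev = B'.lev)
    (h1 : B.lo ≤ x) (h2 : x < B.hi) (h3 : B'.lo ≤ x) (h4 : x < B'.hi) : B = B' := by
  rcases Blk.nest_eq hl with c | c | c
  · exact c
  · omega
  · omega

set_option maxHeartbeats 4000000 in
theorem U_step (lam κ m κ' : ℕ) : ∃ r1 r2, r1 * m ≤ D.numAscs + 2 * D.numTurns ∧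
    r2 * κ' ≤ 2 * D.numTurns ∧
    (D.aU lam κ).card ≤ (κ + 1) * ((n / 2 ^ lam) * (6 * lam + 2 + m) + r1 + r2 +
      ∑ l ∈ Finset.Ico (6 * lam) n, (D.aU l κ').card) := by
  set R := D.aU lam κ with hR
  have hR' : ∀ t ∈ R, ∃ B, ∃ P : Blk, ∃ θ : ℕ, B.lev = lam ∧ D.AssocU κ B t P θ := by
    intro t ht
    simp only [hR, aU, Finset.mem_filter] at ht
    obtain ⟨_, B, h1, P, θ, h2⟩ := ht
    exact ⟨B, P, θ, h1, h2⟩
  haveI : Nonempty Blk := ⟨⟨0, 0⟩⟩
  choose! blk P θ hlev hA using hR'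
  obtain ⟨S, hSR, hS2, hS3⟩ := greedy κ (fun a b => blk a = blk b ∧ D.Z b < (P a).hi) R (by
    intro a ha
    refine le_trans (Finset.card_le_card ?_) (hA a ha).2.2.2.2.2
    intro b hb
    simp only [Finset.mem_filter] at hb ⊢
    have hb1 := (hA b hb.1).1
    refine ⟨mem_turns.2 hb1.1, hb.2.1, ?_, hb.2.2.2⟩
    rw [hb.2.2.1]; exact hb1)
  have hZ : ∀ a ∈ S, ∀ b ∈ S, a < b → blk a = blk b → (P a).hi ≤ D.Z b := by
    intro a ha b hb hab he
    have := hS2 a ha b hb hab
    by_contra hc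
    exact this ⟨he, by omega⟩
  have hpair : ∀ a ∈ S, ∀ b ∈ S, a < b → blk a = blk b →
      D.X (θ a) < D.L b (D.X b) ∧ θ a < b ∧ (P a).inL (P b) ∧ D.Z (θ a) < D.Z b ∧
      D.Z b < D.Z (θ b) ∧
      (∃ s, a < s ∧ s < θ b ∧ D.jump s (D.X a) (D.Z (θ b))) := by
    intro a ha b hb hab he
    have h1 := hA a (hSR ha)
    have h2 := hA b (hSR hb)
    rw [← he] at h2
    exact pairU h1 h2 hab (hZ a ha b hb hab he)
  have hkey : ∀ t ∈ S, (blk t).idx ∈ Finset.range (n / 2 ^ lam) := by
    intro t ht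
    have h1 := (U_idx (hA t (hSR ht)).1).1
    rw [hlev t (hSR ht)] at h1
    exact Finset.mem_range.2 h1
  have hblk : ∀ a ∈ S, ∀ b ∈ S, (blk a).idx = (blk b).idx → blk a = blk b := by
    intro a ha b hb he
    exact Blk.ext ((hlev a (hSR ha)).trans (hlev b (hSR hb)).symm) he
  -- near rows
  set N0 := S.filter (fun t => (P t).lev < 6 * lam) with hN0
  have hnear : N0.card ≤ (n / 2 ^ lam) * (6 * lam) := by
    have : N0.card ≤ ((Finset.range (n / 2 ^ lam)) ×ˢ (Finset.range (6 * lam))).card := by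
      apply Finset.card_le_card_of_injOn (fun t => ((blk t).idx, (P t).lev))
      · intro t ht
        rw [Finset.mem_coe, hN0, Finset.mem_filter] at ht
        rw [Finset.mem_coe, Finset.mem_product]
        exact ⟨hkey t ht.1, Finset.mem_range.2 ht.2⟩
      · intro a ha b hb he
        rw [Finset.mem_coe, hN0, Finset.mem_filter] at ha hb
        simp only [Prod.mk.injEq] at he
        have hbe := hblk a ha.1 b hb.1 he.1
        rcases lt_trichotomy a b with c | c | c
        · have := (hpair a ha.1 b hb.1 c hbe).2.2.1.2.2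
          omega
        · exact c
        · have := (hpair b hb.1 a ha.1 c hbe.symm).2.2.1.2.2
          omega
    rwa [Finset.card_product, Finset.card_range, Finset.card_range] at this
  -- far rows
  set F := S.filter (fun t => 6 * lam ≤ (P t).lev) with hF
  have hFS : F ⊆ S := Finset.filter_subset _ _
  have hSF : S.card ≤ N0.card + F.card := by
    refine le_trans (Finset.card_le_card ?_) (Finset.card_union_le _ _)
    intro t ht
    rw [Finset.mem_union, hN0, hF, Finset.mem_filter, Finset.mem_filter]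
    by_cases c : (P t).lev < 6 * lam
    · left; exact ⟨ht, c⟩
    · right; exact ⟨ht, by omega⟩
  have hJ : ∀ i t, i ∈ S → t ∈ S → i < t → blk i = blk t →
      ∃ s, i < s ∧ s < θ t ∧ D.jump s (D.X i) (D.Z (θ t)) := by
    intro i t hi ht hit he
    exact (hpair i hi t ht hit he).2.2.2.2.2
  choose! J hJ1 hJ2 hJ3 using hJ
  have hJmono : ∀ i ∈ S, ∀ a ∈ S, ∀ b ∈ S, i < a → a ≤ b → blk i = blk a → blk i = blk b →
      J i a ≤ J i b := by
    intro i hi a ha b hb h1 h2 h3 h4
    rcases h2.eq_or_lt with rfl | h2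
    · exact le_rfl
    have q := hpair a ha b hb h2 (h3.symm.trans h4)
    exact jump_mono (hJ3 i a hi ha h1 h3) (hJ3 i b hi hb (by omega) h4) (by omega)
  set rich : ℕ → Prop := fun t => m ≤ ((F.filter (fun s => t < s ∧ blk t = blk s)).image (J t)).card
    with hrich
  set fi : ℕ → ℕ := fun t => sInf {i | i ∈ F ∧ ¬ rich i ∧ blk i = blk t} with hfi
  set nx : ℕ → ℕ := fun t => sInf {s | s ∈ F ∧ t < s ∧ blk t = blk s} with hnx
  set F1 := F.filter rich with hF1
  set F2 := F.filter (fun t => ¬ rich t ∧ fi t = t) with hF2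
  set F3 := F.filter (fun t => ∀ s ∈ F, t < s → blk t ≠ blk s) with hF3
  set Fr := F.filter (fun t => (∃ i ∈ F, ¬ rich i ∧ blk i = blk t ∧ i < t) ∧
    ∃ s ∈ F, t < s ∧ blk t = blk s) with hFr
  set F4 := Fr.filter (fun t => J (fi t) t ≠ J (fi t) (nx t)) with hF4
  set WW : ℕ → Finset ℕ := fun t => D.turns.filter
    (fun t' => θ t < t' ∧ D.U (P t) t' ∧ D.Z t' < (P (nx t)).hi) with hWW
  set F5 := Fr.filter (fun t => J (fi t) t = J (fi t) (nx t) ∧ κ' < (WW t).card) with hF5
  set F6 := Fr.filter (fun t => (WW t).card ≤ κ') with hF6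
  -- facts on `Fr`
  have hFrspec : ∀ t ∈ Fr, t ∈ F ∧ fi t ∈ F ∧ ¬ rich (fi t) ∧ blk (fi t) = blk t ∧ fi t < t ∧
      nx t ∈ F ∧ t < nx t ∧ blk t = blk (nx t) := by
    intro t ht
    rw [hFr, Finset.mem_filter] at ht
    obtain ⟨ht1, ⟨i, hi1, hi2, hi3, hi4⟩, ⟨s, hs1, hs2, hs3⟩⟩ := ht
    have h1 : fi t ∈ {i | i ∈ F ∧ ¬ rich i ∧ blk i = blk t} := Nat.sInf_mem ⟨i, hi1, hi2, hi3⟩
    have h2 : nx t ∈ {s | s ∈ F ∧ t < s ∧ blk t = blk s} := Nat.sInf_mem ⟨s, hs1, hs2, hs3⟩
    have h3 : fi t ≤ i := Nat.sInf_le ⟨hi1, hi2, hi3⟩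
    exact ⟨ht1, h1.1, h1.2.1, h1.2.2, by omega, h2.1, h2.2.1, h2.2.2⟩
  have hfieq : ∀ a b, blk a = blk b → fi a = fi b := by
    intro a b h
    simp only [hfi, h]
  have hnxle : ∀ t, ∀ s ∈ F, t < s → blk t = blk s → nx t ≤ s := by
    intro t s hs h1 h2
    exact Nat.sInf_le ⟨hs, h1, h2⟩
  -- cover
  have hcover : F.card ≤ F1.card + F2.card + F3.card + F4.card + F5.card + F6.card := by
    have : F ⊆ F1 ∪ F2 ∪ F3 ∪ F4 ∪ F5 ∪ F6 := by
      intro t ht
      simp only [Finset.mem_union]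
      by_cases c1 : rich t
      · left; left; left; left; left
        rw [hF1, Finset.mem_filter]; exact ⟨ht, c1⟩
      by_cases c2 : fi t = t
      · left; left; left; left; right
        rw [hF2, Finset.mem_filter]; exact ⟨ht, c1, c2⟩
      by_cases c3 : ∀ s ∈ F, t < s → blk t ≠ blk s
      · left; left; left; right
        rw [hF3, Finset.mem_filter]; exact ⟨ht, c3⟩
      have c4 : t ∈ Fr := by
        rw [hFr, Finset.mem_filter]
        refine ⟨ht, ?_, ?_⟩
        · have h1 : fi t ∈ {i | i ∈ F ∧ ¬ rich i ∧ blk i = blk t} := Nat.sInf_mem ⟨t, ht, c1, rfl⟩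
          have h3 : fi t ≤ t := Nat.sInf_le ⟨ht, c1, rfl⟩
          exact ⟨fi t, h1.1, h1.2.1, h1.2.2, by omega⟩
        · push Not at c3
          obtain ⟨s, s1, s2, s3⟩ := c3
          exact ⟨s, s1, s2, s3⟩
      by_cases c5 : (WW t).card ≤ κ'
      · right; rw [hF6, Finset.mem_filter]; exact ⟨c4, c5⟩
      by_cases c6 : J (fi t) t = J (fi t) (nx t)
      · left; right; rw [hF5, Finset.mem_filter]; exact ⟨c4, c6, by omega⟩
      · left; left; right; rw [hF4, Finset.mem_filter]; exact ⟨c4, c6⟩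
    refine (Finset.card_le_card this).trans ?_
    refine (Finset.card_union_le _ _).trans ?_
    refine Nat.add_le_add_right ?_ _
    refine (Finset.card_union_le _ _).trans ?_
    refine Nat.add_le_add_right ?_ _
    refine (Finset.card_union_le _ _).trans ?_
    refine Nat.add_le_add_right ?_ _
    refine (Finset.card_union_le _ _).trans ?_
    refine Nat.add_le_add_right ?_ _
    exact Finset.card_union_le _ _
  -- F1
  have hc1 : F1.card * m ≤ D.numAscs + 2 * D.numTurns := by
    refine le_trans (charge F1 (fun t => (F.filter (fun s => t < s ∧ blk t = blk s)).image (J t))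
      D.JP m ?_ (fun t o c => c = (o, D.X t)) ?_ ?_) D.JP_card
    · intro t ht
      rw [hF1, Finset.mem_filter] at ht
      exact ht.2
    · intro t ht o ho
      rw [hF1, Finset.mem_filter] at ht
      rw [Finset.mem_image] at ho
      obtain ⟨s, hs, rfl⟩ := ho
      rw [Finset.mem_filter] at hs
      exact ⟨_, mem_JP (hJ3 t s (hFS ht.1) (hFS hs.1) hs.2.1 hs.2.2), rfl⟩
    · intro t ht o ho t' ht' o' ho' c hc hc'
      rw [hF1, Finset.mem_filter] at ht ht'
      rw [hc] at hc'
      simp only [Prod.mk.injEq] at hc'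
      have h1 := hA t (hSR (hFS ht.1))
      have h2 := hA t' (hSR (hFS ht'.1))
      have h3 := U_inj h1.1 h2.1
        ((hlev t (hSR (hFS ht.1))).trans (hlev t' (hSR (hFS ht'.1))).symm) hc'.2
      exact ⟨h3.1, hc'.1⟩
  -- F2, F3
  have hc2 : F2.card ≤ n / 2 ^ lam := by
    rw [← Finset.card_range (n / 2 ^ lam)]
    apply Finset.card_le_card_of_injOn (fun t => (blk t).idx)
    · intro t ht
      rw [Finset.mem_coe, hF2, Finset.mem_filter] at ht
      exact hkey t (hFS ht.1)
    · intro a ha b hb he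
      rw [Finset.mem_coe, hF2, Finset.mem_filter] at ha hb
      have hbe := hblk a (hFS ha.1) b (hFS hb.1) he
      have := hfieq a b hbe
      rw [ha.2.2, hb.2.2] at this
      exact this
  have hc3 : F3.card ≤ n / 2 ^ lam := by
    rw [← Finset.card_range (n / 2 ^ lam)]
    apply Finset.card_le_card_of_injOn (fun t => (blk t).idx)
    · intro t ht
      rw [Finset.mem_coe, hF3, Finset.mem_filter] at ht
      exact hkey t (hFS ht.1)
    · intro a ha b hb he
      rw [Finset.mem_coe, hF3, Finset.mem_filter] at ha hb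
      have hbe := hblk a (hFS ha.1) b (hFS hb.1) he
      rcases lt_trichotomy a b with c | c | c
      · exact absurd hbe (ha.2 b hb.1 c)
      · exact c
      · exact absurd hbe.symm (hb.2 a ha.1 c)
  -- F4
  have hc4 : F4.card ≤ m * (n / 2 ^ lam) := by
    have h0 : F4.card ≤ m * (Finset.range (n / 2 ^ lam)).card := by
      apply Finset.card_le_mul_card_image_of_maps_to (f := fun t => (blk t).idx)
      · intro t ht
        rw [hF4, Finset.mem_filter] at ht
        exact hkey t (hFS (hFrspec t ht.1).1)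
      · intro k _
        rcases (F4.filter (fun t => (blk t).idx = k)).eq_empty_or_nonempty with he | ⟨t0, ht0⟩
        · rw [he]; simp
        rw [Finset.mem_filter, hF4, Finset.mem_filter] at ht0
        obtain ⟨⟨ht01, ht02⟩, ht03⟩ := ht0
        obtain ⟨a1, a2, a3, a4, a5, a6, a7, a8⟩ := hFrspec t0 ht01
        have hlt : ((F.filter (fun s => fi t0 < s ∧ blk (fi t0) = blk s)).image (J (fi t0))).card
            < m := by
          by_contra hc
          exact a3 (by omega)
        refine le_trans ?_ hlt.le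
        apply Finset.card_le_card_of_injOn (J (fi t0))
        · intro t ht
          rw [Finset.mem_coe, Finset.mem_filter, hF4, Finset.mem_filter] at ht
          obtain ⟨b1, b2, b3, b4, b5, b6, b7, b8⟩ := hFrspec t ht.1.1
          have hbe := hblk t0 (hFS a1) t (hFS b1) (ht03.trans ht.2.symm)
          have hfe := hfieq t0 t hbe
          rw [Finset.mem_coe, Finset.mem_image]
          refine ⟨t, Finset.mem_filter.2 ⟨b1, by omega, ?_⟩, rfl⟩
          rw [a4, hbe]
        · -- injectivity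
          have key : ∀ a ∈ F4.filter (fun t => (blk t).idx = k),
              ∀ b ∈ F4.filter (fun t => (blk t).idx = k), a < b →
              J (fi t0) a ≠ J (fi t0) b := by
            intro a ha b hb hab
            rw [Finset.mem_filter, hF4, Finset.mem_filter] at ha hb
            obtain ⟨b1, b2, b3, b4, b5, b6, b7, b8⟩ := hFrspec a ha.1.1
            obtain ⟨c1, c2, c3, c4, c5, c6, c7, c8⟩ := hFrspec b hb.1.1
            have e1 := hblk t0 (hFS a1) a (hFS b1) (ht03.trans ha.2.symm)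
            have e2 := hblk t0 (hFS a1) b (hFS c1) (ht03.trans hb.2.symm)
            have f1 := hfieq t0 a e1
            have f2 := hfieq t0 b e2
            have g1 := ha.1.2
            rw [← f1] at g1
            have g2 := hJmono (fi t0) (hFS a2) a (hFS b1) (nx a) (hFS b6) (by omega) (by omega)
              (by rw [a4, e1]) (by rw [a4, e1, b8])
            have g3 := hnxle a b c1 hab (e1.symm.trans e2)
            have g4 := hJmono (fi t0) (hFS a2) (nx a) (hFS b6) b (hFS c1) (by omega) g3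
              (by rw [a4, e1, b8]) (by rw [a4, e2])
            omega
          intro a ha b hb he
          rcases lt_trichotomy a b with c | c | c
          · exact absurd he (key a ha b hb c)
          · exact c
          · exact absurd he.symm (key b hb a ha c)
    rwa [Finset.card_range] at h0
  -- F5
  have hc5 : F5.card * κ' ≤ 2 * D.numTurns := by
    refine le_trans (charge F5 (fun t => ((WW t).image D.Z).erase (D.Y (θ (nx t))))
      D.TV κ' ?_ (fun t v c => c.2 = v ∧ (blk t).lo ≤ D.L c.1 (D.X c.1) ∧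
        D.L c.1 (D.X c.1) < (blk t).mid ∧ (P t).hi ≤ v ∧ v < (P (nx t)).hi) ?_ ?_) D.TV_card
    · intro t ht
      rw [hF5, Finset.mem_filter] at ht
      have h1 : ((WW t).image D.Z).card = (WW t).card := by
        apply Finset.card_image_of_injOn
        intro a ha b hb he
        rw [Finset.mem_coe, hWW, Finset.mem_filter] at ha hb
        rcases lt_trichotomy a b with c | c | c
        · have := (U1 ha.2.2.1 hb.2.2.1 c).2.1; omega
        · exact c
        · have := (U1 hb.2.2.1 ha.2.2.1 c).2.1; omega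
      have h2 := Finset.pred_card_le_card_erase (s := (WW t).image D.Z) (a := D.Y (θ (nx t)))
      have h3 := ht.2.2
      omega
    · intro t ht v hv
      rw [hF5, Finset.mem_filter] at ht
      rw [Finset.mem_erase, Finset.mem_image] at hv
      obtain ⟨hv1, t', ht', rfl⟩ := hv
      rw [hWW, Finset.mem_filter] at ht'
      obtain ⟨b1, b2, b3, b4, b5, b6, b7, b8⟩ := hFrspec t ht.1
      have q1 := hA (fi t) (hSR (hFS b2))
      have q2 := hA t (hSR (hFS b1))
      have q3 := hA (nx t) (hSR (hFS b6))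
      rw [b4] at q1
      rw [← b8] at q3
      have q4 := hZ t (hFS b1) (nx t) (hFS b6) b7 b8
      have j1 := hJ3 (fi t) t (hFS b2) (hFS b1) b5 b4
      have j2 := hJ3 (fi t) (nx t) (hFS b2) (hFS b6) (by omega) (b4.trans b8)
      rw [← ht.2.1] at j2
      obtain ⟨s, s1, s2, s3, s4⟩ := U_merge q1 q2 q3 b5 b7 q4
        (hJ2 (fi t) t (hFS b2) (hFS b1) b5 b4) j1 j2 ht'.2.2.1 ht'.2.1 ht'.2.2.2 hv1
      exact ⟨(s, D.Z t'), mem_TV s1 s2, rfl, s3, s4, ht'.2.2.1.2.2.2.2.2, ht'.2.2.2⟩
    · intro t ht v hv t' ht' v' hv' c hc hc'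
      rw [hF5, Finset.mem_filter] at ht ht'
      obtain ⟨b1, b2, b3, b4, b5, b6, b7, b8⟩ := hFrspec t ht.1
      obtain ⟨b1', b2', b3', b4', b5', b6', b7', b8'⟩ := hFrspec t' ht'.1
      obtain ⟨c1, c2, c3, c4, c5⟩ := hc
      obtain ⟨c1', c2', c3', c4', c5'⟩ := hc'
      have m1 := (blk t).mid_lt
      have m2 := (blk t').mid_lt
      have hbe : blk t = blk t' := Blk.eq_of_memL
        ((hlev t (hSR (hFS b1))).trans (hlev t' (hSR (hFS b1'))).symm) c2 (by omega) c2' (by omega)
      refine ⟨?_, by omega⟩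
      -- monotonicity of `hi`
      have hmono : ∀ a ∈ F, ∀ b ∈ F, a ≤ b → blk a = blk b → (P a).hi ≤ (P b).hi := by
        intro a ha b hb hab he
        rcases hab.eq_or_lt with rfl | hab
        · exact le_rfl
        · have := (hpair a (hFS ha) b (hFS hb) hab he).2.2.1
          have := this.2.1
          have := (P b).mid_lt
          omega
      rcases lt_trichotomy t t' with e | e | e
      · have g1 := hnxle t t' b1' e hbe
        have g2 := hmono (nx t) b6 t' b1' g1 (b8.symm.trans hbe)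
        omega
      · exact e
      · have g1 := hnxle t' t b1 e hbe.symm
        have g2 := hmono (nx t') b6' t b1 g1 (b8'.symm.trans hbe.symm)
        omega
  -- F6
  have hc6 : F6.card ≤ ∑ l ∈ Finset.Ico (6 * lam) n, (D.aU l κ').card := by
    refine le_trans ?_ (Finset.card_biUnion_le)
    apply Finset.card_le_card_of_injOn θ
    · intro t ht
      rw [Finset.mem_coe, hF6, Finset.mem_filter] at ht
      obtain ⟨b1, b2, b3, b4, b5, b6, b7, b8⟩ := hFrspec t ht.1
      have q2 := hA t (hSR (hFS b1))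
      have q3 := hA (nx t) (hSR (hFS b6))
      have q4 := hpair t (hFS b1) (nx t) (hFS b6) b7 b8
      rw [Finset.mem_coe, Finset.mem_biUnion]
      refine ⟨(P t).lev, ?_, ?_⟩
      · rw [Finset.mem_Ico]
        refine ⟨?_, (U_idx q2.2.1).2⟩
        rw [hF, Finset.mem_filter] at b1
        exact b1.2
      · rw [aU, Finset.mem_filter]
        refine ⟨mem_turns.2 q2.2.1.1, P t, rfl, P (nx t), θ (nx t), q2.2.1, q3.2.1, q4.2.2.1, ?_, ?_,
          ht.2⟩
        · have := D.le_self' (nx t) (D.X (nx t))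
          have := q3.2.2.2.1
          have := q4.1
          omega
        · have h1 := q3.2.2.2.2.1
          rw [← b8] at h1
          have h2 := q2.2.2.1
          obtain ⟨h21, h22, h23⟩ := h2
          have := (P t).lo_lt
          have := (blk t).mid_lt
          omega
    · intro a ha b hb he
      rw [Finset.mem_coe, hF6, Finset.mem_filter] at ha hb
      have b1 := (hFrspec a ha.1).1
      have b1' := (hFrspec b hb.1).1
      have q1 := hA a (hSR (hFS b1))
      have q2 := hA b (hSR (hFS b1'))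
      have r1 := q1.1.2.1
      have r2 := q2.1.2.1
      have m1 := (blk a).mid_lt
      have m2 := (blk b).mid_lt
      have w1 := q1.2.2.2
      have w2 := q2.2.2.2
      rw [he] at w1
      have hbe : blk a = blk b := Blk.eq_of_memL (x := D.X (θ b))
        ((hlev a (hSR (hFS b1))).trans (hlev b (hSR (hFS b1'))).symm) (by omega) (by omega)
        (by omega) (by omega)
      have t1 := q1.basic.1
      have t2 := q2.basic.1
      rcases lt_trichotomy a b with e | e | e
      · have := (hpair a (hFS b1) b (hFS b1') e hbe).2.1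
        omega
      · exact e
      · have := (hpair b (hFS b1') a (hFS b1) e hbe.symm).2.1
        omega
  refine ⟨F1.card, F5.card, hc1, hc5, hS3.trans (Nat.mul_le_mul_left _ ?_)⟩
  have hexp : (n / 2 ^ lam) * (6 * lam + 2 + m) =
    (n / 2 ^ lam) * (6 * lam) + 2 * (n / 2 ^ lam) + m * (n / 2 ^ lam) := by ring
  rw [hexp]
  omega

end Dyn

end Pool.Agent.TA
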