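import Pool.Agent.Lib_helper56.TA.UBase

/-!
# Number of turns of type V
-/

open scoped Classical

namespace Pool.Agent.TA

namespace Dyn

variable {n : ℕ} (D : Dyn n)

/-- the class of future rows of `B` whose upper node is moved over `X t` by the ascent `α`, leaving
out the last `c` rows -/
noncomputable def cls (c : ℕ) (B : Blk) (t α : ℕ) : Finset ℕ :=
  D.turns.filter (fun t' => t < t' ∧ D.V B t' ∧ D.L α (D.Z t') = D.L α (D.X t) ∧
    c ≤ (D.turns.filter (fun u => t < u ∧ D.V B u ∧ D.Z t' < D.Z u)).card)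

/-- good rows -/
def GoodV (c g : ℕ → ℕ) (B : Blk) (t α : ℕ) : Prop :=
  D.V B t ∧ t < α ∧ D.as α (D.X t) ∧ g B.lev ≤ (D.cls (c B.lev) B t α).card

variable {D}

lemma mem_cls {c : ℕ} {B : Blk} {t α t' : ℕ} (h : t' ∈ D.cls c B t α) :
    t < t' ∧ D.V B t' ∧ D.L α (D.Z t') = D.L α (D.X t) ∧
    c ≤ (D.turns.filter (fun u => t < u ∧ D.V B u ∧ D.Z t' < D.Z u)).card := by
  rw [cls, Finset.mem_filter] at h
  exact h.2

lemma cls_jump {c : ℕ} {B : Blk} {t α t' : ℕ} (hB : D.V B t) (ha : D.as α (D.X t))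
    (h : t' ∈ D.cls c B t α) : D.jump α (D.X t) (D.Z t') := by
  have h1 := mem_cls h
  refine as_jump ha ?_ h1.2.2.1
  have := hB.2.1
  have := h1.2.1.2.2.2.2.1
  have := B.lo_lt
  omega

lemma cls_inj {c : ℕ} {B : Blk} {t α x y : ℕ} (hx : x ∈ D.cls c B t α) (hy : y ∈ D.cls c B t α)
    (h : D.Z x = D.Z y) : x = y :=
  (V_inj (mem_cls hx).2.1 (mem_cls hy).2.1 rfl h).1

/-- nestedness of rows with the same lowest node -/
lemma nestV {B B1 : Blk} {t t1 v : ℕ} (h : D.V B t) (h1 : D.V B1 t1) (hX : D.X t = D.X t1)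
    (ht : t < t1) (hv : v < B.hi) (hxv : D.X t < v) (hL : D.L (t1 + 1) v ≤ D.X t) :
    B1.inR B ∧ D.Z t1 < v ∧ D.Z t < D.Y t1 := by
  obtain ⟨u0, u1, u2, u3, u4, u5⟩ := h
  obtain ⟨w0, w1, w2, w3, w4, w5⟩ := h1
  have s1 := turn_spec w0
  have e1 := D.le_self' t1 (D.X t1)
  have c1 : D.Z t < D.Y t1 := by
    by_contra hc
    have := after1 u0 (u := D.Y t1) (s := t1) (by omega) (by omega) ht
    have := s1.2.2.2.1
    omega
  have c2 : D.Z t1 < v := by
    by_contra hc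
    have := after1 w0 (u := v) (s := t1 + 1) (by omega) (by omega) (by omega)
    omega
  refine ⟨?_, c2, c1⟩
  have := B.lo_lt; have := B.mid_lt; have := B1.lo_lt; have := B1.mid_lt
  rcases Blk.nest B1 B with c | c | c | c | c | c | c
  · subst c; omega
  · omega
  · omega
  · obtain ⟨d1, d2, d3⟩ := c; omega
  · exact c
  · obtain ⟨d1, d2, d3⟩ := c; omega
  · obtain ⟨d1, d2, d3⟩ := c; omega

end Dyn

end Pool.Agent.TA
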