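import Pool.Agent.Lib_helper56.TA.VNotGood

/-!
# Good rows of type V
-/

open scoped Classical

namespace Pool.Agent.TA

namespace Dyn

variable {n : ℕ} {D : Dyn n}

/-- number of elements of a class inside an interval of upper nodes -/
lemma cls_card_le {c : ℕ} {B : Blk} {t α a k : ℕ} (S : Finset ℕ) (hS : S ⊆ D.cls c B t α)
    (h1 : ∀ x ∈ S, a ≤ D.Z x) (h2 : ∀ x ∈ S, D.Z x < a + k) : S.card ≤ k := by
  have : (Finset.Ico a (a + k)).card = k := by rw [Nat.card_Ico]; omega
  rw [← this]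
  apply Finset.card_le_card_of_injOn D.Z
  · intro x hx
    rw [Finset.mem_coe] at hx
    exact Finset.mem_coe.2 (Finset.mem_Ico.2 ⟨h1 x hx, h2 x hx⟩)
  · intro x hx y hy he
    exact cls_inj (hS hx) (hS hy) he

set_option maxHeartbeats 4000000 in
theorem V_good (l0 : ℕ) (κ c g : ℕ → ℕ) (hg : ∀ l, l0 ≤ l → 1 ≤ g l)
    (hfar : ∀ l l', l0 ≤ l → 6 * l ≤ l' → 2 ^ l < g l') :
    ∃ r : ℕ → ℕ, (∀ l, r l * κ l ≤ 2 * D.numTurns) ∧
    (D.turns.filter (fun t => ∃ B : Blk, l0 ≤ B.lev ∧ ∃ α, D.GoodV c g B t α)).card ≤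
      (n + D.numAscs) + 2 * D.numAscs +
      ∑ l ∈ Finset.Ico l0 n, (r l + ((κ l + 2) ^ 2 + 1) * ((n / 2 ^ l) * (6 * l)) +
        (D.aV c g l (κ l) 0).card) := by
  set GR := D.turns.filter (fun t => ∃ B : Blk, l0 ≤ B.lev ∧ ∃ α, D.GoodV c g B t α) with hGR
  have hex : ∀ t ∈ GR, ∃ B : Blk, ∃ α : ℕ, l0 ≤ B.lev ∧ D.GoodV c g B t α := by
    intro t ht
    rw [hGR, Finset.mem_filter] at ht
    obtain ⟨_, B, h1, α, h2⟩ := ht
    exact ⟨B, α, h1, h2⟩
  have : Nonempty Blk := ⟨⟨0, 0⟩⟩
  choose! blk α hlev hG using hex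
  -- classes
  set cl : ℕ → Finset ℕ := fun t => D.cls (c (blk t).lev) (blk t) t (α t) with hcl
  have hclj : ∀ t ∈ GR, ∀ t' ∈ cl t, D.jump (α t) (D.X t) (D.Z t') := by
    intro t ht t' ht'
    exact cls_jump (hG t ht).1 (hG t ht).2.2.1 ht'
  have hclne : ∀ t ∈ GR, (cl t).Nonempty := by
    intro t ht
    rw [← Finset.card_pos]
    have h1 := (hG t ht).2.2.2
    have h2 := hg _ (hlev t ht)
    exact lt_of_lt_of_le h2 h1
  set pvs : ℕ → Finset ℕ := fun t => GR.filter (fun σ => σ < t ∧ D.X σ = D.X t ∧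
    ∀ s, σ < s → s < t → ¬ D.as s (D.X t)) with hpvs
  set Fi := GR.filter (fun t => ¬ (pvs t).Nonempty) with hFi
  set Ot := GR.filter (fun t => (pvs t).Nonempty) with hOt
  have hGRc : GR.card = Ot.card + Fi.card := by
    rw [hOt, hFi]
    exact (Finset.card_filter_add_card_filter_not _).symm
  have hFic : Fi.card ≤ n + D.numAscs := by
    apply run_count
    · intro t ht
      exact (hG t (Finset.mem_filter.1 ht).1).1.1
    · intro t ht t' ht' htt hX
      have ht1 := Finset.mem_filter.1 ht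
      have ht1' := Finset.mem_filter.1 ht'
      by_contra hcon
      push Not at hcon
      refine ht1'.2 ⟨t, Finset.mem_filter.2 ⟨ht1.1, htt, hX, fun s h1 h2 => ?_⟩⟩
      rw [← hX]; exact hcon s h1 h2
  have hpvex : ∀ t ∈ Ot, ∃ σ, σ ∈ pvs t ∧ ∀ σ' ∈ pvs t, σ' ≤ σ := by
    intro t ht
    have h1 := (Finset.mem_filter.1 ht).2
    exact ⟨(pvs t).max' h1, Finset.max'_mem _ h1, fun σ' h => Finset.le_max' _ _ h⟩
  choose! pv hpv1 hpv2 using hpvex
  have hspec : ∀ t ∈ Ot, t ∈ GR ∧ pv t ∈ GR ∧ pv t < t ∧ D.X (pv t) = D.X t ∧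
      (∀ s, pv t < s → s < t → ¬ D.as s (D.X t)) := by
    intro t ht
    have h1 := Finset.mem_filter.1 (hpv1 t ht)
    exact ⟨(Finset.mem_filter.1 ht).1, h1.1, h1.2.1, h1.2.2.1, h1.2.2.2⟩
  have hpvmax : ∀ t ∈ Ot, ∀ σ' ∈ GR, σ' < t → D.X σ' = D.X t →
      (∀ s, σ' < s → s < t → ¬ D.as s (D.X t)) → σ' ≤ pv t := by
    intro t ht σ' h1 h2 h3 h4
    exact hpv2 t ht σ' (Finset.mem_filter.2 ⟨h1, h2, h3, h4⟩)
  have hαpv : ∀ t ∈ Ot, t < α (pv t) := by
    intro t ht
    obtain ⟨a1, a2, a3, a4, a5⟩ := hspec t ht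
    have g1 := hG (pv t) a2
    rcases lt_trichotomy t (α (pv t)) with e | e | e
    · exact e
    · have := g1.2.2.1
      rw [← e] at this
      exact (not_tu_as (hG t a1).1.1 this).elim
    · exfalso
      refine a5 (α (pv t)) g1.2.1 e ?_
      rw [← a4]; exact g1.2.2.1
  have hin : ∀ t ∈ Ot, (blk t).inR (blk (pv t)) := by
    intro t ht
    obtain ⟨a1, a2, a3, a4, a5⟩ := hspec t ht
    obtain ⟨x, hx⟩ := hclne (pv t) a2
    have hj := hclj (pv t) a2 x hx
    have hm := mem_cls hx
    have := hαpv t ht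
    exact (nestV (hG (pv t) a2).1 (hG t a1).1 a4 a3 hm.2.1.2.2.2.2.2 (jump_spec hj).1
      (jump_before hj (by omega))).1
  set JJ : ℕ → Finset ℕ := fun t => D.turns.filter
    (fun s => pv t < s ∧ s ≤ t ∧ (D.X s = D.X (pv t) ∨ D.Y s = D.X (pv t))) with hJJ
  set He : ℕ → Finset ℕ := fun l => Ot.filter (fun t => (blk t).lev = l ∧ κ l < (JJ t).card)
    with hHe
  set Ne : ℕ → Finset ℕ := fun l => Ot.filter (fun t => (blk t).lev = l ∧ (JJ t).card ≤ κ l ∧
    (blk (pv t)).lev < 6 * l) with hNe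
  set Sp := Ot.filter (fun t => 6 * (blk t).lev ≤ (blk (pv t)).lev ∧ α t ≠ α (pv t)) with hSp
  have hPre : ∀ t ∈ Ot, (JJ t).card ≤ κ (blk t).lev →
      D.PreV (κ (blk t).lev) 0 (blk t) t (blk (pv t)) (pv t) t := by
    intro t ht hc
    obtain ⟨a1, a2, a3, a4, a5⟩ := hspec t ht
    have v1 := (hG t a1).1
    have v2 := (hG (pv t) a2).1
    refine ⟨⟨v1, v2, hin t ht, by omega⟩, ⟨a3, v1.1, a4.symm, v1.2.2.2.2.1, ?_⟩, hc, le_rfl, ?_, ?_⟩
    · intro s h1 h2
      rw [a4]; exact a5 s h1 h2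
    · refine (Finset.card_eq_zero.2 (Finset.filter_eq_empty_iff.2 ?_)).le
      intro x _ hx
      omega
    · intro H' _ _
      refine (Finset.card_eq_zero.2 (Finset.filter_eq_empty_iff.2 ?_)).le
      intro x _ hx
      omega
  -- heavy
  have hcHe : ∀ l, (He l).card * κ l ≤ 2 * D.numTurns := by
    intro l
    refine le_trans (charge (He l) JJ D.JT (κ l) ?_ (fun t s e => e = (s, D.X t)) ?_ ?_) D.JT_card
    · intro t ht
      exact (Finset.mem_filter.1 ht).2.2.le
    · intro t ht s hs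
      have ht1 := (Finset.mem_filter.1 ht).1
      have hs1 := Finset.mem_filter.1 hs
      have := (hspec t ht1).2.2.2.1
      rw [this] at hs1
      exact ⟨_, mem_JT (mem_turns.1 hs1.1) hs1.2.2.2, rfl⟩
    · intro t ht s hs t' ht' s' hs' e he he'
      rw [he] at he'
      simp only [Prod.mk.injEq] at he'
      obtain ⟨e1, e2⟩ := he'
      subst e1
      refine ⟨?_, rfl⟩
      have ht1 := (Finset.mem_filter.1 ht).1
      have ht1' := (Finset.mem_filter.1 ht').1
      have hs1 := (Finset.mem_filter.1 hs).2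
      have hs1' := (Finset.mem_filter.1 hs').2
      obtain ⟨a1, a2, a3, a4, a5⟩ := hspec t ht1
      obtain ⟨b1, b2, b3, b4, b5⟩ := hspec t' ht1'
      rcases lt_trichotomy t t' with e | e | e
      · have := hpvmax t' ht1' t a1 e e2 (fun q h1 h2 => b5 q (by omega) h2)
        omega
      · exact e
      · have := hpvmax t ht1 t' b1 e e2.symm (fun q h1 h2 => a5 q (by omega) h2)
        omega
  -- near
  have hcNe : ∀ l, (Ne l).card ≤ ((κ l + 2) ^ 2 + 1) * ((n / 2 ^ l) * (6 * l)) := by
    intro l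
    obtain ⟨S, hS1, hS2, -, hS4⟩ := V_thin (D := D) l (κ l) 0 (Ne l) blk (fun t => blk (pv t)) pv
      (fun t => t) (fun t ht => (Finset.mem_filter.1 ht).2.1) (fun t ht => by
        have h1 := Finset.mem_filter.1 ht
        have h2 := hPre t h1.1 (by rw [h1.2.1]; exact h1.2.2.1)
        rw [h1.2.1] at h2
        exact h2)
    have h3 : S.filter (fun t => (blk (pv t)).lev < 6 * l) = S := by
      apply Finset.filter_true_of_mem
      intro t ht
      exact (Finset.mem_filter.1 (hS1 ht)).2.2.2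
    rw [h3] at hS4
    calc (Ne l).card ≤ ((0 + 1) * ((κ l + 2) ^ 2 + 1)) * S.card := hS2
      _ ≤ ((0 + 1) * ((κ l + 2) ^ 2 + 1)) * ((n / 2 ^ l) * (6 * l)) := Nat.mul_le_mul_left _ hS4
      _ = _ := by ring
  -- split
  have hcSp : Sp.card ≤ 2 * D.numAscs := by
    rw [← ascs_card]
    apply card_le_two_mul Sp α D.ascs
    · intro t ht
      have ht1 := (Finset.mem_filter.1 ht).1
      exact as_mem_ascs (hG t (hspec t ht1).1).2.2.1
    · intro t1 h1 t2 h2 t3 h3 h12 h23 e12 e23
      have o1 := (Finset.mem_filter.1 h1).1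
      have o2 := (Finset.mem_filter.1 h2).1
      have o3 := (Finset.mem_filter.1 h3).1
      have s2 := (Finset.mem_filter.1 h2).2
      have s3 := (Finset.mem_filter.1 h3).2
      obtain ⟨a1, a2, a3, a4, a5⟩ := hspec t1 o1
      obtain ⟨b1, b2, b3, b4, b5⟩ := hspec t2 o2
      obtain ⟨c1, c2, c3, c4, c5⟩ := hspec t3 o3
      have g1 := hG t1 a1
      have g2 := hG t2 b1
      have g3 := hG t3 c1
      have gp2 := hG (pv t2) b2
      have gp3 := hG (pv t3) c2
      have hX12 : D.X t1 = D.X t2 := by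
        have h := g1.2.2.1
        rw [e12] at h
        rw [← tu_X_asc h, ← tu_X_asc g2.2.2.1]
      have hX23 : D.X t2 = D.X t3 := by
        have h := g2.2.2.1
        rw [e23] at h
        rw [← tu_X_asc h, ← tu_X_asc g3.2.2.1]
      -- order
      have ord : ∀ t ∈ GR, ∀ u ∈ Ot, t < u → D.X t = D.X u → t ≤ pv u := by
        intro t ht u hu htu hX
        obtain ⟨q1, q2, q3, q4, q5⟩ := hspec u hu
        by_contra hcon
        have := hpvmax u hu t ht htu hX (fun s k1 k2 => q5 s (by omega) k2)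
        omega
      have ord12 := ord t1 a1 t2 o2 h12 hX12
      have ord23 := ord t2 b1 t3 o3 h23 hX23
      have hne23 : t2 ≠ pv t3 := by
        intro he
        apply s3.2
        rw [← he, e23]
      have hlt23 : t2 < pv t3 := by omega
      -- classes
      obtain ⟨x1, hx1⟩ := hclne t1 a1
      obtain ⟨x2, hx2⟩ := hclne t2 b1
      have j1 := hclj t1 a1 x1 hx1
      have j2 := hclj t2 b1 x2 hx2
      have hα3 : t3 < α t3 := g3.2.1
      -- levels
      have lev12 : (blk (pv t2)).lev ≤ (blk t1).lev := by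
        rcases ord12.eq_or_lt with he | he
        · rw [← he]
        · have := (nestV g1.1 gp2.1 (by omega) he (mem_cls hx1).2.1.2.2.2.2.2 (jump_spec j1).1
            (jump_before j1 (by omega))).1
          exact this.2.2.le
      have n23 := nestV g2.1 gp3.1 (by omega) hlt23 (mem_cls hx2).2.1.2.2.2.2.2 (jump_spec j2).1
            (jump_before j2 (by omega))
      have lev23 := n23.1.2.2
      -- an element of the class of `t1` above `G3`
      have hbig1 : ∃ x ∈ cl t1, (blk (pv t3)).hi ≤ D.Z x := by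
        by_contra hcon
        push Not at hcon
        have hc := cls_card_le (cl t1) (Finset.Subset.refl _) (a := (blk (pv t3)).mid)
          (k := 2 ^ (blk (pv t3)).lev)
          (by
            intro x hx
            have jx := hclj t1 a1 x hx
            have hb := jump_before jx (show pv t3 + 1 ≤ α t1 by omega)
            have hmid := gp3.1.2.2.2.2.1
            by_contra hc
            have := after1 gp3.1.1 (u := D.Z x) (s := pv t3 + 1)
              (by have := (jump_spec jx).1; omega) (by omega) (by omega)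
            omega)
          (by
            intro x hx
            have := hcon x hx
            rw [Blk.hi_eq] at this
            exact this)
        have h1 := g1.2.2.2
        have h2 := hfar (blk t2).lev (blk t1).lev (hlev t2 b1) (by omega)
        have h3 : 2 ^ (blk (pv t3)).lev ≤ 2 ^ (blk t2).lev :=
          Nat.pow_le_pow_right (by norm_num) lev23.le
        have h4 : g (blk t1).lev ≤ (cl t1).card := h1
        omega
      obtain ⟨v1, hv1, hv1'⟩ := hbig1
      have jv1 := hclj t1 a1 v1 hv1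
      obtain ⟨x3, hx3⟩ := hclne t3 c1
      have j3 := hclj t3 c1 x3 hx3
      -- the class of `pv t3`
      have hall : ∀ w ∈ cl (pv t3), (blk t3).mid ≤ D.Z w ∧
          D.Z w < (blk t3).mid + 2 ^ (blk t3).lev := by
        intro w hw
        have jw := hclj (pv t3) c2 w hw
        have hwhi := (mem_cls hw).2.1.2.2.2.2.2
        have hXe : D.X (pv t3) = D.X t1 := by omega
        have jw' := jw
        rw [hXe] at jw'
        have hle : α (pv t3) ≤ α t1 := jump_mono jw' jv1 (by omega)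
        have hne : α (pv t3) ≠ α t1 := by
          intro he
          apply s3.2
          rw [he, e12, e23]
        have hgt := hαpv t3 o3
        constructor
        · have hb := jump_before jw (show t3 + 1 ≤ α (pv t3) by omega)
          have hmid := g3.1.2.2.2.2.1
          by_contra hc
          have := after1 g3.1.1 (u := D.Z w) (s := t3 + 1)
            (by have := (jump_spec jw).1; omega) (by omega) (by omega)
          omega
        · have h1 := (mem_cls hx3).2.1.2.2.2.2.2
          rw [Blk.hi_eq] at h1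
          by_contra hc
          have hXe3 : D.X (pv t3) = D.X t3 := by omega
          rw [hXe3] at jw
          have := jump_mono j3 jw (by omega)
          omega
      have hc := cls_card_le (cl (pv t3)) (Finset.Subset.refl _) (a := (blk t3).mid)
          (k := 2 ^ (blk t3).lev) (fun x hx => (hall x hx).1) (fun x hx => (hall x hx).2)
      have h1 := gp3.2.2.2
      have h2 := hfar (blk t3).lev (blk (pv t3)).lev (hlev t3 c1) s3.1
      have h4 : g (blk (pv t3)).lev ≤ (cl (pv t3)).card := h1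
      omega
  refine ⟨fun l => (He l).card, hcHe, ?_⟩
  have hcov : Ot ⊆ Sp ∪ (Finset.Ico l0 n).biUnion (fun l => (He l ∪ Ne l) ∪ D.aV c g l (κ l) 0) := by
    intro t ht
    obtain ⟨a1, a2, a3, a4, a5⟩ := hspec t ht
    have g1 := hG t a1
    have g2 := hG (pv t) a2
    rw [Finset.mem_union]
    by_cases c1 : 6 * (blk t).lev ≤ (blk (pv t)).lev ∧ α t ≠ α (pv t)
    · left; exact Finset.mem_filter.2 ⟨ht, c1⟩
    right
    rw [Finset.mem_biUnion]
    refine ⟨(blk t).lev, Finset.mem_Ico.2 ⟨hlev t a1, (V_idx g1.1).2⟩, ?_⟩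
    rw [Finset.mem_union, Finset.mem_union]
    by_cases c2 : κ (blk t).lev < (JJ t).card
    · left; left; exact Finset.mem_filter.2 ⟨ht, rfl, c2⟩
    by_cases c3 : (blk (pv t)).lev < 6 * (blk t).lev
    · left; right; exact Finset.mem_filter.2 ⟨ht, rfl, by omega, c3⟩
    right
    have hα : α t = α (pv t) := by
      by_contra hc
      exact c1 ⟨by omega, hc⟩
    obtain ⟨x, hx⟩ := hclne t a1
    obtain ⟨y, hy, hymax⟩ := Finset.exists_max_image (cl (pv t)) D.Z (hclne (pv t) a2)
    have mx := mem_cls hx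
    have my := mem_cls hy
    rw [aV, Finset.mem_filter]
    refine ⟨mem_turns.2 g1.1.1, blk t, rfl, blk (pv t), pv t, t, α t, y, D.Z x,
      hPre t ht (by omega), ⟨g1.2.1, ?_, mx.2.1.2.2.2.2.1, mx.2.1.2.2.2.2.2, ?_⟩,
      ⟨my.2.1, my.1, ?_, ?_⟩, mx.2.2.2⟩
    · rw [a4]; exact g1.2.2.1
    · rw [a4]; exact mx.2.2.1
    · rw [hα]; exact my.2.2.1
    · refine g2.2.2.2.trans (Finset.card_le_card ?_)
      intro w hw
      have mw := mem_cls hw
      exact Finset.mem_filter.2 ⟨mem_turns.2 mw.2.1.1, mw.1, mw.2.1, hymax w hw⟩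
  have hOtc : Ot.card ≤ 2 * D.numAscs + ∑ l ∈ Finset.Ico l0 n, ((He l).card +
      ((κ l + 2) ^ 2 + 1) * ((n / 2 ^ l) * (6 * l)) + (D.aV c g l (κ l) 0).card) := by
    refine (Finset.card_le_card hcov).trans ((Finset.card_union_le _ _).trans
      (Nat.add_le_add hcSp (Finset.card_biUnion_le.trans (Finset.sum_le_sum ?_))))
    intro l _
    refine (Finset.card_union_le _ _).trans (Nat.add_le_add_right ?_ _)
    exact (Finset.card_union_le _ _).trans (Nat.add_le_add_left (hcNe l) _)
  change _ ≤ (n + D.numAscs) + 2 * D.numAscs +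
      ∑ l ∈ Finset.Ico l0 n, ((He l).card + ((κ l + 2) ^ 2 + 1) * ((n / 2 ^ l) * (6 * l)) +
        (D.aV c g l (κ l) 0).card)
  omega

end Dyn

end Pool.Agent.TA
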