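import Pool.Agent.Lib_helper56.TA.VBase

/-!
# Rows of type V that are not good
-/

open scoped Classical

namespace Pool.Agent.TA

namespace Dyn

variable {n : ℕ} {D : Dyn n}

set_option maxHeartbeats 4000000 in
theorem V_notgood (l : ℕ) (c g : ℕ → ℕ) (κ' m h : ℕ) (hm : 1 ≤ m) (hg : 1 ≤ g l)
    (hh : κ' + c l + m * g l ≤ h) :
    ∃ r1 r2, r1 * κ' ≤ 2 * D.numTurns ∧ r2 * m ≤ D.numAscs ∧
      (D.turns.filter (fun t => ∃ B : Blk, B.lev = l ∧ D.V B t ∧ ¬ ∃ α, D.GoodV c g B t α)).card ≤
        (n / 2 ^ l) * h + r1 + r2 := by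
  set R := D.turns.filter (fun t => ∃ B : Blk, B.lev = l ∧ D.V B t ∧ ¬ ∃ α, D.GoodV c g B t α)
    with hR
  have hex : ∀ t ∈ R, ∃ B : Blk, B.lev = l ∧ D.V B t ∧ ¬ ∃ α, D.GoodV c g B t α := by
    intro t ht
    rw [hR, Finset.mem_filter] at ht
    exact ht.2
  have : Nonempty Blk := ⟨⟨0, 0⟩⟩
  choose! blk hlev hV hng using hex
  set fut : ℕ → Finset ℕ := fun t => D.turns.filter (fun t' => t < t' ∧ D.V (blk t) t') with hfut
  set TJ : ℕ → Finset ℕ := fun t => (fut t).filter
    (fun t' => ∃ s, D.tu s ∧ D.jump s (D.X t) (D.Z t')) with hTJ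
  set AS : ℕ → Finset ℕ := fun t => D.ascs.filter
    (fun α => ∃ t' ∈ fut t, D.jump α (D.X t) (D.Z t')) with hAS
  set R1 := R.filter (fun t => (fut t).card < h) with hR1
  set R2 := R.filter (fun t => κ' < (TJ t).card) with hR2
  set R3 := R.filter (fun t => m < (AS t).card) with hR3
  have hblk : ∀ a ∈ R, ∀ b ∈ R, (blk a).idx = (blk b).idx → blk a = blk b := by
    intro a ha b hb he
    exact Blk.ext ((hlev a ha).trans (hlev b hb).symm) he
  have hc1 : R1.card ≤ (n / 2 ^ l) * h := by
    have h1 : R1.card ≤ ((Finset.range (n / 2 ^ l)) ×ˢ (Finset.range h)).card := by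
      apply Finset.card_le_card_of_injOn (fun t => ((blk t).idx, (fut t).card))
      · intro t ht
        rw [Finset.mem_coe, hR1, Finset.mem_filter] at ht
        have h2 := (V_idx (hV t ht.1)).1
        rw [hlev t ht.1] at h2
        rw [Finset.mem_coe, Finset.mem_product]
        exact ⟨Finset.mem_range.2 h2, Finset.mem_range.2 ht.2⟩
      · have key : ∀ a ∈ R, ∀ b ∈ R, a < b → blk a = blk b → (fut b).card < (fut a).card := by
          intro a ha b hb hab he
          apply Finset.card_lt_card
          have hbm : b ∈ fut a := by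
            rw [hfut, Finset.mem_filter]
            refine ⟨mem_turns.2 (hV b hb).1, hab, ?_⟩
            rw [he]; exact hV b hb
          refine ⟨?_, fun hcon => ?_⟩
          · intro x hx
            rw [hfut, Finset.mem_filter] at hx ⊢
            refine ⟨hx.1, by omega, ?_⟩
            rw [he]; exact hx.2.2
          · have := hcon hbm
            rw [hfut, Finset.mem_filter] at this
            omega
        intro a ha b hb he
        rw [Finset.mem_coe, hR1, Finset.mem_filter] at ha hb
        simp only [Prod.mk.injEq] at he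
        have hbe := hblk a ha.1 b hb.1 he.1
        rcases lt_trichotomy a b with e | e | e
        · have := key a ha.1 b hb.1 e hbe; omega
        · exact e
        · have := key b hb.1 a ha.1 e hbe.symm; omega
    rwa [Finset.card_product, Finset.card_range, Finset.card_range] at h1
  have hc2 : R2.card * κ' ≤ 2 * D.numTurns := by
    refine le_trans (charge R2 TJ D.TV κ' ?_ (fun t t' e => e.2 = D.Z t' ∧ D.tu e.1 ∧
      D.jump e.1 (D.X t) (D.Z t')) ?_ ?_) D.TV_card
    · intro t ht
      rw [hR2, Finset.mem_filter] at ht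
      exact ht.2.le
    · intro t ht t' ht'
      rw [hTJ, Finset.mem_filter] at ht'
      obtain ⟨_, s, s1, s2⟩ := ht'
      refine ⟨(s, D.Z t'), mem_TV s1 ?_, rfl, s1, s2⟩
      rcases (jump_spec s2).2.2 with e | e | e
      · exact (not_tu_as s1 e).elim
      · left; exact e.2.2
      · right; exact e.2.2
    · intro t ht t' ht' u hu u' hu' e he he'
      rw [hR2, Finset.mem_filter] at ht hu
      rw [hTJ, Finset.mem_filter, hfut, Finset.mem_filter] at ht' hu'
      obtain ⟨e1, e2, e3⟩ := he
      obtain ⟨f1, f2, f3⟩ := he'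
      have hZ : D.Z t' = D.Z u' := by rw [← e1, ← f1]
      have g1 := V_inj ht'.1.2.2 hu'.1.2.2 ((hlev t ht.1).trans (hlev u hu.1).symm) hZ
      have hX : D.X t = D.X u := by
        have h1 := e3.2
        have h2 := f3.2
        rw [hZ] at h1
        omega
      refine ⟨?_, g1.1⟩
      have v1 := hV t ht.1
      have v2 := hV u hu.1
      rw [← g1.2] at v2
      rcases lt_trichotomy t u with c | c | c
      · have := V_X_lt v1 v2 c; omega
      · exact c
      · have := V_X_lt v2 v1 c; omega
  have hc3 : R3.card * m ≤ D.numAscs := by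
    rw [← ascs_card]
    refine charge R3 AS D.ascs m ?_ (fun t α e => e = α) ?_ ?_
    · intro t ht
      rw [hR3, Finset.mem_filter] at ht
      exact ht.2.le
    · intro t ht α hα
      rw [hAS, Finset.mem_filter] at hα
      exact ⟨α, hα.1, rfl⟩
    · intro t ht α hα u hu α' hα' e he he'
      subst he
      subst he'
      refine ⟨?_, rfl⟩
      rw [hR3, Finset.mem_filter] at ht hu
      rw [hAS, Finset.mem_filter] at hα hα'
      have key : ∀ a ∈ R, ∀ b ∈ R, a < b → (∃ t' ∈ fut a, D.jump e (D.X a) (D.Z t')) →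
          (∃ t' ∈ fut b, D.jump e (D.X b) (D.Z t')) → D.as e (D.X e) → False := by
        rintro a ha b hb hab ⟨x, hx, jx⟩ ⟨y, hy, jy⟩ has
        rw [hfut, Finset.mem_filter] at hx hy
        have hXa : D.X e = D.X a := by
          rcases (jump_spec jx).2.2 with e | e | e
          · exact tu_X_asc e
          · exact (not_tu_as e.1 has).elim
          · exact (not_tu_as e.1 has).elim
        have hXb : D.X e = D.X b := by
          rcases (jump_spec jy).2.2 with e | e | e
          · exact tu_X_asc e
          · exact (not_tu_as e.1 has).elim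
          · exact (not_tu_as e.1 has).elim
        have vb := hV b hb
        have he : b < e := by
          obtain ⟨s, s1, s2, s3⟩ := (V1 vb hy.2.2 hy.2.1).2.2.2
          have := jump_unique jy s3
          omega
        have h1 := nestV (hV a ha) vb (by omega) hab hx.2.2.2.2.2.2.2 (jump_spec jx).1
          (jump_before jx (by omega))
        have := h1.1.2.2
        have := hlev a ha
        have := hlev b hb
        omega
      rcases lt_trichotomy t u with c | c | c
      · exact (key t ht.1 u hu.1 c hα.2 hα'.2 (mem_ascs.1 hα.1)).elim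
      · exact c
      · exact (key u hu.1 t ht.1 c hα'.2 hα.2 (mem_ascs.1 hα.1)).elim
  have hcover : R ⊆ R1 ∪ R2 ∪ R3 := by
    intro t ht
    rw [Finset.mem_union, Finset.mem_union]
    by_cases k1 : (fut t).card < h
    · left; left; exact Finset.mem_filter.2 ⟨ht, k1⟩
    by_cases k2 : κ' < (TJ t).card
    · left; right; exact Finset.mem_filter.2 ⟨ht, k2⟩
    by_cases k3 : m < (AS t).card
    · right; exact Finset.mem_filter.2 ⟨ht, k3⟩
    exfalso
    have k3 : (AS t).card ≤ m := by omega
    refine hng t ht ?_
    have hVt := hV t ht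
    have hJ : ∀ t' ∈ fut t, ∃ s, t < s ∧ s < t' ∧ D.jump s (D.X t) (D.Z t') := by
      intro t' ht'
      rw [hfut, Finset.mem_filter] at ht'
      exact (V1 hVt ht'.2.2 ht'.2.1).2.2.2
    choose! J hJ1 hJ2 hJ3 using hJ
    set cnt : ℕ → ℕ := fun t' => (D.turns.filter
      (fun u => t < u ∧ D.V (blk t) u ∧ D.Z t' < D.Z u)).card with hcnt
    set E0 := (fut t) \ (TJ t) with hE0
    set E := E0.filter (fun t' => c l ≤ cnt t') with hE
    set E1 := E0.filter (fun t' => ¬ c l ≤ cnt t') with hE1
    have hE0c : h ≤ E0.card + κ' := by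
      have h1 : (fut t).card ≤ E0.card + (TJ t).card := by
        rw [hE0]
        exact Finset.card_le_card_sdiff_add_card
      omega
    have hE1c : E1.card ≤ c l := by
      rw [← Finset.card_range (c l)]
      have hfutmem : ∀ x ∈ E1, t < x ∧ D.V (blk t) x := by
        intro x hx
        rw [hE1, Finset.mem_filter, hE0, Finset.mem_sdiff, hfut, Finset.mem_filter] at hx
        exact hx.1.1.2
      apply Finset.card_le_card_of_injOn cnt
      · intro x hx
        rw [Finset.mem_coe, hE1, Finset.mem_filter] at hx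
        exact Finset.mem_coe.2 (Finset.mem_range.2 (by omega))
      · have key : ∀ x ∈ E1, ∀ y ∈ E1, x < y → cnt y < cnt x := by
          intro x hx y hy hxy
          obtain ⟨x1, x2⟩ := hfutmem x hx
          obtain ⟨y1, y2⟩ := hfutmem y hy
          have hz := (V1 x2 y2 hxy).2.1
          apply Finset.card_lt_card
          refine ⟨?_, fun hcon => ?_⟩
          · intro u hu
            rw [Finset.mem_filter] at hu ⊢
            exact ⟨hu.1, hu.2.1, hu.2.2.1, by omega⟩
          · have hmem : y ∈ D.turns.filter (fun u => t < u ∧ D.V (blk t) u ∧ D.Z x < D.Z u) := by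
              rw [Finset.mem_filter]
              exact ⟨mem_turns.2 y2.1, y1, y2, hz⟩
            have := hcon hmem
            rw [Finset.mem_filter] at this
            omega
        intro x hx y hy he
        rw [Finset.mem_coe] at hx hy
        rcases lt_trichotomy x y with e | e | e
        · have := key x hx y hy e; omega
        · exact e
        · have := key y hy x hx e; omega
    have hEc : m * g l ≤ E.card := by
      have h1 : E.card + E1.card = E0.card := by
        rw [hE, hE1]
        exact Finset.card_filter_add_card_filter_not _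
      omega
    have hEmem : ∀ x ∈ E, t < x ∧ D.V (blk t) x ∧ x ∈ fut t ∧ c l ≤ cnt x ∧
        D.as (J x) (D.X t) := by
      intro x hx
      rw [hE, Finset.mem_filter, hE0, Finset.mem_sdiff] at hx
      obtain ⟨⟨x1, x2⟩, x3⟩ := hx
      have x1' := x1
      rw [hfut, Finset.mem_filter] at x1'
      refine ⟨x1'.2.1, x1'.2.2, x1, x3, ?_⟩
      have hj := hJ3 x x1
      rcases (jump_spec hj).2.2 with e | e | e
      · exact e
      · exfalso; apply x2
        rw [hTJ, Finset.mem_filter]
        exact ⟨x1, J x, e.1, hj⟩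
      · exfalso; apply x2
        rw [hTJ, Finset.mem_filter]
        exact ⟨x1, J x, e.1, hj⟩
    have hmaps : ∀ x ∈ E, J x ∈ AS t := by
      intro x hx
      obtain ⟨x1, x2, x3, x4, x5⟩ := hEmem x hx
      rw [hAS, Finset.mem_filter]
      exact ⟨as_mem_ascs x5, x, x3, hJ3 x x3⟩
    have hEne : E.Nonempty := by
      rw [← Finset.card_pos]
      have : 1 * 1 ≤ m * g l := Nat.mul_le_mul hm hg
      omega
    obtain ⟨x0, hx0⟩ := hEne
    have hmul : (AS t).card * g l ≤ E.card :=
      (Nat.mul_le_mul_right _ k3).trans hEc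
    obtain ⟨α, hα, hcard⟩ := Finset.exists_le_card_fiber_of_mul_le_card_of_maps_to hmaps
      ⟨_, hmaps x0 hx0⟩ hmul
    have hsub : E.filter (fun x => J x = α) ⊆ D.cls (c l) (blk t) t α := by
      intro x hx
      rw [Finset.mem_filter] at hx
      obtain ⟨x1, x2, x3, x4, x5⟩ := hEmem x hx.1
      rw [cls, Finset.mem_filter]
      have hj := hJ3 x x3
      rw [hx.2] at hj
      exact ⟨mem_turns.2 x2.1, x1, x2, (jump_spec hj).2.1.symm, x4⟩
    have hα' : t < α ∧ D.as α (D.X t) := by
      have hne : (E.filter (fun x => J x = α)).Nonempty := by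
        rw [← Finset.card_pos]; omega
      obtain ⟨x, hx⟩ := hne
      rw [Finset.mem_filter] at hx
      obtain ⟨x1, x2, x3, x4, x5⟩ := hEmem x hx.1
      rw [← hx.2]
      exact ⟨hJ1 x x3, x5⟩
    refine ⟨α, hVt, hα'.1, hα'.2, ?_⟩
    rw [hlev t ht]
    exact hcard.trans (Finset.card_le_card hsub)
  refine ⟨R2.card, R3.card, hc2, hc3, ?_⟩
  refine (Finset.card_le_card hcover).trans ?_
  have h1 := Finset.card_union_le (R1 ∪ R2) R3
  have h2 := Finset.card_union_le R1 R2
  omega

end Dyn

end Pool.Agent.TA
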