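import Pool.Agent.Lib_helper56.TA.UPart

/-!
# Turns of type V
-/

open scoped Classical

namespace Pool.Agent.TA

lemma Blk.comp_R {C H H' : Blk} (h : C.inR H) (h' : C.inR H') :
    H = H' ∨ H.inR H' ∨ H'.inR H := by
  obtain ⟨a1, a2, a3⟩ := h
  obtain ⟨b1, b2, b3⟩ := h'
  have := C.lo_lt; have := C.mid_lt; have := H.lo_lt; have := H.mid_lt
  have := H'.lo_lt; have := H'.mid_lt
  rcases Blk.nest H H' with c | c | c | c | c | c | c
  · tauto
  · omega
  · omega
  · obtain ⟨d1, d2, d3⟩ := c; omega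
  · tauto
  · obtain ⟨d1, d2, d3⟩ := c; omega
  · tauto

lemma Blk.inR_trans {C H H' : Blk} (h : C.inR H) (h' : H.inR H') : C.inR H' := by
  obtain ⟨a1, a2, a3⟩ := h
  obtain ⟨b1, b2, b3⟩ := h'
  have := H.lo_lt; have := H.mid_lt
  exact ⟨by omega, by omega, by omega⟩

namespace Dyn

variable {n : ℕ} (D : Dyn n)

/-- the first five conditions of the association between a row `(C, τ)` and a row `(H, σ)` -/
def PreV (κ K : ℕ) (C : Blk) (τ : ℕ) (H : Blk) (σ π : ℕ) : Prop :=
  (D.V C τ ∧ D.V H σ ∧ C.inR H ∧ D.X τ ≤ D.X σ) ∧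
  (σ < π ∧ D.tu π ∧ D.X π = D.X σ ∧ C.mid ≤ D.Z π ∧ ∀ s, σ < s → s < π → ¬ D.as s (D.X σ)) ∧
  (D.turns.filter (fun s => σ < s ∧ s ≤ π ∧ (D.X s = D.X σ ∨ D.Y s = D.X σ))).card ≤ κ ∧
  τ ≤ π ∧
  (D.turns.filter (fun t => τ < t ∧ t ≤ π ∧ D.V C t)).card ≤ K ∧
  ∀ H', C.inR H' → D.X σ < H'.lo →
    (D.turns.filter (fun t => τ < t ∧ t ≤ π ∧ D.V H' t ∧ C.mid ≤ D.Z t)).card ≤ K

/-- the association between a row `(C, τ)` and a row `(H, σ)` -/
def AssocV (c g : ℕ → ℕ) (κ K : ℕ) (C : Blk) (τ : ℕ) (H : Blk) (σ π α η p : ℕ) : Prop :=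
  D.PreV κ K C τ H σ π ∧
  (π < α ∧ D.as α (D.X σ) ∧ C.mid ≤ p ∧ p < C.hi ∧ D.L α p = D.L α (D.X σ)) ∧
  (D.V H η ∧ σ < η ∧ D.L α (D.Z η) = D.L α (D.X σ) ∧
    g H.lev ≤ (D.turns.filter (fun t => σ < t ∧ D.V H t ∧ D.Z t ≤ D.Z η)).card) ∧
  c C.lev ≤ (D.turns.filter (fun t => τ < t ∧ D.V C t ∧ p < D.Z t)).card

/-- rows of level `lam` with an association -/
noncomputable def aV (c g : ℕ → ℕ) (lam κ K : ℕ) : Finset ℕ :=
  D.turns.filter (fun τ => ∃ C, C.lev = lam ∧ ∃ H σ π α η p, D.AssocV c g κ K C τ H σ π α η p)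

variable {D}

/-- a node that jumps exactly over `X σ` after `σ` but must have done so at `π`, where there is no
ascent of `X σ` in between, does it by a turn. -/
lemma turn_jump {σ π v t : ℕ} (hσπ : σ < π) (htu : D.tu π) (hX : D.X π = D.X σ)
    (hno : ∀ s, σ < s → s < π → ¬ D.as s (D.X σ)) (hv : v ≤ D.Z π)
    (hj : ∃ s, σ < s ∧ s < t ∧ D.jump s (D.X σ) v) :
    ∃ s, σ < s ∧ s ≤ π ∧ D.tu s ∧
      ((D.X s = D.X σ ∧ D.Y s = v) ∨ (D.Y s = D.X σ ∧ D.Z s = v)) := by
  obtain ⟨s, s1, s2, s3⟩ := hj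
  obtain ⟨j1, j2, j3⟩ := jump_spec s3
  have hs : s ≤ π := by
    by_contra hc
    have := after1 htu (u := v) (s := s) (by omega) hv (by omega)
    have := s3.1
    omega
  refine ⟨s, s1, hs, ?_⟩
  rcases j3 with j3 | j3 | j3
  · exfalso
    rcases hs.eq_or_lt with e | e
    · subst e; exact not_tu_as htu j3
    · exact hno s s1 e j3
  · exact ⟨j3.1, Or.inl j3.2⟩
  · exact ⟨j3.1, Or.inr j3.2⟩

lemma node_unique {s x v v' : ℕ} (hs : D.tu s)
    (h : (D.X s = x ∧ D.Y s = v) ∨ (D.Y s = x ∧ D.Z s = v))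
    (h' : (D.X s = x ∧ D.Y s = v') ∨ (D.Y s = x ∧ D.Z s = v')) : v = v' := by
  have := (turn_spec hs).1
  omega

lemma V_idx {B : Blk} {t : ℕ} (h : D.V B t) : B.idx < n / 2 ^ B.lev ∧ B.lev < n := by
  obtain ⟨a0, a1, a2, a3, a4, a5⟩ := h
  have h1 := turn_spec a0
  have h2 := Blk.idx_bound (B := B) (m := n) (by omega)
  have h3 := Blk.lev_bound (B := B) (m := n) (by omega)
  refine ⟨?_, h3⟩
  have : B.idx + 1 ≤ n / 2 ^ B.lev := (Nat.le_div_iff_mul_le (by positivity)).2 h2
  omega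

/-- monotonicity along thinned rows -/
lemma V_pair {κ K κ' K' : ℕ} {C Ha Hb : Blk} {a b σa σb πa πb : ℕ}
    (ha : D.PreV κ K C a Ha σa πa) (hb : D.PreV κ' K' C b Hb σb πb) (hπ : πa < b) :
    D.X σa < D.L b (D.X b) ∧ D.X σa < D.X σb := by
  obtain ⟨⟨a1, a2, a3, a4⟩, ⟨a5, a6, a7, a8, a9⟩, -, -⟩ := ha
  obtain ⟨⟨b1, b2, b3, b4⟩, -, -, -⟩ := hb
  obtain ⟨u0, u1, u2, u3, u4, u5⟩ := a2
  obtain ⟨v0, v1, v2, v3, v4, v5⟩ := b1
  obtain ⟨w1, w2, w3⟩ := a3
  have := Ha.lo_lt
  have h1 := after1 a6 (u := D.Y b) (s := b) (by omega) (by omega) hπ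
  rw [(turn_spec v0).2.2.2.1, a7] at h1
  have := D.le_self' b (D.X b)
  exact ⟨h1, by omega⟩

/-- order of `σ`'s -/
lemma V_sigma_lt {Ha Hb : Blk} {σa σb : ℕ} (ha : D.V Ha σa) (hb : D.V Hb σb)
    (hX : D.X σa < D.X σb) (hlo : D.X σb < Ha.lo) (hc : Ha = Hb ∨ Hb.inR Ha) :
    σa < σb ∧ D.Z σa < D.Z σb ∧ (Hb.inR Ha → D.Z σa < Hb.mid) := by
  have h1 : σa < σb := by
    rcases lt_trichotomy σa σb with c | c | c
    · exact c
    · subst c; omega
    · rcases hc with rfl | hc
      · have := V_X_lt hb ha c; omega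
      · have := V_order hc hb hlo ha c
        have := D.le_self' σa (D.X σa)
        omega
  have h2 : Hb.inR Ha → D.Z σa < Hb.mid := by
    intro hc'
    by_contra hcon
    have := V_close hc' ha (by omega) hb hlo
    omega
  refine ⟨h1, ?_, h2⟩
  rcases hc with rfl | hc
  · exact (V1 ha hb h1).2.1
  · have := h2 hc
    have := hb.2.2.2.2.1
    omega

/-- the jump of `Y σb` or `Z σb` over `X σa` -/
lemma V_bad_jump {Ha Hb : Blk} {σa σb v : ℕ} (ha : D.V Ha σa) (hb : D.V Hb σb)
    (hX : D.X σa < D.X σb) (hlo : D.X σb < Ha.lo) (hσ : σa < σb)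
    (hv : D.Z σa < v) (hv' : D.L σb v = D.L σb (D.X σb)) :
    ∃ s, σa < s ∧ s < σb ∧ D.jump s (D.X σa) v := by
  obtain ⟨u0, u1, u2, u3, u4, u5⟩ := ha
  obtain ⟨v0, v1, v2, v3, v4, v5⟩ := hb
  have := Ha.lo_lt
  have sa := turn_spec u0
  obtain ⟨s1, s2, s3, s4, s5, s6, s7, s8, s9, s10⟩ := sa
  have e1 := after1 u0 (u := D.X σb) (s := σb) (by omega) (by omega) hσ
  have e2 := D.le_self' σb (D.X σb)
  have e3 := D.mono hσ.le v
  have e4 : D.L σa v ≤ D.L σa (D.Z σa) := lam' hv (by omega)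
  have e5 := D.le_self' σa (D.X σa)
  obtain ⟨s, d1, d2, d3⟩ := land (D := D) (x := D.X σa) (c := D.Z σa) (v := v) (t0 := σa + 1)
    (t1 := σb) (fun u hu hu' => after1 u0 hu hu' (by omega))
    (by rw [s10 _ (by omega) (by omega)]; omega) (by omega) (by omega) (by omega)
  exact ⟨s, by omega, d2, d3⟩

set_option maxHeartbeats 4000000 in
/-- bound for the second thinning -/
lemma V_bad_card {κ K : ℕ} {C : Blk} (S : Finset ℕ) (H : ℕ → Blk) (σ π : ℕ → ℕ) (a : ℕ)
    (ha : D.PreV κ K C a (H a) (σ a) (π a))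
    (hS : ∀ b ∈ S, D.PreV κ K C b (H b) (σ b) (π b))
    (hπ : ∀ b ∈ S, ∀ b' ∈ S, b < b' → π b < b') (haS : ∀ b ∈ S, π a < b)
    (hbad : ∀ b ∈ S, D.X (σ b) < (H a).lo ∧ ¬ (H a).inR (H b)) :
    S.card ≤ (κ + 2) ^ 2 := by
  set JJ := D.turns.filter (fun s => σ a < s ∧ s ≤ π a ∧ (D.X s = D.X (σ a) ∨ D.Y s = D.X (σ a)))
    with hJJ
  have hJc : JJ.card ≤ κ := ha.2.2.1
  have haPre := ha
  obtain ⟨⟨a1, a2, a3, a4⟩, ⟨a5, a6, a7, a8, a9⟩, -, -⟩ := ha
  -- facts for `b ∈ S`
  have hfact : ∀ b ∈ S, D.X (σ a) < D.X (σ b) ∧ (H a = H b ∨ (H b).inR (H a)) ∧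
      σ a < σ b ∧ D.Z (σ a) < D.Z (σ b) ∧ ((H b).inR (H a) → D.Z (σ a) < (H b).mid) := by
    intro b hb
    have h1 := (V_pair haPre (hS b hb) (haS b hb)).2
    have h2 : H a = H b ∨ (H b).inR (H a) := by
      rcases Blk.comp_R a3 (hS b hb).1.2.2.1 with c | c | c
      · left; exact c
      · exact absurd c (hbad b hb).2
      · right; exact c
    have h3 := V_sigma_lt a2 (hS b hb).1.2.1 h1 (hbad b hb).1 h2
    exact ⟨h1, h2, h3.1, h3.2.1, h3.2.2⟩
  -- the two jump times
  have hY : ∀ b, b ∈ S ∧ D.Z (σ a) < D.Y (σ b) → ∃ s, s ∈ JJ ∧ D.tu s ∧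
      ((D.X s = D.X (σ a) ∧ D.Y s = D.Y (σ b)) ∨ (D.Y s = D.X (σ a) ∧ D.Z s = D.Y (σ b))) := by
    rintro b ⟨hb, hb'⟩
    obtain ⟨f1, f2, f3, f4, f5⟩ := hfact b hb
    have p := (hS b hb).1
    have hj := V_bad_jump a2 p.2.1 f1 (hbad b hb).1 f3 hb'
      (turn_spec p.2.1.1).2.2.2.1
    obtain ⟨q1, q2, q3⟩ := p.2.2.1
    have q4 := p.2.1.2.2.2.1
    have := C.lo_lt
    obtain ⟨s, s1, s2, s3, s4⟩ := turn_jump a5 a6 a7 a9 (v := D.Y (σ b)) (by omega) hj
    refine ⟨s, ?_, s3, s4⟩
    rw [hJJ, Finset.mem_filter]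
    exact ⟨mem_turns.2 s3, s1, s2, by tauto⟩
  have hZ : ∀ b, b ∈ S ∧ D.Z (σ b) ≤ D.Z (π a) → ∃ s, s ∈ JJ ∧ D.tu s ∧
      ((D.X s = D.X (σ a) ∧ D.Y s = D.Z (σ b)) ∨ (D.Y s = D.X (σ a) ∧ D.Z s = D.Z (σ b))) := by
    rintro b ⟨hb, hb'⟩
    obtain ⟨f1, f2, f3, f4, f5⟩ := hfact b hb
    have p := (hS b hb).1
    have hj := V_bad_jump a2 p.2.1 f1 (hbad b hb).1 f3 f4
      (turn_spec p.2.1.1).2.2.2.2.1
    obtain ⟨s, s1, s2, s3, s4⟩ := turn_jump a5 a6 a7 a9 (v := D.Z (σ b)) hb' hj
    refine ⟨s, ?_, s3, s4⟩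
    rw [hJJ, Finset.mem_filter]
    exact ⟨mem_turns.2 s3, s1, s2, by tauto⟩
  choose! fY hY1 hY2 hY3 using hY
  choose! fZ hZ1 hZ2 hZ3 using hZ
  set T := insert (D.M + 1) (insert D.M JJ) with hT
  have hTc : T.card ≤ κ + 2 := by
    have h1 := Finset.card_insert_le (D.M + 1) (insert D.M JJ)
    have h2 := Finset.card_insert_le D.M JJ
    rw [← hT] at h1
    omega
  have hlt : ∀ s ∈ JJ, s < D.M := by
    intro s hs
    rw [hJJ, Finset.mem_filter] at hs
    exact (mem_turns.1 hs.1).1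
  have hcard : S.card ≤ (T ×ˢ T).card := by
    apply Finset.card_le_card_of_injOn
      (fun b => (if H b = H a then D.M + 1 else if D.Z (σ a) < D.Y (σ b) then fY b else D.M,
        if D.Z (σ b) ≤ D.Z (π a) then fZ b else D.M))
    · intro b hb
      rw [Finset.mem_coe] at hb
      rw [Finset.mem_coe, Finset.mem_product]
      constructor
      · simp only
        split_ifs with h1 h2
        · simp [hT]
        · rw [hT, Finset.mem_insert, Finset.mem_insert]
          right; right; exact hY1 b ⟨hb, h2⟩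
        · simp [hT]
      · simp only
        split_ifs with h1
        · rw [hT, Finset.mem_insert, Finset.mem_insert]
          right; right; exact hZ1 b ⟨hb, h1⟩
        · simp [hT]
    · -- injectivity
      have key : ∀ b ∈ S, ∀ b' ∈ S, b < b' →
          (if H b = H a then D.M + 1 else if D.Z (σ a) < D.Y (σ b) then fY b else D.M) =
          (if H b' = H a then D.M + 1 else if D.Z (σ a) < D.Y (σ b') then fY b' else D.M) →
          (if D.Z (σ b) ≤ D.Z (π a) then fZ b else D.M) =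
          (if D.Z (σ b') ≤ D.Z (π a) then fZ b' else D.M) → False := by
        intro b hb b' hb' hbb he1 he2
        have p := (hS b hb).1
        have p' := (hS b' hb').1
        obtain ⟨f1, f2, f3, f4, f5⟩ := hfact b hb
        obtain ⟨f1', f2', f3', f4', f5'⟩ := hfact b' hb'
        have hXX := (V_pair (hS b hb) (hS b' hb') (hπ b hb b' hb' hbb)).2
        -- step 1
        have hH : H b = H b' := by
          by_cases c1 : H b = H a
          · by_cases c2 : H b' = H a
            · rw [c1, c2]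
            · rw [if_pos c1, if_neg c2] at he1
              split_ifs at he1 with h3
              · have := hlt _ (hY1 b' ⟨hb', h3⟩); omega
              · omega
          · by_cases c2 : H b' = H a
            · rw [if_neg c1, if_pos c2] at he1
              split_ifs at he1 with h3
              · have := hlt _ (hY1 b ⟨hb, h3⟩); omega
              · omega
            · rw [if_neg c1, if_neg c2] at he1
              have g1 : (H b).inR (H a) := by
                rcases f2 with f2 | f2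
                · exact absurd f2.symm c1
                · exact f2
              have g2 : (H b').inR (H a) := by
                rcases f2' with f2' | f2'
                · exact absurd f2'.symm c2
                · exact f2'
              have z1 := f5 g1
              have z2 := f5' g2
              have y1 := p.2.1.2.2.1
              have y2 := p.2.1.2.2.2.1
              have y1' := p'.2.1.2.2.1
              have y2' := p'.2.1.2.2.2.1
              by_cases c3 : D.Z (σ a) < D.Y (σ b)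
              · by_cases c4 : D.Z (σ a) < D.Y (σ b')
                · rw [if_pos c3, if_pos c4] at he1
                  have w1 := hY3 b ⟨hb, c3⟩
                  have w2 := hY3 b' ⟨hb', c4⟩
                  rw [← he1] at w2
                  have w3 := node_unique (hY2 b ⟨hb, c3⟩) w1 w2
                  rcases Blk.comp_R p.2.2.1 p'.2.2.1 with c | c | c
                  · exact c
                  · obtain ⟨d1, d2, d3⟩ := c; omega
                  · obtain ⟨d1, d2, d3⟩ := c; omega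
                · rw [if_pos c3, if_neg c4] at he1
                  have := hlt _ (hY1 b ⟨hb, c3⟩); omega
              · by_cases c4 : D.Z (σ a) < D.Y (σ b')
                · rw [if_neg c3, if_pos c4] at he1
                  have := hlt _ (hY1 b' ⟨hb', c4⟩); omega
                · rcases Blk.comp_R p.2.2.1 p'.2.2.1 with c | c | c
                  · exact c
                  · obtain ⟨d1, d2, d3⟩ := c; omega
                  · obtain ⟨d1, d2, d3⟩ := c; omega
        -- step 2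
        by_cases c1 : D.Z (σ b) ≤ D.Z (π a)
        · by_cases c2 : D.Z (σ b') ≤ D.Z (π a)
          · rw [if_pos c1, if_pos c2] at he2
            have w1 := hZ3 b ⟨hb, c1⟩
            have w2 := hZ3 b' ⟨hb', c2⟩
            rw [← he2] at w2
            have w3 := node_unique (hZ2 b ⟨hb, c1⟩) w1 w2
            have w4 := (V_inj p.2.1 p'.2.1 (by rw [hH]) w3).1
            rw [w4] at hXX
            omega
          · rw [if_pos c1, if_neg c2] at he2
            have := hlt _ (hZ1 b ⟨hb, c1⟩); omega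
        · by_cases c2 : D.Z (σ b') ≤ D.Z (π a)
          · rw [if_neg c1, if_pos c2] at he2
            have := hlt _ (hZ1 b' ⟨hb', c2⟩); omega
          · have hlo' := p'.2.1.2.1
            rw [← hH] at hlo'
            have w1 := V_close p.2.2.1 p.2.1 (by omega) p'.1 (by have := p'.2.2.2; omega)
            have w2 := hπ b hb b' hb' hbb
            have w3 := (hS b hb).2.1.1
            omega
      intro b hb b' hb' he
      simp only [Prod.mk.injEq] at he
      rcases lt_trichotomy b b' with c | c | c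
      · exact (key b hb b' hb' c he.1 he.2).elim
      · exact c
      · exact (key b' hb' b hb c he.1.symm he.2.symm).elim
  refine hcard.trans ?_
  rw [Finset.card_product, pow_two]
  exact Nat.mul_le_mul hTc hTc

/-- both thinnings -/
lemma V_thin (lam κ K : ℕ) (R : Finset ℕ) (blk H : ℕ → Blk) (σ π : ℕ → ℕ)
    (hlev : ∀ t ∈ R, (blk t).lev = lam)
    (hR : ∀ t ∈ R, D.PreV κ K (blk t) t (H t) (σ t) (π t)) :
    ∃ S ⊆ R, R.card ≤ ((K + 1) * ((κ + 2) ^ 2 + 1)) * S.card ∧
      (∀ a ∈ S, ∀ b ∈ S, a < b → blk a = blk b → π a < b ∧ D.X (σ a) < D.L b (D.X b) ∧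
        D.X (σ a) < D.X (σ b) ∧ ((H a).lo ≤ D.X (σ b) ∨ (H a).inR (H b))) ∧
      (S.filter (fun t => (H t).lev < 6 * lam)).card ≤ (n / 2 ^ lam) * (6 * lam) := by
  obtain ⟨S1, hS1R, hS12, hS13⟩ := greedy K (fun a b => blk a = blk b ∧ b ≤ π a) R (by
    intro a ha
    refine le_trans (Finset.card_le_card ?_) (hR a ha).2.2.2.2.1
    intro b hb
    simp only [Finset.mem_filter] at hb ⊢
    have hb1 := (hR b hb.1).1.1
    refine ⟨mem_turns.2 hb1.1, hb.2.1, hb.2.2.2, ?_⟩
    rw [hb.2.2.1]; exact hb1)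
  have hπ : ∀ a ∈ S1, ∀ b ∈ S1, a < b → blk a = blk b → π a < b := by
    intro a ha b hb hab he
    have := hS12 a ha b hb hab
    by_contra hc
    exact this ⟨he, by omega⟩
  obtain ⟨S, hSS1, hS2, hS3⟩ := greedy ((κ + 2) ^ 2)
    (fun a b => blk a = blk b ∧ D.X (σ b) < (H a).lo ∧ ¬ (H a).inR (H b)) S1 (by
    intro a ha
    apply V_bad_card (D := D) (κ := κ) (K := K) (C := blk a) _ H σ π a (hR a (hS1R ha))
    · intro b hb
      simp only [Finset.mem_filter] at hb
      have := hR b (hS1R hb.1)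
      rw [hb.2.2.1]; exact this
    · intro b hb b' hb' hbb
      simp only [Finset.mem_filter] at hb hb'
      exact hπ b hb.1 b' hb'.1 hbb (by rw [← hb.2.2.1, hb'.2.2.1])
    · intro b hb
      simp only [Finset.mem_filter] at hb
      exact hπ a ha b hb.1 hb.2.1 hb.2.2.1
    · intro b hb
      simp only [Finset.mem_filter] at hb
      exact hb.2.2.2)
  have hmain : ∀ a ∈ S, ∀ b ∈ S, a < b → blk a = blk b → π a < b ∧ D.X (σ a) < D.L b (D.X b) ∧
        D.X (σ a) < D.X (σ b) ∧ ((H a).lo ≤ D.X (σ b) ∨ (H a).inR (H b)) := by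
    intro a ha b hb hab he
    have h1 := hπ a (hSS1 ha) b (hSS1 hb) hab he
    have q1 := hR a (hS1R (hSS1 ha))
    have q2 := hR b (hS1R (hSS1 hb))
    rw [← he] at q2
    have h2 := V_pair q1 q2 h1
    refine ⟨h1, h2.1, h2.2, ?_⟩
    have h3 := hS2 a ha b hb hab
    by_contra hc
    push Not at hc
    exact h3 ⟨he, hc.1, hc.2⟩
  refine ⟨S, hSS1.trans hS1R, ?_, hmain, ?_⟩
  · calc R.card ≤ (K + 1) * S1.card := hS13
      _ ≤ (K + 1) * (((κ + 2) ^ 2 + 1) * S.card) := Nat.mul_le_mul_left _ hS3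
      _ = _ := by ring
  · have : (S.filter (fun t => (H t).lev < 6 * lam)).card ≤
        ((Finset.range (n / 2 ^ lam)) ×ˢ (Finset.range (6 * lam))).card := by
      apply Finset.card_le_card_of_injOn (fun t => ((blk t).idx, (H t).lev))
      · intro t ht
        rw [Finset.mem_coe, Finset.mem_filter] at ht
        rw [Finset.mem_coe, Finset.mem_product]
        have h1 := hR t (hS1R (hSS1 ht.1))
        have h2 := (V_idx h1.1.1).1
        rw [hlev t (hS1R (hSS1 ht.1))] at h2
        exact ⟨Finset.mem_range.2 h2, Finset.mem_range.2 ht.2⟩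
      · have key : ∀ a ∈ S, ∀ b ∈ S, a < b → (blk a).idx = (blk b).idx →
            (H a).lev = (H b).lev → False := by
          intro a ha b hb hab he1 he2
          have hbe : blk a = blk b := Blk.ext
            ((hlev a (hS1R (hSS1 ha))).trans (hlev b (hS1R (hSS1 hb))).symm) he1
          have h1 := hmain a ha b hb hab hbe
          have q1 := hR a (hS1R (hSS1 ha))
          have q2 := hR b (hS1R (hSS1 hb))
          rw [← hbe] at q2
          have hHe : H a = H b := by
            rcases Blk.comp_R q1.1.2.2.1 q2.1.2.2.1 with c | c | c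
            · exact c
            · have := c.2.2; omega
            · have := c.2.2; omega
          rcases h1.2.2.2 with c | c
          · rw [hHe] at c
            have := q2.1.2.1.2.1
            omega
          · have := c.2.2; omega
        intro a ha b hb he
        rw [Finset.mem_coe, Finset.mem_filter] at ha hb
        simp only [Prod.mk.injEq] at he
        rcases lt_trichotomy a b with c | c | c
        · exact (key a ha.1 b hb.1 c he.1 he.2).elim
        · exact c
        · exact (key b hb.1 a ha.1 c he.1.symm he.2.symm).elim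
    rwa [Finset.card_product, Finset.card_range, Finset.card_range] at this

/-- few rows of `H` after `σ` have their upper node below `C.hi` -/
lemma V_low_card {κ K : ℕ} {C H : Blk} {τ σ π : ℕ} (h : D.PreV κ K C τ H σ π) :
    (D.turns.filter (fun t => σ < t ∧ D.V H t ∧ D.Z t < C.hi)).card ≤ 2 ^ C.lev + κ := by
  obtain ⟨⟨a1, a2, a3, a4⟩, ⟨a5, a6, a7, a8, a9⟩, a10, -⟩ := h
  have hsub : D.turns.filter (fun t => σ < t ∧ D.V H t ∧ D.Z t < C.hi) ⊆
      D.turns.filter (fun t => σ < t ∧ D.V H t ∧ C.mid ≤ D.Z t ∧ D.Z t < C.hi) ∪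
      D.turns.filter (fun t => σ < t ∧ D.V H t ∧ D.Z t < C.mid) := by
    intro t ht
    rw [Finset.mem_union, Finset.mem_filter, Finset.mem_filter]
    rw [Finset.mem_filter] at ht
    by_cases c : C.mid ≤ D.Z t
    · left; exact ⟨ht.1, ht.2.1, ht.2.2.1, c, ht.2.2.2⟩
    · right; exact ⟨ht.1, ht.2.1, ht.2.2.1, by omega⟩
  refine (Finset.card_le_card hsub).trans ((Finset.card_union_le _ _).trans (Nat.add_le_add ?_ ?_))
  · have h1 : (Finset.Ico C.mid C.hi).card = 2 ^ C.lev := by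
      rw [Nat.card_Ico, C.hi_eq, Nat.add_sub_cancel_left]
    rw [← h1]
    apply Finset.card_le_card_of_injOn D.Z
    · intro t ht
      rw [Finset.mem_coe, Finset.mem_filter] at ht
      rw [Finset.mem_coe, Finset.mem_Ico]
      exact ht.2.2.2
    · intro t ht t' ht' he
      rw [Finset.mem_coe, Finset.mem_filter] at ht ht'
      exact (V_inj ht.2.2.1 ht'.2.2.1 rfl he).1
  · refine le_trans ?_ a10
    have hex : ∀ t ∈ D.turns.filter (fun t => σ < t ∧ D.V H t ∧ D.Z t < C.mid),
        ∃ s, σ < s ∧ s ≤ π ∧ D.tu s ∧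
        ((D.X s = D.X σ ∧ D.Y s = D.Z t) ∨ (D.Y s = D.X σ ∧ D.Z s = D.Z t)) := by
      intro t ht
      rw [Finset.mem_filter] at ht
      exact turn_jump a5 a6 a7 a9 (by omega) (V1 a2 ht.2.2.1 ht.2.1).2.2.2
    choose! f hf1 hf2 hf3 hf4 using hex
    apply Finset.card_le_card_of_injOn f
    · intro t ht
      rw [Finset.mem_coe] at ht
      rw [Finset.mem_coe, Finset.mem_filter]
      exact ⟨mem_turns.2 (hf3 t ht), hf1 t ht, hf2 t ht, by have := hf4 t ht; tauto⟩
    · intro t ht t' ht' he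
      rw [Finset.mem_coe] at ht ht'
      have w1 := hf4 t ht
      have w2 := hf4 t' ht'
      rw [← he] at w2
      have w3 := node_unique (hf3 t ht) w1 w2
      rw [Finset.mem_filter] at ht ht'
      exact (V_inj ht.2.2.1 ht'.2.2.1 rfl w3).1

/-- the charging step of case `β` -/
lemma V_beta {c g : ℕ → ℕ} {κ K : ℕ} {C H : Blk} {τ σ π α η p t : ℕ}
    (h : D.AssocV c g κ K C τ H σ π α η p) (hη : C.hi ≤ D.Z η) (htπ : π < t) (ht : D.V C t)
    (hp : p < D.Z t) :
    ∃ s, D.tu s ∧ (D.Y s = D.Z t ∨ D.Z s = D.Z t) ∧ D.X σ < D.L s (D.X s) ∧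
      D.L s (D.X s) < H.lo := by
  obtain ⟨⟨⟨a1, a2, a3, a4⟩, ⟨a5, a6, a7, a8, a9⟩, -⟩, ⟨b1, b2, b3, b4, b5⟩,
    ⟨c1, c2, c3, c4⟩, -⟩ := h
  have hV1 := V1 a2 c1 c2
  obtain ⟨u0, u1, u2, u3, u4, u5⟩ := a2
  obtain ⟨v0, v1, v2, v3, v4, v5⟩ := ht
  obtain ⟨w0, w1, w2, w3, w4, w5⟩ := c1
  obtain ⟨q1, q2, q3⟩ := a3
  have := C.lo_lt; have := C.mid_lt; have := H.lo_lt; have := H.mid_lt
  have e0 := D.le_self' α (D.X σ)
  have hαt : α < t := by
    rcases lt_trichotomy α t with e | e | e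
    · exact e
    · subst e; exact (not_tu_as v0 b2).elim
    · have := after2 v0 (u := p) (by omega) (by omega) e
      omega
  have e1 := D.mono hαt.le (D.Z t)
  have e2 : D.L t (D.Z t) = D.L t (D.X t) := (turn_spec v0).2.2.2.2.1
  have e3 := D.le_self' t (D.X t)
  have e4 : D.L α (D.Z t) ≤ D.L α p := lam' hp (by omega)
  have e5 : D.L α (D.Z η) ≤ D.L α (D.Z t) := lam' (by omega) (by omega)
  have e6 : D.L α (D.Z t) = D.L α (D.X σ) := by omega
  have j1 := as_jump b2 (show D.X σ < D.Z t by omega) e6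
  have j2 := as_jump b2 (show D.X σ < D.Z η by omega) c3
  have hαη : α < η := by
    obtain ⟨s, s1, s2, s3⟩ := hV1.2.2.2
    have := jump_unique j2 s3
    omega
  have e7 : D.L η (D.Z η) = D.L η (D.X η) := (turn_spec w0).2.2.2.2.1
  have e8 := D.le_self' η (D.X η)
  have e9 := U0b w0 (u := D.Z t) (by omega) (by omega)
  obtain ⟨s, s1, s2, s3, s4, s5, s6⟩ := separation (D := D) (a := α + 1) (b := η) (v := D.Z t)
    (w := D.Z η) (by omega) (by omega) (by rw [j1.2, j2.2]) (by omega) (by omega)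
  have := j2.2
  exact ⟨s, s3, s4, by omega, by omega⟩

/-- the counting step of case `α` -/
lemma V_alpha_count {κ K : ℕ} {C Ha Hb H' : Blk} {a b σa σb πa πb : ℕ}
    (ha : D.PreV κ K C a Ha σa πa) (hb : D.PreV κ K C b Hb σb πb)
    (hX : D.X σa < D.X σb) (hH : Ha = H' ∨ Ha.inR H') (hlo : D.X σb < H'.lo) :
    (D.turns.filter (fun t => σa < t ∧ t ≤ πb ∧ D.V H' t ∧ Ha.mid ≤ D.Z t)).card ≤ K + κ := by
  obtain ⟨⟨a1, a2, a3, a4⟩, ⟨a5, a6, a7, a8, a9⟩, a10, -⟩ := ha
  obtain ⟨⟨b1, b2, b3, b4⟩, ⟨b5, b6, b7, b8, b9⟩, b10, b11, b12, b13⟩ := hb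
  have hCH : C.inR H' := by
    rcases hH with rfl | hH
    · exact a3
    · exact Blk.inR_trans a3 hH
  have hsub : D.turns.filter (fun t => σa < t ∧ t ≤ πb ∧ D.V H' t ∧ Ha.mid ≤ D.Z t) ⊆
      D.turns.filter (fun t => b < t ∧ t ≤ πb ∧ D.V H' t ∧ C.mid ≤ D.Z t) ∪
      D.turns.filter (fun t => σa < t ∧ D.V H' t ∧ Ha.mid ≤ D.Z t ∧ D.Z t < C.mid) := by
    intro t ht
    rw [Finset.mem_union, Finset.mem_filter, Finset.mem_filter]
    rw [Finset.mem_filter] at ht
    by_cases c : C.mid ≤ D.Z t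
    · left
      have := V_close hCH ht.2.2.2.1 c b1 (by omega)
      exact ⟨ht.1, this, ht.2.2.1, ht.2.2.2.1, c⟩
    · right; exact ⟨ht.1, ht.2.1, ht.2.2.2.1, ht.2.2.2.2, by omega⟩
  refine (Finset.card_le_card hsub).trans ((Finset.card_union_le _ _).trans
    (Nat.add_le_add (b13 H' hCH hlo) ?_))
  refine le_trans ?_ a10
  have hex : ∀ t ∈ D.turns.filter (fun t => σa < t ∧ D.V H' t ∧ Ha.mid ≤ D.Z t ∧ D.Z t < C.mid),
      ∃ s, σa < s ∧ s ≤ πa ∧ D.tu s ∧
      ((D.X s = D.X σa ∧ D.Y s = D.Z t) ∨ (D.Y s = D.X σa ∧ D.Z s = D.Z t)) := by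
    intro t ht
    rw [Finset.mem_filter] at ht
    obtain ⟨t1, t2, t3, t4, t5⟩ := ht
    refine turn_jump a5 a6 a7 a9 (t := t) (by omega) ?_
    obtain ⟨u0, u1, u2, u3, u4, u5⟩ := a2
    obtain ⟨v0, v1, v2, v3, v4, v5⟩ := t3
    have := Ha.lo_lt; have := Ha.mid_lt
    have : D.Y t ≤ D.Z σa ∧ D.X t < D.Y σa := by
      rcases hH with rfl | hH
      · omega
      · obtain ⟨q1, q2, q3⟩ := hH
        omega
    exact (two_turns u0 v0 t2 (by omega) (by omega) (by omega) (by omega)).2.2.2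
  choose! f hf1 hf2 hf3 hf4 using hex
  apply Finset.card_le_card_of_injOn f
  · intro t ht
    rw [Finset.mem_coe] at ht
    rw [Finset.mem_coe, Finset.mem_filter]
    exact ⟨mem_turns.2 (hf3 t ht), hf1 t ht, hf2 t ht, by have := hf4 t ht; tauto⟩
  · intro t ht t' ht' he
    rw [Finset.mem_coe] at ht ht'
    have w1 := hf4 t ht
    have w2 := hf4 t' ht'
    rw [← he] at w2
    have w3 := node_unique (hf3 t ht) w1 w2
    rw [Finset.mem_filter] at ht ht'
    exact (V_inj ht.2.2.1 ht'.2.2.1 rfl w3).1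

set_option maxHeartbeats 4000000 in
theorem V_step (c g : ℕ → ℕ) (lam κ K : ℕ)
    (hcg : ∀ l, 6 * lam ≤ l → c l + κ + 2 ^ lam < g l) :
    ∃ r, r * (c lam - K) ≤ 2 * D.numTurns ∧
    (D.aV c g lam κ K).card ≤ ((K + 1) * ((κ + 2) ^ 2 + 1)) * ((n / 2 ^ lam) * (6 * lam + 1) + r +
      ∑ l ∈ Finset.Ico (6 * lam) n, (D.aV c g l κ (K + κ)).card) := by
  set R := D.aV c g lam κ K with hR
  have hR' : ∀ t ∈ R, ∃ C : Blk, ∃ H : Blk, ∃ σ π α η p : ℕ, C.lev = lam ∧
      D.AssocV c g κ K C t H σ π α η p := by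
    intro t ht
    simp only [hR, aV, Finset.mem_filter] at ht
    obtain ⟨_, C, h1, H, σ, π, α, η, p, h2⟩ := ht
    exact ⟨C, H, σ, π, α, η, p, h1, h2⟩
  have : Nonempty Blk := ⟨⟨0, 0⟩⟩
  choose! blk H σ π α η p hlev hA using hR'
  obtain ⟨S, hSR, hS1, hS2, hS3⟩ := V_thin (D := D) lam κ K R blk H σ π hlev
    (fun t ht => (hA t ht).1)
  set N0 := S.filter (fun t => (H t).lev < 6 * lam) with hN0
  set F := S.filter (fun t => 6 * lam ≤ (H t).lev) with hF
  have hFS : F ⊆ S := Finset.filter_subset _ _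
  have hSF : S.card ≤ N0.card + F.card := by
    refine le_trans (Finset.card_le_card ?_) (Finset.card_union_le _ _)
    intro t ht
    rw [Finset.mem_union, hN0, hF, Finset.mem_filter, Finset.mem_filter]
    by_cases c : (H t).lev < 6 * lam
    · left; exact ⟨ht, c⟩
    · right; exact ⟨ht, by omega⟩
  have hkey : ∀ t ∈ S, (blk t).idx ∈ Finset.range (n / 2 ^ lam) := by
    intro t ht
    have h1 := (V_idx (hA t (hSR ht)).1.1.1).1
    rw [hlev t (hSR ht)] at h1
    exact Finset.mem_range.2 h1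
  have hblk : ∀ a ∈ S, ∀ b ∈ S, (blk a).idx = (blk b).idx → blk a = blk b := by
    intro a ha b hb he
    exact Blk.ext ((hlev a (hSR ha)).trans (hlev b (hSR hb)).symm) he
  set nx : ℕ → ℕ := fun t => sInf {s | s ∈ F ∧ t < s ∧ blk t = blk s} with hnx
  set F3 := F.filter (fun t => ∀ s ∈ F, t < s → blk t ≠ blk s) with hF3
  set Fr := F.filter (fun t => ∃ s ∈ F, t < s ∧ blk t = blk s) with hFr
  set Fβ := Fr.filter (fun t => (H t).lo ≤ D.X (σ (nx t))) with hFβ
  set Fα := Fr.filter (fun t => D.X (σ (nx t)) < (H t).lo) with hFα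
  have hFrspec : ∀ t ∈ Fr, t ∈ F ∧ nx t ∈ F ∧ t < nx t ∧ blk t = blk (nx t) := by
    intro t ht
    rw [hFr, Finset.mem_filter] at ht
    obtain ⟨ht1, ⟨s, hs1, hs2, hs3⟩⟩ := ht
    have h2 : nx t ∈ {s | s ∈ F ∧ t < s ∧ blk t = blk s} := Nat.sInf_mem ⟨s, hs1, hs2, hs3⟩
    exact ⟨ht1, h2.1, h2.2.1, h2.2.2⟩
  have hnxle : ∀ t, ∀ s ∈ F, t < s → blk t = blk s → nx t ≤ s := by
    intro t s hs h1 h2
    exact Nat.sInf_le ⟨hs, h1, h2⟩
  have hcover : F.card ≤ F3.card + Fβ.card + Fα.card := by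
    have : F ⊆ F3 ∪ Fβ ∪ Fα := by
      intro t ht
      simp only [Finset.mem_union]
      by_cases c3 : ∀ s ∈ F, t < s → blk t ≠ blk s
      · left; left
        rw [hF3, Finset.mem_filter]; exact ⟨ht, c3⟩
      have c4 : t ∈ Fr := by
        rw [hFr, Finset.mem_filter]
        push Not at c3
        obtain ⟨s, s1, s2, s3⟩ := c3
        exact ⟨ht, s, s1, s2, s3⟩
      by_cases c5 : (H t).lo ≤ D.X (σ (nx t))
      · left; right; rw [hFβ, Finset.mem_filter]; exact ⟨c4, c5⟩
      · right; rw [hFα, Finset.mem_filter]; exact ⟨c4, by omega⟩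
    refine (Finset.card_le_card this).trans ?_
    refine (Finset.card_union_le _ _).trans ?_
    refine Nat.add_le_add_right ?_ _
    exact Finset.card_union_le _ _
  have hc3 : F3.card ≤ n / 2 ^ lam := by
    rw [← Finset.card_range (n / 2 ^ lam)]
    apply Finset.card_le_card_of_injOn (fun t => (blk t).idx)
    · intro t ht
      rw [Finset.mem_coe, hF3, Finset.mem_filter] at ht
      exact hkey t (hFS ht.1)
    · intro a ha b hb he
      rw [Finset.mem_coe, hF3, Finset.mem_filter] at ha hb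
      have hbe := hblk a (hFS ha.1) b (hFS hb.1) he
      rcases lt_trichotomy a b with c | c | c
      · exact absurd hbe (ha.2 b hb.1 c)
      · exact c
      · exact absurd hbe.symm (hb.2 a ha.1 c)
  -- the `η` node is far to the right
  have hη : ∀ t ∈ F, (blk t).hi ≤ D.Z (η t) := by
    intro t ht
    have q := hA t (hSR (hFS ht))
    have h1 := V_low_card q.1
    have h2 := q.2.2.1.2.2.2
    rw [hlev t (hSR (hFS ht))] at h1
    rw [hF, Finset.mem_filter] at ht
    have h3 := hcg _ ht.2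
    by_contra hc
    have h4 : (D.turns.filter (fun t' => σ t < t' ∧ D.V (H t) t' ∧ D.Z t' ≤ D.Z (η t))).card ≤
        (D.turns.filter (fun t' => σ t < t' ∧ D.V (H t) t' ∧ D.Z t' < (blk t).hi)).card := by
      apply Finset.card_le_card
      intro t' ht'
      rw [Finset.mem_filter] at ht' ⊢
      exact ⟨ht'.1, ht'.2.1, ht'.2.2.1, by omega⟩
    omega
  -- case β
  have hcβ : Fβ.card * (c lam - K) ≤ 2 * D.numTurns := by
    refine le_trans (charge Fβ (fun t => (D.turns.filter (fun t' => π t < t' ∧ D.V (blk t) t' ∧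
      p t < D.Z t')).image D.Z)
      D.TV (c lam - K) ?_ (fun t v e => e.2 = v ∧ D.X (σ t) < D.L e.1 (D.X e.1) ∧
        D.L e.1 (D.X e.1) < (H t).lo ∧ (blk t).mid ≤ v ∧ v < (blk t).hi) ?_ ?_) D.TV_card
    · intro t ht
      rw [hFβ, Finset.mem_filter] at ht
      obtain ⟨b1, b2, b3, b4⟩ := hFrspec t ht.1
      have q := hA t (hSR (hFS b1))
      have h1 : ((D.turns.filter (fun t' => π t < t' ∧ D.V (blk t) t' ∧
          p t < D.Z t')).image D.Z).card = (D.turns.filter (fun t' => π t < t' ∧ D.V (blk t) t' ∧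
          p t < D.Z t')).card := by
        apply Finset.card_image_of_injOn
        intro x hx y hy he
        rw [Finset.mem_coe, Finset.mem_filter] at hx hy
        exact (V_inj hx.2.2.1 hy.2.2.1 rfl he).1
      have h2 := q.2.2.2
      rw [hlev t (hSR (hFS b1))] at h2
      have h3 := q.1.2.2.2.2.1
      have h4 : D.turns.filter (fun t' => t < t' ∧ D.V (blk t) t' ∧ p t < D.Z t') ⊆
          D.turns.filter (fun t' => π t < t' ∧ D.V (blk t) t' ∧ p t < D.Z t') ∪
          D.turns.filter (fun t' => t < t' ∧ t' ≤ π t ∧ D.V (blk t) t') := by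
        intro x hx
        rw [Finset.mem_filter] at hx
        rw [Finset.mem_union, Finset.mem_filter, Finset.mem_filter]
        by_cases e : π t < x
        · left; exact ⟨hx.1, e, hx.2.2⟩
        · right; exact ⟨hx.1, hx.2.1, by omega, hx.2.2.1⟩
      have h5 := Finset.card_le_card h4
      have h6 := Finset.card_union_le
        (D.turns.filter (fun t' => π t < t' ∧ D.V (blk t) t' ∧ p t < D.Z t'))
        (D.turns.filter (fun t' => t < t' ∧ t' ≤ π t ∧ D.V (blk t) t'))
      omega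
    · intro t ht v hv
      rw [hFβ, Finset.mem_filter] at ht
      obtain ⟨b1, b2, b3, b4⟩ := hFrspec t ht.1
      rw [Finset.mem_image] at hv
      obtain ⟨t', ht', rfl⟩ := hv
      rw [Finset.mem_filter] at ht'
      obtain ⟨s, s1, s2, s3, s4⟩ := V_beta (hA t (hSR (hFS b1))) (hη t b1) ht'.2.1 ht'.2.2.1
        ht'.2.2.2
      exact ⟨(s, D.Z t'), mem_TV s1 s2, rfl, s3, s4, ht'.2.2.1.2.2.2.2.1, ht'.2.2.1.2.2.2.2.2⟩
    · intro t ht v hv t' ht' v' hv' e he he'
      rw [hFβ, Finset.mem_filter] at ht ht'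
      obtain ⟨b1, b2, b3, b4⟩ := hFrspec t ht.1
      obtain ⟨b1', b2', b3', b4'⟩ := hFrspec t' ht'.1
      obtain ⟨c1, c2, c3, c4, c5⟩ := he
      obtain ⟨c1', c2', c3', c4', c5'⟩ := he'
      have m1 := (blk t).lo_lt
      have m2 := (blk t').lo_lt
      have hbe : blk t = blk t' := Blk.eq_of_memL (x := v)
        ((hlev t (hSR (hFS b1))).trans (hlev t' (hSR (hFS b1'))).symm) (by omega) (by omega)
        (by omega) (by omega)
      refine ⟨?_, by omega⟩
      have hmono : ∀ a ∈ F, ∀ b ∈ F, a ≤ b → blk a = blk b → D.X (σ a) ≤ D.X (σ b) := by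
        intro a ha b hb hab he
        rcases hab.eq_or_lt with rfl | hab
        · exact le_rfl
        · exact (hS2 a (hFS ha) b (hFS hb) hab he).2.2.1.le
      rcases lt_trichotomy t t' with e' | e' | e'
      · have g1 := hnxle t t' b1' e' hbe
        have g2 := hmono (nx t) b2 t' b1' g1 (b4.symm.trans hbe)
        have := ht.2
        omega
      · exact e'
      · have g1 := hnxle t' t b1 e' hbe.symm
        have g2 := hmono (nx t') b2' t b1 g1 (b4'.symm.trans hbe.symm)
        have := ht'.2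
        omega
  -- case α
  have hcα : Fα.card ≤ ∑ l ∈ Finset.Ico (6 * lam) n, (D.aV c g l κ (K + κ)).card := by
    refine le_trans ?_ (Finset.card_biUnion_le)
    apply Finset.card_le_card_of_injOn σ
    · intro a ha
      rw [Finset.mem_coe, hFα, Finset.mem_filter] at ha
      obtain ⟨b1, b2, b3, b4⟩ := hFrspec a ha.1
      have q1 := hA a (hSR (hFS b1))
      have q2 := hA (nx a) (hSR (hFS b2))
      rw [← b4] at q2
      have hpair := hS2 a (hFS b1) (nx a) (hFS b2) b3 b4
      have hin : (H a).inR (H (nx a)) := by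
        rcases hpair.2.2.2 with c | c
        · omega
        · exact c
      have hHC : (H a).mid ≤ (blk a).lo ∧ (blk a).hi ≤ (H a).hi := by
        obtain ⟨d1, d2, d3⟩ := q1.1.1.2.2.1
        exact ⟨d1, d2⟩
      have hlC := (blk a).lo_lt
      have hmC := (blk a).mid_lt
      rw [Finset.mem_coe, Finset.mem_biUnion]
      refine ⟨(H a).lev, ?_, ?_⟩
      · rw [Finset.mem_Ico]
        refine ⟨?_, (V_idx q1.1.1.2.1).2⟩
        rw [hF, Finset.mem_filter] at b1
        exact b1.2
      · rw [aV, Finset.mem_filter]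
        refine ⟨mem_turns.2 q1.1.1.2.1.1, H a, rfl, H (nx a), σ (nx a), π (nx a), α (nx a),
          η (nx a), p (nx a), ?_⟩
        obtain ⟨q21, q22, q23, q24⟩ := q2
        refine ⟨⟨⟨q1.1.1.2.1, q21.1.2.1, hin, hpair.2.2.1.le⟩, ?_, q21.2.2.1, ?_, ?_, ?_⟩,
          ?_, q23, ?_⟩
        · obtain ⟨r1, r2, r3, r4, r5⟩ := q21.2.1
          exact ⟨r1, r2, r3, by omega, r5⟩
        · have r1 := q1.1.2.1.1
          have r2 := hpair.1
          have r3 := q21.2.2.2.1
          omega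
        · refine le_trans (Finset.card_le_card ?_)
            (V_alpha_count q1.1 q21 hpair.2.2.1 (Or.inl rfl) ha.2)
          intro x hx
          rw [Finset.mem_filter] at hx ⊢
          exact ⟨hx.1, hx.2.1, hx.2.2.1, hx.2.2.2, hx.2.2.2.2.2.2.2.1⟩
        · intro H' hH' hlo'
          exact V_alpha_count q1.1 q21 hpair.2.2.1 (Or.inr hH') hlo'
        · obtain ⟨r1, r2, r3, r4, r5⟩ := q22
          exact ⟨r1, r2, by omega, by omega, r5⟩
        · have h1 := V_low_card q1.1
          have h2 := q1.2.2.1.2.2.2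
          rw [hlev a (hSR (hFS b1))] at h1
          have h3 := hcg (H a).lev (by rw [hF, Finset.mem_filter] at b1; exact b1.2)
          have h4 : D.turns.filter (fun t' => σ a < t' ∧ D.V (H a) t' ∧ D.Z t' ≤ D.Z (η a)) ⊆
              D.turns.filter (fun t' => σ a < t' ∧ D.V (H a) t' ∧ D.Z t' < (blk a).hi) ∪
              D.turns.filter (fun t' => σ a < t' ∧ D.V (H a) t' ∧ p (nx a) < D.Z t') := by
            intro x hx
            rw [Finset.mem_filter] at hx
            rw [Finset.mem_union, Finset.mem_filter, Finset.mem_filter]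
            by_cases e : D.Z x < (blk a).hi
            · left; exact ⟨hx.1, hx.2.1, hx.2.2.1, e⟩
            · right; exact ⟨hx.1, hx.2.1, hx.2.2.1, by have := q22.2.2.2.1; omega⟩
          have h5 := Finset.card_le_card h4
          have h6 := Finset.card_union_le
            (D.turns.filter (fun t' => σ a < t' ∧ D.V (H a) t' ∧ D.Z t' < (blk a).hi))
            (D.turns.filter (fun t' => σ a < t' ∧ D.V (H a) t' ∧ p (nx a) < D.Z t'))
          omega
    · -- injectivity
      have key : ∀ a ∈ F, ∀ b ∈ F, σ a = σ b → (blk a).hi ≤ (blk b).lo → False := by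
        intro a ha b hb he hlt
        have q1 := hA a (hSR (hFS ha))
        have q2 := hA b (hSR (hFS hb))
        obtain ⟨r1, r2, r3, r4, r5⟩ := q1.2.1
        obtain ⟨s1, s2, s3, s4, s5⟩ := q2.1.2.1
        have w1 := q1.1.2.1.1
        have w2 := (q1.1.1.2.1).2.1
        obtain ⟨d1, d2, d3⟩ := q1.1.1.2.2.1
        have := (blk b).lo_lt
        have := (blk a).lo_lt
        have := (H a).lo_lt
        have e0 := D.le_self' (α a) (D.X (σ a))
        rcases lt_trichotomy (α a) (π b) with e | e | e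
        · refine s5 (α a) (by omega) e ?_
          rw [← he]; exact r2
        · rw [e] at r2
          exact not_tu_as s2 r2
        · have h1 := after1 s2 (u := p a) (s := α a) (by rw [s3, ← he]; omega) (by omega) e
          rw [s3, ← he] at h1
          omega
      intro a ha b hb he
      rw [Finset.mem_coe, hFα, Finset.mem_filter] at ha hb
      have b1 := (hFrspec a ha.1).1
      have b1' := (hFrspec b hb.1).1
      rcases Blk.nest_eq ((hlev a (hSR (hFS b1))).trans (hlev b (hSR (hFS b1'))).symm) with c | c | c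
      · rcases lt_trichotomy a b with e | e | e
        · have := (hS2 a (hFS b1) b (hFS b1') e c).2.2.1
          rw [he] at this; omega
        · exact e
        · have := (hS2 b (hFS b1') a (hFS b1) e c.symm).2.2.1
          rw [he] at this; omega
      · exact (key a b1 b b1' he c).elim
      · exact (key b b1' a b1 he.symm c).elim
  refine ⟨Fβ.card, hcβ, hS1.trans (Nat.mul_le_mul_left _ ?_)⟩
  have hexp : (n / 2 ^ lam) * (6 * lam + 1) =
    (n / 2 ^ lam) * (6 * lam) + (n / 2 ^ lam) := by ring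
  rw [hexp]
  omega

end Dyn

end Pool.Agent.TA
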